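import Pool.Agent.Lib.MP_361a6f_ag.FL.E.StatU

/-!
# Numerical and homological equivalence for abelian varieties and their reductions: definitions
-/

open CategoryTheory AlgebraicGeometry MonoidalCategory CartesianMonoidalCategory

universe u v w w'

namespace Pool.Agent.Lib.MP_361a6f_ag.FL.EQ

open Pool.Agent.Lib.MP_361a6f_ag.H3 Pool.Agent.Lib.MP_361a6f_ag.SQ

variable {k : Type u} [Field k] {k' : Type v} [Field k']

/-- The hypotheses on `X`: it is an abelian variety (a unital law and `H^0(X) = ℂ` are enough), and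
`ξ` is a divisor class of positive degree. -/
structure HypX (W : CohomologyData.{u, 0, w} k ℂ) (𝒱 : VarietyClass k) (X : Sch k) (g : ℕ)
    (ξ : W.coh X) : Prop where
  mem : 𝒱.mem X g
  conn : ∀ x, W.Deg X 0 x → ∃ c, x = W.scal c 1
  unital : Unital X
  div : PositiveDivisor W X g ξ

/-- The Hodge index theorem holds for `X × X`, and every stable subspace of `H^1(X)` is the image of
a central idempotent of the algebra of the endomorphisms (the theorems of Tate, Zarhin and
Faltings). -/
def Central (W : CohomologyData.{u, 0, w} k ℂ) (X : Sch k) (g : ℕ) (ξ : W.coh X) : Prop :=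
  Index W X g ξ ∧ Isotypic W X g

/-- `X` has an endomorphism `F` (the Frobenius endomorphism over a finite field with `q` elements),
such that `F × ⋯ × F` multiplies the algebraic classes of codimension `l` on the powers of `X` by
`q^l` and `F^*` has `2 n` distinct eigenvalues on `H^1(X)`, of absolute value `√q`. -/
def Frob (W : CohomologyData.{u, 0, w} k ℂ) (X : Sch k) (n : ℕ) : Prop :=
  ∃ (F : Sch.Mor X X) (q : ℕ) (a : Fin (2 * n) → ℂ), 0 < q ∧
    (∀ P l z, W.IsAlg (pw X P) l z → W.pb (pwMap F P) z = W.scal ((q : ℂ) ^ l) z) ∧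
    Function.Injective a ∧
    ∀ i, ‖a i‖ ^ 2 = q ∧ ∃ x, W.Deg X 1 x ∧ x ≠ 0 ∧ W.pb F x = W.scal (a i) x

/-- Numerical equivalence is homological equivalence in codimension `j` on `Y`, for the algebraic
classes with rational coefficients. -/
def NumHomQ (W : CohomologyData.{u, 0, w} k ℂ) (Y : Sch k) (j : ℕ) : Prop :=
  ∀ z, W.IsAlg Y j z → NumTriv W z → z = 0

/-- Under the specialisation `s` of `X` to `X'` no algebraic class `z ≠ 0` of codimension `j` on the
power `X^P` of `X` becomes numerically trivial on the power of `X'`. -/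
def Survive (W : CohomologyData.{u, 0, w} k ℂ) (X : Sch k) (W' : CohomologyData.{v, 0, w'} k' ℂ)
    (X' : Sch k') (s : ∀ P : Prd 1, W.coh (pw X P) → W'.coh (pw X' P)) (P : Prd 1) (j : ℕ) :
    Prop :=
  ∀ z, W.IsAlg (pw X P) j z → NumTriv W' (s P z) → z = 0

end Pool.Agent.Lib.MP_361a6f_ag.FL.EQ
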