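import Pool.Agent.Lib.MP_361a6f_ag.FL.E.D4

/-!
# Determinants of commuting operators
-/

set_option autoImplicit false
set_option linter.unusedSectionVars false

universe w

namespace Pool.Agent.Lib.MP_361a6f_ag.FL.E.DetL

open D4

/-- The determinants of commuting operators are products of characters that occur, and each
character that occurs is one of the factors. -/
theorem exists_list {ι : Type*} : ∀ (n : ℕ) {V : Type w} [AddCommGroup V] [Module ℂ V]
    [FiniteDimensional ℂ V] (T : ι → Module.End ℂ V), (∀ i j, T i * T j = T j * T i) →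
    Module.finrank ℂ V = n →
    ∃ L : List (ι → ℂ), (∀ χ ∈ L, ∃ v : V, v ≠ 0 ∧ ∀ i, T i v = χ i • v) ∧
      (∀ ψ (v : V), v ≠ 0 → (∀ i, T i v = ψ i • v) → ψ ∈ L) ∧
      ∀ i, LinearMap.det (T i) = (L.map fun χ => χ i).prod := by
  intro n
  induction n with
  | zero =>
    intro V _ _ _ T hc hn
    have hs : Subsingleton V := Module.finrank_zero_iff.1 hn
    refine ⟨[], fun χ hχ => absurd hχ List.not_mem_nil, fun ψ v hv => absurd (Subsingleton.elim v 0) hv,
      fun i => ?_⟩
    rw [List.map_nil, List.prod_nil]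
    exact LinearMap.det_eq_one_of_subsingleton _
  | succ n ih =>
    intro V _ _ _ T hc hn
    have hnt : Nontrivial (Module.Dual ℂ V) := by
      apply Module.nontrivial_of_finrank_pos (R := ℂ)
      rw [Subspace.dual_finrank_eq, hn]
      exact Nat.succ_pos n
    obtain ⟨f, -, hf0, χ, hχ⟩ := exists_eig (V := Module.Dual ℂ V) (fun i => (T i).dualMap)
      (fun i j => by
        refine LinearMap.ext fun f => LinearMap.ext fun v => ?_
        have h1 : T j (T i v) = T i (T j v) := by
          rw [← Module.End.mul_apply, hc, Module.End.mul_apply]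
        exact congrArg f h1) (W := ⊤) top_ne_bot fun i w _ => trivial
    have hf : ∀ i v, f (T i v) = χ i * f v := fun i v => LinearMap.congr_fun (hχ i) v
    obtain ⟨v0, hv0⟩ : ∃ v, f v ≠ 0 := by
      by_contra hcon
      push Not at hcon
      exact hf0 (LinearMap.ext hcon)
    have hK : ∀ i, ∀ w ∈ LinearMap.ker f, T i w ∈ LinearMap.ker f := fun i w hw => by
      rw [LinearMap.mem_ker] at hw ⊢
      rw [hf, hw, mul_zero]
    have hfr := Module.Dual.finrank_ker_add_one_of_ne_zero hf0
    obtain ⟨L, hL1, hL2, hL3⟩ := ih (V := LinearMap.ker f) (fun i => (T i).restrict (hK i))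
      (fun i j => LinearMap.ext fun v => Subtype.ext (by
        change T i (T j v) = T j (T i v)
        rw [← Module.End.mul_apply, hc, Module.End.mul_apply])) (by omega)
    refine ⟨χ :: L, ?_, ?_, fun i => ?_⟩
    · intro χ' hχ'
      rcases List.mem_cons.1 hχ' with rfl | hχ'
      · obtain ⟨v, -, hv, hv'⟩ := exists_eig_dual T hc (W := ⊤) (fun i w _ => trivial) f
          ⟨v0, trivial, hv0⟩ χ' fun i w _ => hf i w
        exact ⟨v, hv, hv'⟩
      · obtain ⟨v, hv, hv'⟩ := hL1 χ' hχ'
        exact ⟨v, fun h => hv (Subtype.ext h), fun i => congrArg Subtype.val (hv' i)⟩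
    · intro ψ v hv hψ
      by_cases hfv : f v = 0
      · refine List.mem_cons_of_mem _ (hL2 ψ ⟨v, LinearMap.mem_ker.2 hfv⟩
          (fun h => hv (congrArg Subtype.val h)) fun i => Subtype.ext (hψ i))
      · have e : ψ = χ := by
          funext i
          have h1 := hf i v
          rw [hψ i, map_smul, smul_eq_mul] at h1
          exact mul_right_cancel₀ hfv h1
        rw [e]
        exact List.mem_cons_self
    · rw [LinearMap.det_eq_det_mul_det (LinearMap.ker f) (T i) (hK i), List.map_cons,
        List.prod_cons, ← hL3, mul_comm]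
      congr 1
      have h1 : (LinearMap.ker f).mapQ (LinearMap.ker f) (T i) (hK i) =
          χ i • (1 : Module.End ℂ (V ⧸ LinearMap.ker f)) := by
        refine LinearMap.ext fun q => ?_
        obtain ⟨v, rfl⟩ := Submodule.Quotient.mk_surjective _ q
        rw [Submodule.mapQ_apply, LinearMap.smul_apply, Module.End.one_apply,
          ← Submodule.Quotient.mk_smul, Submodule.Quotient.eq, LinearMap.mem_ker, map_sub, hf,
          map_smul, smul_eq_mul, sub_self]
      have h2 : Module.finrank ℂ (V ⧸ LinearMap.ker f) = 1 := by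
        have h3 := Submodule.finrank_quotient_add_finrank (LinearMap.ker f)
        omega
      rw [h1, LinearMap.det_smul, h2, pow_one]
      change χ i * LinearMap.det (LinearMap.id : (V ⧸ LinearMap.ker f) →ₗ[ℂ] _) = χ i
      rw [LinearMap.det_id, mul_one]

/-- an isometry of a nondegenerate form has determinant `± 1` -/
theorem det_sq {V : Type*} [AddCommGroup V] [Module ℂ V] [FiniteDimensional ℂ V]
    (B : V →ₗ[ℂ] V →ₗ[ℂ] ℂ) (nd : ∀ x, (∀ y, B x y = 0) → x = 0) (M : V →ₗ[ℂ] V)
    (h : ∀ x y, B (M x) (M y) = B x y) : LinearMap.det M ^ 2 = 1 := by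
  have hinj : Function.Injective B := by
    rw [injective_iff_map_eq_zero]
    intro x hx
    exact nd x fun y => by rw [hx, LinearMap.zero_apply]
  let e : V ≃ₗ[ℂ] Module.Dual ℂ V :=
    LinearMap.linearEquivOfInjective B hinj Subspace.dual_finrank_eq.symm
  have he : ∀ x y, e x y = B x y := fun x y => rfl
  have h1 : (e.symm : Module.Dual ℂ V →ₗ[ℂ] V) ∘ₗ M.dualMap ∘ₗ (e : V →ₗ[ℂ] Module.Dual ℂ V) ∘ₗ M =
      LinearMap.id := by
    refine LinearMap.ext fun x => e.injective ?_
    change e (e.symm (M.dualMap (e (M x)))) = e x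
    rw [LinearEquiv.apply_symm_apply]
    exact LinearMap.ext fun y => h x y
  have h2 := congrArg LinearMap.det h1
  have h3 : (e.symm : Module.Dual ℂ V →ₗ[ℂ] V) ∘ₗ M.dualMap ∘ₗ
      (e : V →ₗ[ℂ] Module.Dual ℂ V) ∘ₗ M =
      ((e.symm : Module.Dual ℂ V →ₗ[ℂ] V) ∘ₗ M.dualMap ∘ₗ
        ((e.symm.symm : V ≃ₗ[ℂ] Module.Dual ℂ V) : V →ₗ[ℂ] Module.Dual ℂ V)) ∘ₗ M := rfl
  rw [h3, LinearMap.det_comp, LinearMap.det_conj, LinearMap.det_dualMap, LinearMap.det_id] at h2
  rw [pow_two]
  exact h2

end Pool.Agent.Lib.MP_361a6f_ag.FL.E.DetL
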