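import Pool.Agent.Lib.MP_361a6f_ag.FL.E.DC.StatGal
import Pool.Agent.Lib.MP_361a6f_ag.FL.E.D4p

/-!
# It is enough to test the rational characters
-/

open CategoryTheory AlgebraicGeometry MonoidalCategory CartesianMonoidalCategory

universe u w

set_option autoImplicit false
set_option linter.unusedSectionVars false

namespace Pool.Agent.Lib.MP_361a6f_ag.FL.E.GalN

open Pool.Agent.Lib.MP_361a6f_ag.H3 Pool.Agent.Lib.MP_361a6f_ag.SQ
  Pool.Agent.Lib.MP_361a6f_ag.PP

noncomputable section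

/-! ### Semilinear symmetries -/

section semi

variable {k : Type u} [Field k] {W : CohomologyData.{u, 0, w} k ℂ} {𝒱 : VarietyClass k}
  {X : Sch k} {σ : ℂ ≃+* ℂ} {S : ∀ P : Prd 1, W.coh (EQ.pw X P) → W.coh (EQ.pw X P)}
  (h : EQ.IsSemi W X σ S)
include h

theorem smul (P : Prd 1) (c : ℂ) (x : W.coh (EQ.pw X P)) : S P (c • x) = σ c • S P x :=
  h.scal P c x

theorem zero (P : Prd 1) : S P 0 = 0 := by
  have h1 := smul h P 0 0
  rwa [zero_smul, map_zero, zero_smul] at h1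

theorem ne_zero (P : Prd 1) {x : W.coh (EQ.pw X P)} (hx : x ≠ 0) : S P x ≠ 0 := fun h0 =>
  hx ((h.bij P).1 (h0.trans (zero h P).symm))

/-- the inverse of a semilinear symmetry -/
theorem inv : EQ.IsSemi W X σ.symm fun P => (Equiv.ofBijective _ (h.bij P)).symm := by
  set R : ∀ P : Prd 1, W.coh (EQ.pw X P) → W.coh (EQ.pw X P) :=
    fun P => (Equiv.ofBijective _ (h.bij P)).symm with hR
  have sr : ∀ P x, S P (R P x) = x := fun P x =>
    (Equiv.ofBijective _ (h.bij P)).apply_symm_apply x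
  have rs : ∀ P x, R P (S P x) = x := fun P x =>
    (Equiv.ofBijective _ (h.bij P)).symm_apply_apply x
  have inj : ∀ P, Function.Injective (S P) := fun P => (h.bij P).1
  refine ⟨fun P => (Equiv.ofBijective _ (h.bij P)).symm.bijective, ?_, ?_, ?_, ?_, ?_, ?_, ?_⟩
  · intro P x y
    apply inj P
    rw [h.add, sr, sr, sr]
  · intro P c x
    apply inj P
    change S P (R P (W.scal c x)) = S P (W.scal (σ.symm c) (R P x))
    rw [h.scal, sr, sr, RingEquiv.apply_symm_apply]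
  · intro P Q y x
    apply inj (.prod P Q)
    have e1 : S (.prod P Q) (W.ext (R P y) (R Q x)) = W.ext y x := by rw [h.ext, sr, sr]
    exact (sr (.prod P Q) _).trans e1.symm
  · intro x y
    apply inj (.leaf 0)
    change S (.leaf 0) (R (.leaf 0) (W.cup x y)) = S (.leaf 0) (W.cup _ _)
    rw [h.cup]
    exact (sr (.leaf 0) _).trans (congrArg₂ W.cup (sr (.leaf 0) x) (sr (.leaf 0) y)).symm
  · intro i x
    have h1 := h.deg i (R (.leaf 0) x)
    rw [sr] at h1
    exact h1.symm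
  · intro x
    have h1 := h.tr (R (.leaf 0) x)
    rw [sr] at h1
    change W.Tr (R (.leaf 0) x : W.coh X) = σ.symm (W.Tr x)
    rw [h1, RingEquiv.symm_apply_apply]
  · intro P l z hz
    have h1 := h.alg P l z hz
    change R P z = z
    conv_lhs => rw [← h1]
    exact rs P z

/-- complex combinations of algebraic classes are mapped to such combinations -/
theorem calg (P : Prd 1) (j : ℕ) {x : W.coh (EQ.pw X P)} (hx : x ∈ EQ.CAlg W (EQ.pw X P) j) :
    S P x ∈ EQ.CAlg W (EQ.pw X P) j := by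
  unfold EQ.CAlg at hx ⊢
  induction hx using Submodule.span_induction with
  | mem z hz =>
    rw [h.alg P j z hz]
    exact Submodule.subset_span hz
  | zero =>
    rw [zero h]
    exact zero_mem _
  | add a b _ _ ha hb =>
    rw [h.add]
    exact add_mem ha hb
  | smul c a _ ha =>
    rw [smul h]
    exact Submodule.smul_mem _ _ ha

variable (hW : IsWeilCohomology W 𝒱) {n : ℕ} (hX : 𝒱.mem X n)

omit h in
/-- the action on `H^*(X)` -/
def s1 (S : ∀ P : Prd 1, W.coh (EQ.pw X P) → W.coh (EQ.pw X P)) (x : W.coh X) : W.coh X :=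
  S (.leaf 0) x

omit h in
/-- the action on `H^*(X × X)` -/
def s2 (S : ∀ P : Prd 1, W.coh (EQ.pw X P) → W.coh (EQ.pw X P)) (x : W.coh (X ⊗ X)) :
    W.coh (X ⊗ X) := S (.prod (.leaf 0) (.leaf 0)) x

theorem mul1 (x y : W.coh X) : s1 S (x * y) = s1 S x * s1 S y := h.cup x y

theorem tr1 (x : W.coh X) : W.tr X (s1 S x) = σ (W.tr X x) := h.tr x

theorem add2 (x y : W.coh (X ⊗ X)) : s2 S (x + y) = s2 S x + s2 S y :=
  h.add (.prod (.leaf 0) (.leaf 0)) x y

theorem smul2 (c : ℂ) (x : W.coh (X ⊗ X)) : s2 S (c • x) = σ c • s2 S x :=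
  smul h (.prod (.leaf 0) (.leaf 0)) c x

theorem zero2 : s2 S (0 : W.coh (X ⊗ X)) = 0 := zero h (.prod (.leaf 0) (.leaf 0))

theorem ext2 (a b : W.coh X) : s2 S (W.pull (fst X X) a * W.pull (snd X X) b) =
    W.pull (fst X X) (s1 S a) * W.pull (snd X X) (s1 S b) := h.ext (.leaf 0) (.leaf 0) a b

include hW hX in
omit h in
theorem tr_four (x a b y : W.coh X) : W.tr (X ⊗ X) (W.pull (fst X X) x *
    (W.pull (fst X X) a * W.pull (snd X X) b) * W.pull (snd X X) y) =
    W.tr X (x * a) * W.tr X (b * y) := by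
  have e : W.pull (fst X X) x * (W.pull (fst X X) a * W.pull (snd X X) b) *
      W.pull (snd X X) y = W.pull (fst X X) (x * a) * W.pull (snd X X) (b * y) := by
    rw [_root_.map_mul, _root_.map_mul]
    simp only [mul_assoc]
  rw [e, hW.kunneth_tr hX hX]

include hW hX in
/-- the bilinear form of a class on `X × X` -/
theorem bil_S (w : W.coh (X ⊗ X)) (x y : W.coh X) :
    W.tr (X ⊗ X) (W.pull (fst X X) (s1 S x) * s2 S w * W.pull (snd X X) (s1 S y)) =
      σ (W.tr (X ⊗ X) (W.pull (fst X X) x * w * W.pull (snd X X) y)) := by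
  refine LMP.homog_induction hW hX hX (P := fun w =>
    W.tr (X ⊗ X) (W.pull (fst X X) (s1 S x) * s2 S w * W.pull (snd X X) (s1 S y)) =
      σ (W.tr (X ⊗ X) (W.pull (fst X X) x * w * W.pull (snd X X) y))) w ?_ ?_ ?_ ?_
  · intro p q a b _ _
    rw [ext2 h, tr_four hW hX, tr_four hW hX, _root_.map_mul σ, ← tr1 h, ← tr1 h, mul1 h, mul1 h]
  · rw [zero2 h]
    simp only [mul_zero, zero_mul, map_zero]
  · intro a b ha hb
    rw [add2 h, mul_add, add_mul, map_add, ha, hb, mul_add, add_mul, map_add, map_add]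
  · intro c a ha
    rw [smul2 h, mul_smul_comm, smul_mul_assoc, map_smul, ha, mul_smul_comm, smul_mul_assoc,
      map_smul, smul_eq_mul, smul_eq_mul, _root_.map_mul σ]

include hW hX in
/-- a semilinear symmetry commutes with the action of the algebraic correspondences -/
theorem act_S {z : W.coh (X ⊗ X)} {l : ℕ} (hz : W.IsAlg (X.prod X) l z) (x : W.coh X) :
    s1 S (EQ.act W z x) = EQ.act W z (s1 S x) := by
  have hXX := 𝒱.prod hX hX
  have e : ∀ x y : W.coh X, W.tr X (EQ.act W z x * y) =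
      W.tr (X ⊗ X) (W.pull (fst X X) x * z * W.pull (snd X X) y) := fun x y =>
    hW.push_adj hXX hX _ _ _
  have hzz : s2 S z = z := h.alg (.prod (.leaf 0) (.leaf 0)) l z hz
  refine sub_eq_zero.1 (hW.duality hX _ fun y => ?_)
  obtain ⟨y, rfl⟩ : ∃ y', s1 S y' = y := (h.bij (.leaf 0)).2 y
  have e1 : W.tr X (s1 S (EQ.act W z x) * s1 S y) = σ (W.tr X (EQ.act W z x * y)) := by
    rw [← mul1 h, tr1 h]
  have e2 : W.tr X (EQ.act W z (s1 S x) * s1 S y) = σ (W.tr X (EQ.act W z x * y)) := by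
    rw [e, e, ← bil_S h hW hX z x y, hzz]
  rw [sub_mul, map_sub]
  exact sub_eq_zero.2 (e1.trans e2.symm)

end semi

/-! ### Conjugation of central isometries -/

section conj

variable {k : Type u} [Field k] {W : CohomologyData.{u, 0, w} k ℂ} {𝒱 : VarietyClass k}
  {X : Sch k} {σ : ℂ ≃+* ℂ} {S : ∀ P : Prd 1, W.coh (EQ.pw X P) → W.coh (EQ.pw X P)}
  (h : EQ.IsSemi W X σ S) (hW : IsWeilCohomology W 𝒱) {n : ℕ} {ξ : W.coh X} (hX : 𝒱.mem X n)

include h hW hX in
/-- **The conjugate of a central isometry by a semilinear symmetry.** -/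
theorem conj (hξ : ξ ∈ W.alg X 1) {T : ∀ P : Prd 1, W.coh (EQ.pw X P) → W.coh (EQ.pw X P)}
    (hT : EQ.IsCentral W X n ξ T) : ∃ T', EQ.IsCentral W X n ξ T' ∧
      ∀ P x, S P (T' P x) = T P (S P x) := by
  set R : ∀ P : Prd 1, W.coh (EQ.pw X P) → W.coh (EQ.pw X P) :=
    fun P => (Equiv.ofBijective _ (h.bij P)).symm with hR
  have sr : ∀ P x, S P (R P x) = x := fun P x =>
    (Equiv.ofBijective _ (h.bij P)).apply_symm_apply x
  have inj : ∀ P, Function.Injective (S P) := fun P => (h.bij P).1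
  have inj1 : Function.Injective (s1 S : W.coh X → W.coh X) := inj (.leaf 0)
  set T' : ∀ P : Prd 1, W.coh (EQ.pw X P) → W.coh (EQ.pw X P) := fun P x => R P (T P (S P x))
    with hT'
  have st : ∀ P x, S P (T' P x) = T P (S P x) := fun P x => sr P _
  have st1 : ∀ x : W.coh X, s1 S (T' (.leaf 0) x) = T (.leaf 0) (s1 S x : W.coh X) :=
    fun x => st (.leaf 0) x
  have hone : s1 S (1 : W.coh X) = 1 := h.alg (.leaf 0) 0 (1 : W.coh X) (hW.one_alg hX)
  have hpow : s1 S (ξ ^ (n - 1)) = ξ ^ (n - 1) := by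
    refine h.alg (.leaf 0) (n - 1) (ξ ^ (n - 1) : W.coh X) ?_
    exact hW.pow_alg hX hξ (n - 1)
  refine ⟨T', ⟨⟨?_, ?_, ?_⟩, ?_, ?_, ?_, ?_, ?_, ?_⟩, st⟩
  · intro P x y
    apply inj P
    rw [st, h.add, hT.tensor.add, h.add, st, st]
  · intro P c x
    apply inj P
    rw [st, h.scal, hT.tensor.scal, h.scal, st]
  · intro P Q y x
    apply inj (.prod P Q)
    have e1 : S (.prod P Q) (W.ext (T' P y) (T' Q x)) = W.ext (S P (T' P y)) (S Q (T' Q x)) :=
      h.ext P Q _ _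
    have e2 : T (.prod P Q) (W.ext (S P y) (S Q x)) = W.ext (T P (S P y)) (T Q (S Q x)) :=
      hT.tensor.ext P Q _ _
    refine Eq.trans (st (.prod P Q) _) ?_
    refine Eq.trans ?_ e1.symm
    rw [st, st, ← e2, h.ext]
  · apply inj1
    exact (st1 1).trans ((congrArg (T (.leaf 0)) hone).trans (hT.one.trans hone.symm))
  · intro x y
    apply inj1
    refine (st1 _).trans ?_
    have e1 : s1 S (W.cup (T' (.leaf 0) x : W.coh X) (T' (.leaf 0) y : W.coh X)) =
        W.cup (s1 S (T' (.leaf 0) x)) (s1 S (T' (.leaf 0) y)) := h.cup _ _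
    refine Eq.trans ?_ e1.symm
    rw [st1, st1]
    exact (congrArg (T (.leaf 0)) (h.cup x y)).trans (hT.cup _ _)
  · intro i x hx
    have h1 := (h.deg i (T' (.leaf 0) x)).1
    refine h1 ?_
    rw [st]
    exact hT.deg i _ ((h.deg i x).2 hx)
  · intro z hz x hx
    apply inj1
    refine (st1 _).trans ?_
    refine Eq.trans ?_ (act_S h hW hX hz (T' (.leaf 0) x)).symm
    refine (congrArg (T (.leaf 0)) (act_S h hW hX hz x)).trans ?_
    refine (hT.comm z hz _ ((h.deg 1 x).2 hx)).trans ?_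
    exact (congrArg (EQ.act W z) (st1 x)).symm
  · obtain ⟨γ, hγ, hγT⟩ := hT.alg
    have key : ∀ γ ∈ Submodule.span ℂ {z | W.IsAlg (X.prod X) n z},
        ∃ γ' ∈ Submodule.span ℂ {z | W.IsAlg (X.prod X) n z}, ∀ x,
          s1 S (EQ.act W γ' x) = EQ.act W γ (s1 S x) := by
      intro γ hγ
      have act_add : ∀ (a b : W.coh (X ⊗ X)) (x : W.coh X),
          EQ.act W (a + b) x = EQ.act W a x + EQ.act W b x := by
        intro a b x
        change W.push _ (W.pull _ x * (a + b)) = W.push _ (W.pull _ x * a) +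
          W.push _ (W.pull _ x * b)
        rw [mul_add, map_add]
      have act_smul : ∀ (c : ℂ) (a : W.coh (X ⊗ X)) (x : W.coh X),
          EQ.act W (c • a) x = c • EQ.act W a x := by
        intro c a x
        change W.push _ (W.pull _ x * (c • a)) = c • W.push _ (W.pull _ x * a)
        rw [mul_smul_comm, map_smul]
      induction hγ using Submodule.span_induction with
      | mem z hz => exact ⟨z, Submodule.subset_span hz, fun x => act_S h hW hX hz x⟩
      | zero =>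
        refine ⟨0, zero_mem _, fun x => ?_⟩
        have e0 : ∀ x : W.coh X, EQ.act W (0 : W.coh (X ⊗ X)) x = 0 := by
          intro x
          change W.push _ (W.pull _ x * 0) = 0
          rw [mul_zero, map_zero]
        exact (congrArg (s1 S) (e0 x)).trans ((zero h (.leaf 0)).trans (e0 _).symm)
      | add a b _ _ ha hb =>
        obtain ⟨a', ha', ea⟩ := ha
        obtain ⟨b', hb', eb⟩ := hb
        refine ⟨a' + b', add_mem ha' hb', fun x => ?_⟩
        have e1 : s1 S (EQ.act W (a' + b') x) =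
            s1 S (EQ.act W a' x) + s1 S (EQ.act W b' x) :=
          (congrArg (s1 S) (act_add a' b' x)).trans (h.add (.leaf 0) _ _)
        rw [e1, ea, eb]
        exact (act_add a b _).symm
      | smul c a _ ha =>
        obtain ⟨a', ha', ea⟩ := ha
        refine ⟨σ.symm c • a', Submodule.smul_mem _ _ ha', fun x => ?_⟩
        have e1 : s1 S (EQ.act W (σ.symm c • a') x) = c • s1 S (EQ.act W a' x) := by
          refine (congrArg (s1 S) (act_smul _ a' x)).trans ((smul h (.leaf 0) _ _).trans ?_)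
          rw [RingEquiv.apply_symm_apply]
          rfl
        rw [e1, ea]
        exact (act_smul c a _).symm
    obtain ⟨γ', hγ', e⟩ := key γ hγ
    refine ⟨γ', hγ', fun x hx => ?_⟩
    apply inj1
    refine (st1 x).trans ?_
    rw [e]
    exact hγT _ ((h.deg 1 x).2 hx)
  · intro x y hx hy
    apply σ.injective
    have e : ∀ x y : W.coh X, σ (W.tr X (ξ ^ (n - 1) * (x * y))) =
        W.tr X (ξ ^ (n - 1) * (s1 S x * s1 S y)) := by
      intro x y
      rw [← tr1 h, mul1 h, mul1 h, hpow]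
    refine (e _ _).trans ((?_ : _ = _).trans (e x y).symm)
    rw [st1, st1]
    exact hT.form _ _ ((h.deg 1 x).2 hx) ((h.deg 1 y).2 hy)

end conj

/-! ### The characters in a finite-dimensional space -/

section fin

variable {V ι : Type*} [AddCommGroup V] [Module ℂ V]

/-- the characters that occur in `A` -/
def chars (T : ι → V →ₗ[ℂ] V) (A : Submodule ℂ V) : Set (ι → ℂ) :=
  {ψ | ∃ z ∈ A, z ≠ 0 ∧ ∀ i, T i z = ψ i • z}

theorem chars_finite [Module.Finite ℂ V] {T : ι → V →ₗ[ℂ] V}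
    (comm : ∀ i j z, T i (T j z) = T j (T i z)) (A : Submodule ℂ V) : (chars T A).Finite := by
  have h1 : iSupIndep fun χ : ι → ℂ => ⨅ i, Module.End.maxGenEigenspace (T i) (χ i) :=
    Module.End.independent_iInf_maxGenEigenspace_of_forall_mapsTo T fun i j φ =>
      Module.End.mapsTo_maxGenEigenspace_of_comm (LinearMap.ext fun z => comm j i z) φ
  refine (WellFoundedGT.finite_ne_bot_of_iSupIndep h1).subset ?_
  rintro ψ ⟨z, -, hz0, hz⟩
  refine (Submodule.ne_bot_iff _).2 ⟨z, ?_, hz0⟩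
  rw [Submodule.mem_iInf]
  intro i
  have h2 : z ∈ Module.End.eigenspace (T i) (ψ i) := Module.End.mem_eigenspace_iff.2 (hz i)
  exact (Module.End.genEigenspace (T i) (ψ i)).monotone le_top h2

end fin

/-! ### Products of characters -/

section prod

open D4

variable {k : Type u} [Field k] {W : CohomologyData.{u, 0, w} k ℂ} {𝒱 : VarietyClass k}
  {X : Fin 1 → Sch k} {d : Prd 1 → ℕ} {ι : Type*}
  (hW : IsWeilCohomology W 𝒱) (mem : ∀ P, 𝒱.mem (P.obj X) (d P))
  {T : ι → ∀ P : Prd 1, W.coh (P.obj X) →ₗ[ℂ] W.coh (P.obj X)} (G : Good W X T)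
include hW mem G

theorem occ_mul {χ χ' : ι → ℂ} (h : Occ W X T χ) (h' : Occ W X T χ') :
    Occ W X T fun i => χ i * χ' i := by
  obtain ⟨P, j, z, hz, hz0, hT⟩ := h
  obtain ⟨Q, l, z', hz', hz'0, hT'⟩ := h'
  refine ⟨.prod P Q, j + l, W.ext z z', ext_sp hW (mem P) (mem Q) hz hz', fun h0 => hz0 ?_,
    fun i => ?_⟩
  · exact ext_ne hW (mem P) (mem Q) (sp_le hW _ l hz') hz'0 h0
  · rw [G.ext, hT, hT']
    exact ext_smul (P.obj X) (Q.obj X) (χ i) (χ' i) z z'

theorem occ_prod {χ : ι → ℂ} (h : Occ W X T χ) (s : Finset (ι → ℂ))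
    (hs : ∀ ψ ∈ s, Occ W X T ψ) : Occ W X T fun i => χ i * ∏ ψ ∈ s, ψ i := by
  classical
  induction s using Finset.induction_on with
  | empty =>
    simp only [Finset.prod_empty, mul_one]
    exact h
  | insert ψ s hψ ih =>
    have h1 := occ_mul hW mem G (hs ψ (Finset.mem_insert_self ψ s))
      (ih fun ψ' hψ' => hs ψ' (Finset.mem_insert_of_mem hψ'))
    have e : (fun i => χ i * ∏ ψ' ∈ insert ψ s, ψ' i) =
        fun i => ψ i * (χ i * ∏ ψ' ∈ s, ψ' i) := by
      funext i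
      rw [Finset.prod_insert hψ]
      ring
    rw [e]
    exact h1

end prod

/-! ### Rational characters suffice -/

section main

open D4

variable {k : Type u} [Field k] {W : CohomologyData.{u, 0, w} k ℂ} {𝒱 : VarietyClass k}
  (hW : IsWeilCohomology W 𝒱) {X : Sch k} {g : ℕ} {ξ : W.coh X} (h : EQ.Hyp0 W 𝒱 X g ξ)
include hW h

/-- **If the inverse of every rational character that occurs also occurs then this is so for all
characters.** -/
theorem all_of_rational
    (H : ∀ χ, EQ.Rational W X g ξ χ → EQ.Occurs W X g ξ χ → EQ.Occurs W X g ξ fun T => (χ T)⁻¹)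
    (χ : (∀ P : Prd 1, W.coh (EQ.pw X P) → W.coh (EQ.pw X P)) → ℂ) (hχ : EQ.Occurs W X g ξ χ) :
    EQ.Occurs W X g ξ fun T => (χ T)⁻¹ := by
  classical
  have G := good hW h
  have mem := mem_pw (𝒱 := 𝒱) h.mem
  rw [occ_iff] at hχ ⊢
  obtain ⟨P, j, z, hz, hz0, hT⟩ := hχ
  have hfin : Module.Finite ℂ (W.coh (P.obj fun _ : Fin 1 => X)) := hW.finite (mem P)
  have hfs := chars_finite (T := fun i => fm W X g ξ i P)
    (fun i i' w => G.comm i i' P w) (EQ.CAlg W (P.obj fun _ : Fin 1 => X) j)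
  set s := hfs.toFinset with hs
  have ms : ∀ ψ, ψ ∈ s ↔ ∃ z ∈ EQ.CAlg W (P.obj fun _ : Fin 1 => X) j, z ≠ 0 ∧
      ∀ i, fm W X g ξ i P z = ψ i • z := fun ψ => hfs.mem_toFinset
  have hocc : ∀ ψ ∈ s, Occ W (fun _ : Fin 1 => X) (fm W X g ξ) ψ := fun ψ hψ => by
    obtain ⟨z, hz, hz0, hT⟩ := (ms ψ).1 hψ
    exact ⟨P, j, z, hz, hz0, hT⟩
  set χ0 : {T // EQ.IsCentral W X g ξ T} → ℂ := fun i => χ i.1 with hχ0
  have m0 : χ0 ∈ s := (ms χ0).2 ⟨z, hz, hz0, hT⟩
  have nz : ∀ ψ ∈ s, ∀ i, ψ i ≠ 0 := fun ψ hψ i => by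
    obtain ⟨z, hz, hz0, hT⟩ := (ms ψ).1 hψ
    exact G.ne_zero hW mem hz0 hT i
  set Pi : {T // EQ.IsCentral W X g ξ T} → ℂ := fun i => ∏ ψ ∈ s, ψ i with hPi
  have ePi : ∀ i, Pi i = χ0 i * ∏ ψ ∈ s.erase χ0, ψ i := fun i =>
    (Finset.mul_prod_erase s (fun ψ => ψ i) m0).symm
  have oPi : Occ W (fun _ : Fin 1 => X) (fm W X g ξ) Pi := by
    have h1 := occ_prod hW mem G (hocc χ0 m0) (s.erase χ0) fun ψ hψ =>
      hocc ψ (Finset.mem_of_mem_erase hψ)
    have e : (fun i => χ0 i * ∏ ψ ∈ s.erase χ0, ψ i) = Pi := by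
      funext i
      exact (ePi i).symm
    rwa [e] at h1
  let Pi' : (∀ P : Prd 1, W.coh (EQ.pw X P) → W.coh (EQ.pw X P)) → ℂ :=
    fun T => if hT : EQ.IsCentral W X g ξ T then Pi ⟨T, hT⟩ else 0
  have ePi' : ∀ i : {T // EQ.IsCentral W X g ξ T}, Pi' i.1 = Pi i := fun i => dif_pos i.2
  have rat : EQ.Rational W X g ξ Pi' := by
    intro σ S hS T T' hT hT' hST
    have hξ : ξ ∈ W.alg X 1 := h.div.1
    choose κ hκ hSκ using fun i : {T // EQ.IsCentral W X g ξ T} => conj hS hW h.mem hξ i.2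
    have inj : ∀ P, Function.Injective (S P) := fun P => (hS.bij P).1
    let c : ({T // EQ.IsCentral W X g ξ T} → ℂ) → {T // EQ.IsCentral W X g ξ T} → ℂ :=
      fun ψ i => σ (ψ ⟨κ i, hκ i⟩)
    have cmem : ∀ ψ ∈ s, c ψ ∈ s := by
      intro ψ hψ
      obtain ⟨z, hz, hz0, hT⟩ := (ms ψ).1 hψ
      refine (ms _).2 ⟨S P z, calg hS P j hz, ne_zero hS P hz0, fun i => ?_⟩
      have h1 : κ i P z = ψ ⟨κ i, hκ i⟩ • z := hT ⟨κ i, hκ i⟩
      change i.1 P (S P z) = σ (ψ ⟨κ i, hκ i⟩) • S P z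
      rw [← hSκ i P z, h1]
      exact smul hS P _ _
    have csurj : ∀ i : {T // EQ.IsCentral W X g ξ T}, ∃ i', (⟨κ i', hκ i'⟩ :
        {T // EQ.IsCentral W X g ξ T}) = i := by
      intro i
      obtain ⟨T1, hT1, e1⟩ := conj (inv hS) hW h.mem hξ i.2
      refine ⟨⟨T1, hT1⟩, Subtype.ext ?_⟩
      funext P x
      apply inj P
      refine (hSκ ⟨T1, hT1⟩ P x).trans ?_
      have h2 := e1 P (S P x)
      have h3 : (Equiv.ofBijective _ (hS.bij P)).symm (S P x) = x :=
        (Equiv.ofBijective _ (hS.bij P)).symm_apply_apply x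
      have h4 : (Equiv.ofBijective _ (hS.bij P)).symm (T1 P (S P x)) = i.1 P x :=
        h2.trans (congrArg (i.1 P) h3)
      exact ((Equiv.ofBijective _ (hS.bij P)).symm_apply_eq.1 h4)
    have cinj : ∀ ψ ∈ s, ∀ ψ' ∈ s, c ψ = c ψ' → ψ = ψ' := by
      intro ψ _ ψ' _ e
      funext i
      obtain ⟨i', rfl⟩ := csurj i
      exact σ.injective (congrFun e i')
    have himg : s.image c = s :=
      Finset.eq_of_subset_of_card_le (Finset.image_subset_iff.2 cmem)
        (Finset.card_image_of_injOn fun ψ hψ ψ' hψ' e => cinj ψ hψ ψ' hψ' e).ge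
    have hTκ : (⟨κ ⟨T', hT'⟩, hκ ⟨T', hT'⟩⟩ : {T // EQ.IsCentral W X g ξ T}) = ⟨T, hT⟩ := by
      refine Subtype.ext ?_
      funext P x
      apply inj P
      exact (hSκ ⟨T', hT'⟩ P x).trans (hST P x).symm
    rw [ePi' ⟨T', hT'⟩, ePi' ⟨T, hT⟩]
    have e1 : Pi ⟨T', hT'⟩ = ∏ ψ ∈ s, c ψ ⟨T', hT'⟩ := by
      change ∏ ψ ∈ s, ψ ⟨T', hT'⟩ = _
      conv_lhs => rw [← himg]
      exact Finset.prod_image fun ψ hψ ψ' hψ' e => cinj ψ hψ ψ' hψ' e
    rw [e1]
    change ∏ ψ ∈ s, σ (ψ ⟨κ ⟨T', hT'⟩, hκ ⟨T', hT'⟩⟩) = σ (∏ ψ ∈ s, ψ ⟨T, hT⟩)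
    rw [hTκ, _root_.map_prod σ]
  have h1 := H Pi' rat ((occ_iff Pi').2 (by
    have e : (fun i : {T // EQ.IsCentral W X g ξ T} => Pi' i.1) = Pi := funext ePi'
    rw [e]
    exact oPi))
  rw [occ_iff] at h1
  have h2 := occ_prod hW mem G h1 (s.erase χ0) fun ψ hψ => hocc ψ (Finset.mem_of_mem_erase hψ)
  have e : (fun i : {T // EQ.IsCentral W X g ξ T} => (Pi' i.1)⁻¹ * ∏ ψ ∈ s.erase χ0, ψ i) =
      fun i => (χ0 i)⁻¹ := by
    funext i
    have h3 : ∏ ψ ∈ s.erase χ0, ψ i ≠ 0 :=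
      Finset.prod_ne_zero_iff.2 fun ψ hψ => nz ψ (Finset.mem_of_mem_erase hψ) i
    rw [ePi', ePi, mul_inv, mul_assoc, inv_mul_cancel₀ h3, mul_one]
  rw [e] at h2
  exact h2

/-- **The criterion with rational characters.** -/
theorem num_iff_rational : (∀ P, EQ.NumHom W (EQ.pw X P)) ↔
    ∀ χ, EQ.Rational W X g ξ χ → EQ.Occurs W X g ξ χ → EQ.Occurs W X g ξ fun T => (χ T)⁻¹ :=
  (num_iff_char hW h).trans
    ⟨fun h1 χ _ hχ => h1 χ hχ, fun h1 χ hχ => all_of_rational hW h h1 χ hχ⟩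

end main

end

end Pool.Agent.Lib.MP_361a6f_ag.FL.E.GalN
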