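import Pool.Agent.Lib.MP_361a6f_ag.FL.E.RotJ

/-!
# Numerically trivial classes are pull-backs of numerically trivial tensors
-/

open CategoryTheory AlgebraicGeometry MonoidalCategory CartesianMonoidalCategory

universe u v w

set_option autoImplicit false
set_option linter.unusedSectionVars false

namespace Pool.Agent.Lib.MP_361a6f_ag.FL

open Pool.Agent.Lib.MP_361a6f_ag.H3 Pool.Agent.Lib.MP_361a6f_ag.SQ
  Pool.Agent.Lib.MP_361a6f_ag.PP

namespace RotN

open EndE EndC EndM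

variable {k : Type u} [Field k] {m : ℕ} {W : CohomologyData.{u, 0, w} k ℂ} {𝒱 : VarietyClass k}
  (H : Host W 𝒱 m)

/-- the algebraic classes of codimension `j` in the kernel of `ψ` -/
def NJ (P : Prd m) (j : ℕ) : Set (W.coh (P.obj H.X)) :=
  {x | x ∈ W.alg (P.obj H.X) j ∧ ∀ v ∈ tot W (P.obj H.X), H.psiP P v x = 0}

/-- the algebraic tensors of degree one in the kernel of `ψ` -/
def NT (Q : Prd m) : Set (W.coh (Q.obj H.X)) :=
  {t | t ∈ tot W (Q.obj H.X) ∧ Dd H Q t ∧ ∀ v ∈ tot W (Q.obj H.X), H.psiP Q v t = 0}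

/-- their pull-backs -/
def VN (P : Prd m) (j : ℕ) : Set (W.coh (P.obj H.X)) :=
  {y | ∃ (Q : Prd m) (F : P.obj H.X ⟶ Q.obj H.X) (t : W.coh (Q.obj H.X)),
    CoordMor H.X 3 P Q F ∧ Q.size = 2 * j ∧ t ∈ NT H Q ∧ y = W.pull F t}

theorem pull_n {P Q : Prd m} (F : P.obj H.X ⟶ Q.obj H.X) {j : ℕ} (hQ : Q.size = 2 * j)
    {t : W.coh (Q.obj H.X)} (ht : t ∈ NT H Q) : W.pull F t ∈ NJ H P j := by
  obtain ⟨h1, h2, h3⟩ := ht
  have hg := dd_gr H h2
  have hp : W.pull F t ∈ W.gr (P.obj H.X) Q.size := H.hW.pull_gr (H.memP P) (H.memP Q) F hg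
  refine ⟨?_, fun v hv => ?_⟩
  · refine H.hW.pull_alg (H.memP P) (H.memP Q) F (tot_alg H.hW (H.memP Q) h1 ?_)
    rw [← hQ]
    exact hg
  · have e1 := psi_sym H P v hp
    have e2 := psi_adj H F (tot_ct H hv) t
    have e3 := psi_sym H Q (adj H F v) hg
    rw [h3 _ (adj_tot H F hv)] at e3
    have e4 : H.psiP Q t (adj H F v) = 0 :=
      (mul_eq_zero.1 e3.symm).resolve_left (pow_ne_zero _ (by norm_num))
    rw [e1, ← e2, e4, mul_zero]

theorem z1_n {P Q : Prd m} (F : P.obj H.X ⟶ Q.obj H.X) {j : ℕ}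
    {y : W.coh (P.obj H.X)} (hy : y ∈ NJ H P j) : Z1 H Q (adj H F y) ∈ NT H Q := by
  have ht : y ∈ tot W (P.obj H.X) := alg_le_tot H.hW _ j hy.1
  refine ⟨Z1_tot H Q (adj_tot H F ht), Z1_dd H Q _, fun v hv => ?_⟩
  rw [psi_Z1_left, psi_adj H F (tot_ct H ht)]
  exact hy.2 _ (tot_pull H.hW (H.memP P) (H.memP Q) F (Z1_tot H Q hv))

/-- **Numerically trivial algebraic classes are complex combinations of pull-backs of numerically
trivial algebraic tensors.** -/
theorem n_span (hAb : ∀ a, AbelianType W (H.X a) (H.n a))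
    (hpd : ∀ a, PositiveDivisor W (H.X a) (H.n a) (H.ξ a)) (P : Prd m) (j : ℕ) :
    Submodule.span ℂ (VN H P j) = Submodule.span ℂ (NJ H P j) := by
  have hext : ∀ a, ExtFacts W (H.X a) := fun a => by
    obtain ⟨q, hq, hqt⟩ := (hpd a).2
    have hqt' : W.tr (H.X a) (H.ξ a ^ H.n a) = (q : ℂ) := hqt
    have hq0 : (q : ℂ) ≠ 0 := by exact_mod_cast hq.ne'
    exact Ext1.extFacts H.hW (H.mem a) (hAb a) ⟨_, by rw [hqt']; exact hq0⟩
  have a1 := alg1
  have a2 := alg2
  have ge := ge H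
  have h1G := isG_one H
  obtain ⟨K, S⟩ := exists_K H a1 h1G h1G ge hAb hpd hext
  have hfam := fam_of_ksys H a1 a2 h1G h1G S
  have _ := H.hW.finite (H.memP P)
  have hle : Submodule.span ℂ (VN H P j) ≤ Submodule.span ℂ (NJ H P j) := by
    refine Submodule.span_le.2 ?_
    rintro y ⟨Q, F, t, -, hQ, ht, rfl⟩
    exact Submodule.subset_span (pull_n H F hQ ht)
  -- `K` on classes with tensors of degree one
  have hKd : ∀ (Q : Prd m) (t : W.coh (Q.obj H.X)), Dd H Q t → K Q t = GJ.J H a1 1 Q t := by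
    intro Q t ht
    have e1 : t = ∑ w, H.tc Q t w • H.E Q w := ge.expand Q t
    have e2 : K Q t = jc H a1 1 1 Q t := by
      conv_lhs => rw [e1]
      conv_rhs => rw [e1]
      exact K_sum H a1 a2 h1G h1G ge S Q ht
    rw [e2]
    refine ge.inj Q ?_
    rw [tc_jc H a1 h1G h1G ge, GJ.tc_J H a1 h1G ge, TT, a1.gT_one]
  have hJd : ∀ (Q : Prd m) (t : W.coh (Q.obj H.X)), Dd H Q t → Dd H Q (GJ.J H a1 1 Q t) := by
    intro Q t ht w hw
    rw [GJ.tc_J H a1 h1G ge]
    exact GJ.JT_supp H.D a1 h1G (fun w => ¬ D1 H w) (fun w w' hh => d1_typ H hh) ht w hw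
  -- elements of the span
  have hct : ∀ y ∈ Submodule.span ℂ (NJ H P j), y ∈ CT H P := fun y hy =>
    Submodule.span_mono (fun x hx => alg_le_tot H.hW _ j hx.1) hy
  have hgr : ∀ y ∈ Submodule.span ℂ (NJ H P j), y ∈ W.gr (P.obj H.X) (2 * j) := fun y hy =>
    Submodule.span_le.2 (fun x hx => H.hW.alg_gr (H.memP P) hx.1) hy
  have hps : ∀ y ∈ Submodule.span ℂ (NJ H P j), ∀ v ∈ tot W (P.obj H.X), H.psiP P v y = 0 := by
    intro y hy v hv
    have h1 : Submodule.span ℂ (NJ H P j) ≤ LinearMap.ker (psiB H P v) :=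
      Submodule.span_le.2 fun x hx => hx.2 v hv
    exact h1 hy
  have hz1 : ∀ (Q : Prd m) (F : P.obj H.X ⟶ Q.obj H.X), ∀ y ∈ Submodule.span ℂ (NJ H P j),
      Z1 H Q (adj H F y) ∈ Submodule.span ℂ (NT H Q) := by
    intro Q F y hy
    have h1 : Submodule.span ℂ (NJ H P j) ≤
        (Submodule.span ℂ (NT H Q)).comap (Z1l H Q ∘ₗ adj H F) :=
      Submodule.span_le.2 fun x hx => Submodule.subset_span (z1_n H F hx)
    exact h1 hy
  have hpv : ∀ (Q : Prd m) (F : P.obj H.X ⟶ Q.obj H.X), CoordMor H.X 3 P Q F → Q.size = 2 * j →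
      ∀ t ∈ Submodule.span ℂ (NT H Q), W.pull F t ∈ Submodule.span ℂ (VN H P j) := by
    intro Q F hF hQ t ht
    have h1 : Submodule.span ℂ (NT H Q) ≤
        (Submodule.span ℂ (VN H P j)).comap (W.pull F).toLinearMap :=
      Submodule.span_le.2 fun x hx => Submodule.subset_span ⟨Q, F, x, hF, hQ, hx, rfl⟩
    exact h1 ht
  -- the pairing
  let B : (Submodule.span ℂ (NJ H P j)) →ₗ[ℝ] Module.Dual ℝ (Submodule.span ℂ (VN H P j)) :=
    LinearMap.mk₂ ℝ (fun (y : Submodule.span ℂ (NJ H P j)) (v : Submodule.span ℂ (VN H P j)) =>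
        (psiB H P (K P (v : W.coh (P.obj H.X))) (y : W.coh (P.obj H.X))).re)
      (fun y y' v => by
        rw [Submodule.coe_add, map_add, Complex.add_re])
      (fun c y v => by
        have e : ((c • y : Submodule.span ℂ (NJ H P j)) : W.coh (P.obj H.X)) =
          (c : ℂ) • (y : W.coh (P.obj H.X)) := rfl
        rw [e, map_smul, smul_eq_mul, Complex.re_ofReal_mul, smul_eq_mul])
      (fun y v v' => by
        rw [Submodule.coe_add, map_add, map_add, LinearMap.add_apply, Complex.add_re])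
      (fun c y v => by
        have e : ((c • v : Submodule.span ℂ (VN H P j)) : W.coh (P.obj H.X))
          = (c : ℂ) • (v : W.coh (P.obj H.X)) := rfl
        rw [e, LinearMap.map_smulₛₗ, Complex.conj_ofReal, map_smul, LinearMap.smul_apply,
          smul_eq_mul, Complex.re_ofReal_mul, smul_eq_mul])
  have hBa : ∀ (y : Submodule.span ℂ (NJ H P j)) (v : Submodule.span ℂ (VN H P j)),
      B y v = (H.psiP P (K P (v : W.coh (P.obj H.X))) (y : W.coh (P.obj H.X))).re :=
    fun y v => rfl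
  have hinj : Function.Injective B := by
    rw [injective_iff_map_eq_zero]
    intro y hy
    have h0 : ∀ v ∈ Submodule.span ℂ (VN H P j),
        H.psiP P (K P v) (y : W.coh (P.obj H.X)) = 0 := by
      intro v hv
      have h1 := hBa y ⟨v, hv⟩
      have h2 := hBa y ⟨Complex.I • v, Submodule.smul_mem _ _ hv⟩
      rw [hy, LinearMap.zero_apply] at h1 h2
      have h3 : H.psiP P (K P (Complex.I • v)) (y : W.coh (P.obj H.X))
          = -Complex.I * H.psiP P (K P v) (y : W.coh (P.obj H.X)) := by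
        rw [LinearMap.map_smulₛₗ, Complex.conj_I]
        exact psi_smul_left _ _ _ _
      rw [show ((⟨Complex.I • v, Submodule.smul_mem _ _ hv⟩ : Submodule.span ℂ (VN H P j)) :
        W.coh (P.obj H.X)) = Complex.I • v from rfl, h3] at h2
      refine Complex.ext h1.symm ?_
      have h4 : (-Complex.I * H.psiP P (K P v) (y : W.coh (P.obj H.X))).re
          = (H.psiP P (K P v) (y : W.coh (P.obj H.X))).im := by
        simp
      rw [h4] at h2
      exact h2.symm
    have hyc := hct _ y.2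
    refine Subtype.ext (eq_zero H hAb P hyc (hps _ y.2 _ (one_tot H P)) fun Q F hF => ?_)
    by_cases hQ : Q.size = 2 * j
    · by_contra ht
      have htn := hz1 Q F _ y.2
      have htd := Z1_dd H Q (adj H F (y : W.coh (P.obj H.X)))
      obtain ⟨r, hr, h2⟩ := GJ.J_pos H a1 h1G ge Q _ ht
      have h1 := h0 (W.pull F (Z1 H Q (adj H F (y : W.coh (P.obj H.X)))))
        (hpv Q F hF hQ _ htn)
      have e1 := hfam.pull P Q F hF (Z1 H Q (adj H F (y : W.coh (P.obj H.X))))
      have e2 := psi_adj H F hyc (K Q (Z1 H Q (adj H F (y : W.coh (P.obj H.X)))))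
      rw [e1, ← e2, hKd Q _ htd, ← psi_Z1 H ge Q (hJd Q _ htd), psi_sym H Q _ (dd_gr H htd),
        h2] at h1
      rcases mul_eq_zero.1 h1 with h3 | h3
      · exact absurd h3 (pow_ne_zero _ (by norm_num))
      · exact hr.ne' (by exact_mod_cast h3)
    · refine nd_right H Q _ fun y' => ?_
      rw [psi_Z1_left, psi_adj H F hyc]
      exact psi_off H P hQ (H.hW.pull_gr (H.memP P) (H.memP Q) F (dd_gr H (Z1_dd H Q y')))
        (hgr _ y.2)
  exact Submodule.eq_of_le_of_finrank_le hle (finrank_le_of_pairing _ _ B hinj)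

end RotN

end Pool.Agent.Lib.MP_361a6f_ag.FL
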