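import Pool.Agent.Lib.MP_361a6f_ag.FL.E.DC.StatH
import Pool.Agent.Lib.MP_361a6f_ag.FL.E.DC.HalfN
import Pool.Agent.Lib.MP_361a6f_ag.FL.E.I.Half

/-!
# The half law for abelian varieties
-/

open CategoryTheory AlgebraicGeometry MonoidalCategory CartesianMonoidalCategory

universe u v w

set_option autoImplicit false
set_option linter.unusedSectionVars false

namespace Pool.Agent.Lib.MP_361a6f_ag.FL

open Pool.Agent.Lib.MP_361a6f_ag.H3 Pool.Agent.Lib.MP_361a6f_ag.SQ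
  Pool.Agent.Lib.MP_361a6f_ag.PP

namespace RotN

open EndE EndC EndM E E.RotG

section host

variable {k : Type u} [Field k] {W : CohomologyData.{u, 0, w} k ℂ} {𝒱 : VarietyClass k}
  (H : Host W 𝒱 1)

/-- algebraic tensors of degree one in the kernel and their classes -/
theorem nt_nt {Q : Prd 1} {t : W.coh (Q.obj H.X)} (ht : t ∈ NT H Q) :
    E.Inj.Nt (E.subD H.D (0, 1)) (E.At1 H) Q.size (tc1 H Q t) := by
  obtain ⟨h1, -, h3⟩ := ht
  refine ⟨tc1_at H h1, tc1_span H (tot_ct H h1), ?_⟩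
  intro v hv'
  rw [E.Rot.psi_flip (odd1 H), ← psi_cls_right, ← psiB_apply]
  have h4 : Submodule.span ℂ {u | E.At1 H Q.size u}
      ≤ LinearMap.ker ((psiB H Q).flip t ∘ₗ cls H Q) :=
    Submodule.span_le.2 fun u hu => h3 _ (cls_tot H hu)
  have h5 : psiB H Q (cls H Q v) t = 0 := h4 hv'
  rw [h5, mul_zero]

theorem nt_cls {Q : Prd 1} {u : Ten (E.Sub H.D (0, 1)) Q.size}
    (hu : E.Inj.Nt (E.subD H.D (0, 1)) (E.At1 H) Q.size u) : cls H Q u ∈ NT H Q := by
  refine ⟨cls_tot H hu.1, cls_dd H Q u, fun v hv => ?_⟩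
  rw [psi_sym H Q v (dd_gr H (cls_dd H Q u)), psi_cls_right,
    hu.2.2 _ (tc1_span H (tot_ct H hv)), mul_zero]

/-- numerical triviality and the kernel of `ψ` -/
theorem nj_iff {P : Prd 1} {j : ℕ} {x : W.coh (P.obj H.X)} :
    x ∈ NJ H P j ↔ x ∈ W.alg (P.obj H.X) j ∧
      ∀ l, ∀ y ∈ W.alg (P.obj H.X) l, W.tr (P.obj H.X) (x * y) = 0 := by
  constructor
  · rintro ⟨h1, h2⟩
    have ht : x ∈ tot W (P.obj H.X) := alg_le_tot H.hW _ j h1
    refine ⟨h1, fun l y hy => ?_⟩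
    have hy' : y ∈ tot W (P.obj H.X) := alg_le_tot H.hW _ l hy
    have h3 := h2 _ (star_tot H P hy')
    change W.tr (P.obj H.X) (H.starP P y * H.starP P x) = 0 at h3
    rw [star_adj, star2, ct_comm H P (tot_ct H hy')] at h3
    exact h3
  · rintro ⟨h1, h2⟩
    have ht : x ∈ tot W (P.obj H.X) := alg_le_tot H.hW _ j h1
    refine ⟨h1, fun v hv => ?_⟩
    change W.tr (P.obj H.X) (v * H.starP P x) = 0
    rw [← star_adj, ← ct_comm H P (tot_ct H ht)]
    exact tr_tot H P h2 _ (star_tot H P hv)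

end host

section hyp

variable {k : Type u} [Field k] {W : CohomologyData.{u, 0, w} k ℂ} {𝒱 : VarietyClass k}
  (hW : IsWeilCohomology W 𝒱) {X : Sch k} {g : ℕ} {ξ : W.coh X} (h : EQ.Hyp0 W 𝒱 X g ξ)
  (c : Hst.Core W X g ξ)

/-- conjugate functionals vanish on the numerically trivial classes -/
theorem fun_zero (hI : EQ.Index W X g ξ) (P : Prd 1) (j : ℕ)
    (l μ : W.coh (P.obj (hst0 hW h c).X) →ₗ[ℂ] ℂ)
    (hN : ∀ x ∈ NJ (hst0 hW h c) P j, l x = starRingEnd ℂ (μ x)) :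
    ∀ x ∈ NJ (hst0 hW h c) P j, l x = 0 := by
  obtain ⟨Γ, grp, gfix, orbit⟩ := exists_gam hW h c
  have hv : ∀ x ∈ VN (hst0 hW h c) P j, l x = 0 := by
    rintro x ⟨Q, F, t, -, hQ, ht, rfl⟩
    have h1 := E.Inj.half_fun mainY alg1 (asys1 (hst0 hW h c)) (odd1 (hst0 hW h c))
      (typ1 (hst0 hW h c)) Γ grp gfix orbit (pos_two (hst0 hW h c) hI)
      (l ∘ₗ (W.pull F).toLinearMap ∘ₗ cls (hst0 hW h c) Q)
      (μ ∘ₗ (W.pull F).toLinearMap ∘ₗ cls (hst0 hW h c) Q)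
      (fun u hu => hN _ (pull_n (hst0 hW h c) F hQ (nt_cls (hst0 hW h c) hu)))
      _ (nt_nt (hst0 hW h c) ht)
    have h2 : l (W.pull F (cls (hst0 hW h c) Q (tc1 (hst0 hW h c) Q t))) = 0 := h1
    rwa [cls_of_dd (hst0 hW h c) ht.2.1] at h2
  intro x hx
  have hx' : x ∈ Submodule.span ℂ (NJ (hst0 hW h c) P j) := Submodule.subset_span hx
  rw [← n_span (hst0 hW h c) (fun _ => abT hW h) (fun _ => h.div) P j] at hx'
  have h3 : Submodule.span ℂ (VN (hst0 hW h c) P j) ≤ LinearMap.ker l :=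
    Submodule.span_le.2 hv
  exact h3 hx'

theorem half_aux (hI : EQ.Index W X g ξ) (P : Prd 1) (j : ℕ) (m : ℕ)
    (z : Fin m → W.coh (P.obj (hst0 hW h c).X)) (hz : ∀ i, z i ∈ NJ (hst0 hW h c) P j)
    (hs : ∀ x ∈ NJ (hst0 hW h c) P j, ∃ d : Fin m → ℚ, x = ∑ i, (d i : ℂ) • z i) :
    2 * Module.finrank ℂ (Submodule.span ℂ (Set.range z)) ≤ m := by
  have _ := hW.finite ((hst0 hW h c).memP P)
  let K : Submodule ℂ (W.coh (P.obj (hst0 hW h c).X)) := Submodule.span ℂ (Set.range z)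
  let zK : Fin m → K := fun i => ⟨z i, Submodule.subset_span ⟨i, rfl⟩⟩
  have hspan : Submodule.span ℂ (Set.range zK) = ⊤ := by
    rw [eq_top_iff]
    rintro ⟨x, hx⟩ -
    induction hx using Submodule.span_induction with
    | mem y hy =>
      obtain ⟨r, rfl⟩ := hy
      exact Submodule.subset_span ⟨r, rfl⟩
    | zero => exact zero_mem _
    | add a b ha0 hb0 ha hb => exact add_mem (ha) (hb)
    | smul c a ha0 ha => exact Submodule.smul_mem _ c ha
  have key : ∀ l μ : Module.Dual ℂ K, (∀ i, l (zK i) = starRingEnd ℂ (μ (zK i))) → l = 0 := by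
    intro l μ hlm
    obtain ⟨l', hl⟩ := LinearMap.exists_extend l
    obtain ⟨μ', hμ⟩ := LinearMap.exists_extend μ
    have hl1 : ∀ i, l' (z i) = l (zK i) := fun i => LinearMap.congr_fun hl (zK i)
    have hμ1 : ∀ i, μ' (z i) = μ (zK i) := fun i => LinearMap.congr_fun hμ (zK i)
    have hN : ∀ x ∈ NJ (hst0 hW h c) P j, l' x = starRingEnd ℂ (μ' x) := by
      intro u hu
      obtain ⟨d, rfl⟩ := hs u hu
      rw [map_sum, map_sum, map_sum]
      refine Finset.sum_congr rfl fun i _ => ?_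
      rw [map_smul, map_smul, smul_eq_mul, smul_eq_mul, map_mul, hl1, hμ1, hlm i]
      congr 1
      exact (Complex.conj_eq_iff_real.2 ⟨(d i : ℝ), by push_cast; rfl⟩).symm
    have h0 := fun_zero hW h c hI P j l' μ' hN
    exact LinearMap.ext_on hspan (by
      rintro _ ⟨r, rfl⟩
      rw [← hl1, h0 _ (hz r), LinearMap.zero_apply])
  refine E.Inj.half_count zK fun l μ hlm => ⟨key l μ hlm, key μ l fun i => ?_⟩
  rw [hlm i, Complex.conj_conj]

include hW h in
/-- **The half law for abelian varieties.** -/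
theorem half_dim (hI : EQ.Index W X g ξ) (P : Prd 1) (j : ℕ) :
    EQ.HalfDim W (EQ.NSet W (EQ.pw X P) j) := by
  intro m z hz hs
  obtain ⟨c⟩ := exists_core0 hW h
  exact half_aux hW h c hI P j m z (fun i => (nj_iff (hst0 hW h c)).2 (hz i))
    fun x hx => hs x ((nj_iff (hst0 hW h c)).1 hx)

end hyp

end RotN

end Pool.Agent.Lib.MP_361a6f_ag.FL
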