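import Pool.Agent.Lib.MP_361a6f_ag.FL.E.DC.StatSim
import Pool.Agent.Lib.MP_361a6f_ag.H3.Frob
import Pool.Agent.Lib.MP_361a6f_ag.PP.Ops

/-!
# Simple spectrum: the stable subspaces are images of central idempotents
-/

open CategoryTheory AlgebraicGeometry MonoidalCategory CartesianMonoidalCategory Polynomial

universe u w

set_option autoImplicit false
set_option linter.unusedSectionVars false

namespace Pool.Agent.Lib.MP_361a6f_ag.FL.E.Sim

open Pool.Agent.Lib.MP_361a6f_ag.H3 Pool.Agent.Lib.MP_361a6f_ag.SQ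
  Pool.Agent.Lib.MP_361a6f_ag.PP

noncomputable section

variable {k : Type u} [Field k] {W : CohomologyData.{u, 0, w} k ℂ} {𝒱 : VarietyClass k}
  (hW : IsWeilCohomology W 𝒱) {X : Sch k} {n : ℕ} (hX : 𝒱.mem X n)

/-- the class whose operator is the pull-back along an endomorphism -/
def gf (W : CohomologyData.{u, 0, w} k ℂ) {X : Sch k} (f : X ⟶ X) : W.coh (X ⊗ X) :=
  W.push (lift f (𝟙 X)) (1 : W.coh X)

include hW hX

theorem gf_alg (f : X ⟶ X) : gf W f ∈ W.alg (X ⊗ X) n :=
  hW.push_alg hX (𝒱.prod hX hX) _ (hW.one_alg hX) (by omega)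

theorem act_gf (f : X ⟶ X) (x : W.coh X) : EQ.act W (gf W f) x = W.pull f x := by
  have hXX := 𝒱.prod hX hX
  have h1 : gf W f ∈ tot W (X ⊗ X) := tot_push hW hX hXX _ (one_tot hW hX)
  have h2 : (W.pull f).toLinearMap = cor W (gf W f) := by
    refine AlgCor.of_bil hW hX hX h1 fun s t => ?_
    rw [bilC, ← tot_comm hW hXX h1, gf, hW.push_adj hX hXX, map_mul (W.pull _), ← W.pull_comp,
      ← W.pull_comp, lift_fst, lift_snd, W.pull_id, one_mul, AlgHom.toLinearMap_apply]
  exact (LinearMap.congr_fun h2 x).symm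

theorem pull_iter (F : X ⟶ X) (c : ℕ) (x : W.coh X) :
    W.pull (iterHom F c) x = ((W.pull F).toLinearMap ^ c) x := by
  induction c generalizing x with
  | zero => exact W.pull_id x
  | succ c ih =>
    change W.pull (iterHom F c ≫ F) x = _
    rw [W.pull_comp, ih, pow_succ]
    rfl

/-- the polynomials in `F^*` are complex combinations of algebraic correspondences -/
theorem exists_poly (F : X ⟶ X) (p : ℂ[X]) :
    ∃ e ∈ Submodule.span ℂ {z | W.IsAlg (X.prod X) n z}, ∀ x,
      EQ.act W e x = (aeval (W.pull F).toLinearMap p : Module.End ℂ (W.coh X)) x := by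
  refine ⟨∑ c ∈ Finset.range (p.natDegree + 1), p.coeff c • gf W (iterHom F c),
    Submodule.sum_mem _ fun c _ => Submodule.smul_mem _ _ (Submodule.subset_span
      (gf_alg hW hX _)), fun x => ?_⟩
  have h1 : ∀ (s : Finset ℕ) (g : ℕ → W.coh (X ⊗ X)),
      EQ.act W (∑ c ∈ s, p.coeff c • g c) x = ∑ c ∈ s, p.coeff c • EQ.act W (g c) x := by
    intro s g
    change W.push _ (W.pull _ x * ∑ c ∈ s, p.coeff c • g c) =
      ∑ c ∈ s, p.coeff c • W.push _ (W.pull _ x * g c)
    rw [Finset.mul_sum, map_sum]
    refine Finset.sum_congr rfl fun c _ => ?_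
    rw [mul_smul_comm, map_smul]
  rw [h1, aeval_eq_sum_range, LinearMap.sum_apply]
  refine Finset.sum_congr rfl fun c _ => ?_
  rw [act_gf hW hX, pull_iter hW hX, LinearMap.smul_apply]

/-- **Simple spectrum.** Every stable subspace of `H^1(X)` is the image of a central idempotent. -/
theorem isotypic (hS : EQ.Distinct W X n) : EQ.Isotypic W X n := by
  classical
  obtain ⟨F, m, v, a, ha, hv, hspan, hcom⟩ := hS
  set φ : Module.End ℂ (W.coh X) := (W.pull F).toLinearMap with hφ
  have hφv : ∀ i, φ (v i) = a i • v i := hv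
  have hφd : ∀ x ∈ W.gr X 1, φ x ∈ W.gr X 1 := fun x hx => hW.pull_gr hX hX F hx
  intro U hU
  -- polynomials in `φ` on eigenvectors
  have hpv : ∀ (p : ℂ[X]) i, aeval φ p (v i) = p.eval (a i) • v i := by
    intro p i
    induction p using Polynomial.induction_on' with
    | add p q hp hq => rw [map_add, LinearMap.add_apply, hp, hq, eval_add, add_smul]
    | monomial c r =>
      rw [aeval_monomial, Module.End.mul_apply, eval_monomial]
      have h1 : ∀ c : ℕ, (φ ^ c) (v i) = a i ^ c • v i := by
        intro c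
        induction c with
        | zero => rw [pow_zero, pow_zero, one_smul]; rfl
        | succ c ih =>
          rw [pow_succ, Module.End.mul_apply, hφv, map_smul, ih, smul_smul, pow_succ, mul_comm]
      rw [h1]
      change algebraMap ℂ (Module.End ℂ (W.coh X)) r (a i ^ c • v i) = _
      rw [Module.algebraMap_end_apply, smul_smul]
  -- the subspace is stable under polynomials in `φ`
  have hU1 : ∀ x ∈ U, φ x ∈ U := fun x hx => by
    have h1 := hU.act (gf W F) (gf_alg hW hX F) x hx
    rw [act_gf hW hX] at h1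
    exact h1
  have hmono : ∀ (c : ℕ) (r : ℂ) (x : W.coh X),
      aeval φ (monomial c r) x = r • (φ ^ c) x := by
    intro c r x
    rw [aeval_monomial, Module.End.mul_apply, Module.algebraMap_end_apply]
  have hUφ : ∀ p : ℂ[X], ∀ x ∈ U, aeval φ p x ∈ U := by
    intro p x hx
    induction p using Polynomial.induction_on' with
    | add p q hp hq =>
      rw [map_add, LinearMap.add_apply]
      exact add_mem hp hq
    | monomial c r =>
      rw [hmono]
      refine Submodule.smul_mem _ _ ?_
      induction c with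
      | zero => rw [pow_zero]; exact hx
      | succ c ih =>
        rw [pow_succ', Module.End.mul_apply]
        exact hU1 _ ih
  -- commutation with the correspondences
  have hcp : ∀ z, W.IsAlg (X.prod X) n z → ∀ p : ℂ[X], ∀ x ∈ W.gr X 1,
      aeval φ p (EQ.act W z x) = EQ.act W z (aeval φ p x) := by
    intro z hz p x hx
    have hadd : ∀ x y : W.coh X, EQ.act W z (x + y) = EQ.act W z x + EQ.act W z y := by
      intro x y
      change W.push _ (W.pull _ (x + y) * z) = W.push _ (W.pull _ x * z) +
        W.push _ (W.pull _ y * z)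
      rw [map_add, add_mul, map_add]
    have hsm : ∀ (c : ℂ) (x : W.coh X), EQ.act W z (c • x) = c • EQ.act W z x := by
      intro c x
      change W.push _ (W.pull _ (c • x) * z) = c • W.push _ (W.pull _ x * z)
      rw [map_smul, smul_mul_assoc, map_smul]
    have hpow : ∀ c : ℕ, (φ ^ c) x ∈ W.gr X 1 ∧
        (φ ^ c) (EQ.act W z x) = EQ.act W z ((φ ^ c) x) := by
      intro c
      induction c with
      | zero => exact ⟨hx, rfl⟩
      | succ c ih =>
        rw [pow_succ', Module.End.mul_apply, Module.End.mul_apply, ih.2]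
        exact ⟨hφd _ ih.1, hcom z hz _ ih.1⟩
    induction p using Polynomial.induction_on' with
    | add p q hp hq => rw [map_add, LinearMap.add_apply, LinearMap.add_apply, hp, hq, hadd]
    | monomial c r => rw [hmono, hmono, (hpow c).2, hsm]
  -- the idempotent
  let S : Finset (Fin m) := Finset.univ.filter fun i => v i ∈ U
  let b : Fin m → ℂ[X] := fun i => Lagrange.basis Finset.univ a i
  have hb : ∀ i j, (b i).eval (a j) = if i = j then 1 else 0 := by
    intro i j
    by_cases h : i = j
    · subst h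
      rw [if_pos rfl]
      exact Lagrange.eval_basis_self ha.injOn (Finset.mem_univ i)
    · rw [if_neg h]
      exact Lagrange.eval_basis_of_ne h (Finset.mem_univ j)
  have ext1 : ∀ f h : Module.End ℂ (W.coh X), (∀ i, f (v i) = h (v i)) →
      ∀ x ∈ W.gr X 1, f x = h x := by
    intro f h hfh x hx
    rw [← hspan] at hx
    have h1 : Submodule.span ℂ (Set.range v) ≤ LinearMap.ker (f - h) := by
      refine Submodule.span_le.2 ?_
      rintro _ ⟨i, rfl⟩
      rw [SetLike.mem_coe, LinearMap.mem_ker, LinearMap.sub_apply, hfh, sub_self]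
    have h2 := LinearMap.mem_ker.1 (h1 hx)
    rw [LinearMap.sub_apply] at h2
    exact sub_eq_zero.1 h2
  let P : ℂ[X] := ∑ i ∈ S, b i
  have hP : ∀ j, P.eval (a j) = if j ∈ S then 1 else 0 := by
    intro j
    change (∑ i ∈ S, b i).eval (a j) = _
    rw [eval_finsetSum, Finset.sum_congr rfl fun i _ => hb i j, Finset.sum_ite_eq']
  have hPU : ∀ x ∈ W.gr X 1, aeval φ P x ∈ U := by
    intro x hx
    rw [← hspan] at hx
    have h1 : Submodule.span ℂ (Set.range v) ≤ U.comap (aeval φ P : Module.End ℂ (W.coh X)) := by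
      refine Submodule.span_le.2 ?_
      rintro _ ⟨i, rfl⟩
      change aeval φ P (v i) ∈ U
      rw [hpv, hP]
      by_cases hi : i ∈ S
      · rw [if_pos hi, one_smul]
        exact (Finset.mem_filter.1 hi).2
      · rw [if_neg hi, zero_smul]
        exact zero_mem U
    exact h1 hx
  have hbU : ∀ i, i ∉ S → ∀ x ∈ U, aeval φ (b i) x = 0 := by
    intro i hi x hx
    have hx1 : x ∈ Submodule.span ℂ (Set.range v) := by rw [hspan]; exact hU.le hx
    have h1 : Submodule.span ℂ (Set.range v) ≤
        (Submodule.span ℂ {v i}).comap (aeval φ (b i) : Module.End ℂ (W.coh X)) := by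
      refine Submodule.span_le.2 ?_
      rintro _ ⟨j, rfl⟩
      change aeval φ (b i) (v j) ∈ Submodule.span ℂ {v i}
      rw [hpv, hb]
      by_cases hij : i = j
      · subst hij
        rw [if_pos rfl, one_smul]
        exact Submodule.mem_span_singleton_self _
      · rw [if_neg hij, zero_smul]
        exact zero_mem _
    obtain ⟨c, hc⟩ := Submodule.mem_span_singleton.1 (h1 hx1)
    change aeval φ (b i) x = 0
    have hc' : c • v i = aeval φ (b i) x := hc
    rw [← hc']
    by_contra hne
    have hc0 : c ≠ 0 := fun h => hne (by rw [h, zero_smul])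
    apply hi
    refine Finset.mem_filter.2 ⟨Finset.mem_univ i, ?_⟩
    have h2 : c⁻¹ • (c • v i) ∈ U := Submodule.smul_mem _ _ (by rw [hc']; exact hUφ _ x hx)
    rwa [smul_smul, inv_mul_cancel₀ hc0, one_smul] at h2
  have hPx : ∀ x ∈ U, aeval φ P x = x := by
    intro x hx
    have h1 : aeval φ (∑ i, b i) x = x := by
      refine (ext1 (aeval φ (∑ i, b i)) 1 (fun j => ?_) x (hU.le hx)).trans rfl
      rw [hpv, eval_finsetSum, Finset.sum_congr rfl fun i _ => hb i j, Finset.sum_ite_eq',
        if_pos (Finset.mem_univ j), one_smul]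
      rfl
    have h2 : aeval φ (∑ i, b i) x = aeval φ P x := by
      change _ = aeval φ (∑ i ∈ S, b i) x
      rw [map_sum, map_sum, LinearMap.sum_apply, LinearMap.sum_apply]
      refine (Finset.sum_subset (Finset.subset_univ S) fun i _ hi => hbU i hi x hx).symm
    rw [← h2, h1]
  obtain ⟨e, he, hex⟩ := exists_poly hW hX F P
  refine ⟨e, he, fun x hx => ?_, fun z hz x hx => ?_, fun y => ⟨fun hy => ⟨y, hU.le hy, ?_⟩, ?_⟩⟩
  · rw [hex x]
    rw [hex, hPx _ (hPU x hx)]
  · rw [hex, hex, hcp z hz P x hx]
  · rw [hex, hPx y hy]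
  · rintro ⟨x, hx, rfl⟩
    rw [hex]
    exact hPU x hx

end

end Pool.Agent.Lib.MP_361a6f_ag.FL.E.Sim
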