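import Pool.Agent.Lib.MP_361a6f_ag.FL.E.DC.StatI4
import Pool.Agent.Lib.MP_361a6f_ag.FL.E.DC.Sim
import Pool.Agent.Lib.MP_361a6f_ag.FL.K0.Geo
import Pool.Agent.Lib.MP_361a6f_ag.H3.Dec

/-!
# A Frobenius endomorphism with distinct eigenvalues: the hypotheses are theorems
-/

open CategoryTheory AlgebraicGeometry MonoidalCategory CartesianMonoidalCategory

universe u w

set_option autoImplicit false
set_option linter.unusedSectionVars false

namespace Pool.Agent.Lib.MP_361a6f_ag.FL.E.SimF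

open Pool.Agent.Lib.MP_361a6f_ag.H3 Pool.Agent.Lib.MP_361a6f_ag.SQ
  Pool.Agent.Lib.MP_361a6f_ag.PP

section comm

variable {k : Type u} [Field k] {W : CohomologyData.{u, 0, w} k ℂ} {𝒱 : VarietyClass k}
  (hW : IsWeilCohomology W 𝒱) {X : Sch k} {n : ℕ} (hX : 𝒱.mem X n)

include hW hX

theorem tr_prod {F : X ⟶ X} {c : ℂ} (hdeg : ∀ x : W.coh X, W.tr X (W.pull F x) = c * W.tr X x)
    (y : W.coh (X ⊗ X)) : W.tr (X ⊗ X) (W.pull (F ⊗ₘ F) y) = c * c * W.tr (X ⊗ X) y := by
  have hy : y ∈ tens W (⊤ : Submodule ℂ (W.coh X)) (⊤ : Submodule ℂ (W.coh X)) := by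
    rw [tens_top hW hX hX]; trivial
  refine Submodule.span_induction (p := fun y _ =>
    W.tr (X ⊗ X) (W.pull (F ⊗ₘ F) y) = c * c * W.tr (X ⊗ X) y) ?_ ?_ ?_ ?_ hy
  · rintro _ ⟨a, _, b, _, rfl⟩
    rw [pull_tensorHom, hW.kunneth_tr hX hX, hW.kunneth_tr hX hX, hdeg, hdeg]
    ring
  · rw [map_zero, map_zero, mul_zero]
  · intro p r _ _ hp hr
    rw [map_add, map_add, hp, hr, map_add, mul_add]
  · intro d p _ hp
    rw [map_smul, map_smul, hp, map_smul, smul_eq_mul, smul_eq_mul]
    ring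

/-- the pull-back along an endomorphism of positive degree is bijective -/
theorem pull_surj {F : X ⟶ X} {c : ℂ} (hc : c ≠ 0)
    (hdeg : ∀ x : W.coh X, W.tr X (W.pull F x) = c * W.tr X x) :
    Function.Surjective (W.pull F) := by
  have hfin : Module.Finite ℂ (W.coh X) := hW.finite hX
  have hinj : Function.Injective (W.pull F).toLinearMap := by
    rw [← LinearMap.ker_eq_bot, LinearMap.ker_eq_bot']
    intro x hx
    have hx' : W.pull F x = 0 := hx
    refine hW.poincare.duality hX x fun y => ?_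
    have h1 := hdeg (x * y)
    rw [map_mul, hx', zero_mul, map_zero] at h1
    exact (mul_eq_zero.1 h1.symm).resolve_left hc
  exact LinearMap.injective_iff_surjective.1 hinj

/-- a class on `X × X` that is multiplied by the degree commutes with the pull-back -/
theorem comm_of_frob {F : X ⟶ X} {c : ℂ} (hc : c ≠ 0)
    (hdeg : ∀ x : W.coh X, W.tr X (W.pull F x) = c * W.tr X x) {z : W.coh (X ⊗ X)}
    (hz : W.pull (F ⊗ₘ F) z = c • z) (x : W.coh X) :
    W.pull F (EQ.act W z x) = EQ.act W z (W.pull F x) := by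
  have hXX := 𝒱.prod hX hX
  rw [← sub_eq_zero]
  refine hW.poincare.duality hX _ fun y => ?_
  obtain ⟨y, rfl⟩ := pull_surj hW hX hc hdeg y
  change W.tr X ((W.pull F (EQ.act W z x) - EQ.act W z (W.pull F x)) * W.pull F y) = 0
  rw [sub_mul, map_sub, ← map_mul, hdeg]
  have h1 : W.tr X (EQ.act W z x * y) =
      W.tr (X ⊗ X) (W.pull (fst X X) x * z * W.pull (snd X X) y) := hW.push_adj hXX hX _ _ _
  have h2 : W.tr X (EQ.act W z (W.pull F x) * W.pull F y) =
      W.tr (X ⊗ X) (W.pull (fst X X) (W.pull F x) * z * W.pull (snd X X) (W.pull F y)) :=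
    hW.push_adj hXX hX _ _ _
  have h3 := tr_prod hW hX hdeg (W.pull (fst X X) x * z * W.pull (snd X X) y)
  have h4 : W.pull (F ⊗ₘ F) (W.pull (fst X X) x * z * W.pull (snd X X) y) =
      c • (W.pull (fst X X) (W.pull F x) * z * W.pull (snd X X) (W.pull F y)) := by
    rw [map_mul, map_mul, hz, ← W.pull_comp, ← W.pull_comp, ← W.pull_comp, ← W.pull_comp,
      tensorHom_fst, tensorHom_snd, mul_smul_comm, smul_mul_assoc]
  rw [h4, map_smul, smul_eq_mul, mul_assoc c c] at h3
  have h5 := mul_left_cancel₀ hc h3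
  rw [h1, h2, h5, sub_self]

end comm

open Pool.Agent.Lib.MP_361a6f_ag.FL.E Pool.Agent.Lib.MP_361a6f_ag.FL.K0

section fin

variable {k : Type u} [Field k] {W : CohomologyData.{u, 0, w} k ℂ} {𝒱 : VarietyClass k}
  (hW : IsWeilCohomology W 𝒱) {X : Sch k} {n : ℕ}

/-- the identity is a specialisation -/
theorem spec_id : EQ.IsSpec W X W X fun _ x => x where
  tensor :=
    { ext := fun _ _ _ _ => rfl
      add := fun _ _ _ => rfl
      scal := fun _ _ _ => rfl }
  bij := Function.bijective_id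
  cup := fun _ _ => rfl
  deg := fun _ _ h => h
  tr := fun _ => rfl
  alg := fun _ _ _ h => h

include hW

/-- **Frobenius with distinct eigenvalues.** The Hodge index theorem holds for `X × X` and the
stable subspaces of `H^1(X)` are the images of central idempotents. -/
theorem of_frob {ξ : W.coh X} (hX : 𝒱.mem X n) (hc : ∀ x, W.Deg X 0 x → ∃ c, x = W.scal c 1)
    (hu : EQ.Unital X) (hd : PositiveDivisor W X n ξ) (hf : EQ.Frob W X n) :
    EQ.Index W X n ξ ∧ EQ.Isotypic W X n := by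
  obtain ⟨F, q, a, hq, hfr, ha, hev⟩ := hf
  have hA : AbelianType W X n := abelianType_of_unital hW hX hc hu hd
  have hun := unital hW hX hc hu hd
  obtain ⟨c⟩ := Hst.exists_core hW hX hd.1 hun.1 hun.2.1
  have hqq : (((q : ℚ) : ℂ)) = (q : ℂ) := by norm_cast
  have hξ : W.pull F ξ = (((q : ℚ) : ℂ)) • ξ := by
    have h1 := hfr (.leaf 0) 1 ξ hd.1
    rw [pow_one] at h1
    rw [hqq]
    exact h1
  have hS : EQ.SimpleSpectrum W n q F := ⟨a, ha, hev⟩
  refine ⟨K0.index (c.host hW hX hd.1) (spcOf spec_id ξ) hW hX F hq hc hd hξ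
    (fun P l z hz => by rw [hqq]; exact hfr P l z hz) hA hS, ?_⟩
  -- distinct eigenvalues
  choose hn x hx hx0 hFx using hev
  set T : Module.End ℂ (W.coh X) := (W.pull F).toLinearMap with hT
  have hfin : Module.Finite ℂ (W.coh X) := hW.finite hX
  have hTx : ∀ i, T (x i) = a i • x i := hFx
  have hli : LinearIndependent ℂ x := by
    refine Module.End.eigenvectors_linearIndependent' T a ha x fun i => ?_
    rw [Module.End.hasEigenvector_iff, Module.End.mem_eigenspace_iff]
    exact ⟨hTx i, hx0 i⟩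
  have hspan : Submodule.span ℂ (Set.range x) = W.gr X 1 := by
    have h1 : Submodule.span ℂ (Set.range x) ≤ W.gr X 1 := by
      rw [Submodule.span_le]
      rintro _ ⟨i, rfl⟩
      exact hx i
    refine Submodule.eq_of_le_of_finrank_eq h1 ?_
    rw [finrank_span_eq_card hli, Fintype.card_fin, hA.rank]
  -- the degree
  have ht : W.tr X (ξ ^ n) ≠ 0 := by
    obtain ⟨r, hr, h⟩ := hd.2
    have h' : W.tr X (ξ ^ n) = (r : ℂ) := h
    rw [h']
    exact_mod_cast hr.ne'
  have hdeg : ∀ y : W.coh X, W.tr X (W.pull F y) = (q : ℂ) ^ n * W.tr X y := fun y =>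
    tr_of_pol hW hX hc (hW.alg_gr hX hd.1) ht (φ := (W.pull F).toLinearMap)
      (map_one (W.pull F)) (map_mul (W.pull F)) (fun i y hy => hW.graded.pull hX hX F hy)
      (by rw [← hqq]; exact hξ) y
  have hq0 : (q : ℂ) ^ n ≠ 0 := pow_ne_zero _ (by exact_mod_cast hq.ne')
  refine Sim.isotypic hW hX ⟨F, 2 * n, x, a, ha, hFx, hspan, fun z hz y _ => ?_⟩
  exact comm_of_frob hW hX hq0 hdeg (hfr (.prod (.leaf 0) (.leaf 0)) n z hz) y

end fin

end Pool.Agent.Lib.MP_361a6f_ag.FL.E.SimF
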