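import Pool.Agent.Lib.MP_361a6f_ag.FL.E.AsmU
import Pool.Agent.Lib.MP_361a6f_ag.FL.BAL.UFm
import Pool.Agent.Lib.MP_361a6f_ag.FL.E.DC.SimF
import Pool.Agent.Lib.MP_361a6f_ag.FL.E.DC.HalfG

/-!
# The half law for numerically trivial classes on abelian varieties
-/

open CategoryTheory AlgebraicGeometry MonoidalCategory CartesianMonoidalCategory

universe u v w w'

set_option autoImplicit false

namespace Pool.Agent.Lib.MP_361a6f_ag.FL

open Pool.Agent.Lib.MP_361a6f_ag.H3 Pool.Agent.Lib.MP_361a6f_ag.SQ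
  Pool.Agent.Lib.MP_361a6f_ag.PP

namespace SpecI

variable {k : Type u} [Field k] {W : CohomologyData.{u, 0, w} k ℂ} {𝒱 : VarietyClass k}
  (hW : IsWeilCohomology W 𝒱) {X : Sch k} {g : ℕ}
  (hX : 𝒱.mem X g)
  {k' : Type v} [Field k'] {W' : CohomologyData.{v, 0, w'} k' ℂ} {𝒱' : VarietyClass k'}
  (hW' : IsWeilCohomology W' 𝒱') {X' : Sch k'} (hX' : 𝒱'.mem X' g)
  {s : ∀ P : Prd 1, W.coh (EQ.pw X P) → W'.coh (EQ.pw X' P)} (hs : EQ.IsSpec W X W' X' s)

include hW hX hW' hX' hs in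
/-- a specialisation is injective on all powers -/
theorem spec_inj (P : Prd 1) {x : W.coh (EQ.pw X P)} (h0 : s P x = 0) : x = 0 := by
  refine hW.duality (FL.memP (X := fun _ => X) (n := fun _ => g) (fun _ => hX) P) _ fun y => ?_
  rw [← E.RatU.spec_tr hW hW' hX hX' hs P x y, h0, zero_mul, map_zero]

include hW hX hW' hX' hs in
/-- numerical equivalence is homological equivalence on `X'^P`: no class on `X^P` dies -/
theorem survive_of_rat {P : Prd 1} {j : ℕ} (h : EQ.NumHomQ W' (EQ.pw X' P) j) :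
    EQ.Survive W X W' X' s P j :=
  fun z hz h0 => spec_inj hW hX hW' hX' hs P (h _ (hs.alg P j z hz) h0)

include hW in
theorem hyp {ξ : W.coh X} (h : EQ.HypX W 𝒱 X g ξ) (hc : EQ.Central W X g ξ ∨ EQ.Frob W X g) :
    EQ.Hyp0 W 𝒱 X g ξ ∧ EQ.Index W X g ξ := by
  obtain ⟨hI, ht⟩ : EQ.Index W X g ξ ∧ EQ.Isotypic W X g :=
    hc.elim id fun hf => E.SimF.of_frob hW h.mem h.conn h.unital h.div hf
  exact ⟨⟨h.mem, h.conn, h.unital, h.div, ht⟩, hI⟩

end SpecI

/-- **The half law, and numerical equivalence on an abelian variety and on its reductions.** -/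
theorem thmHalf : ThmHalf.{u, v, w, w'} := by
  intro k _ W 𝒱 hW X g ξ h
  refine ⟨fun hc => ?_, ?_⟩
  · obtain ⟨h0, hI⟩ := SpecI.hyp hW h hc
    exact ⟨RotN.half_dim hW h0 hI, fun j =>
      ⟨⟨fun h1 P _ z hz h2 => h1 P z (Submodule.subset_span hz) h2, fun h2 =>
        (AsmU.clauseI hW h0 hI j).2 fun P hP => AsmU.indep_iff.2
          (E.RatU.indep_of_num hW (AsmU.memP h0 P) (h2 P hP))⟩, AsmU.clauseI hW h0 hI j⟩⟩
  · intro k' _ W' 𝒱' hW' X' hX' s hs j
    have key : EQ.Central W X g ξ ∨ EQ.Frob W X g → ((∀ P, EQ.NumHomIn W (EQ.pw X P) j) ↔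
        ∀ P : Prd 1, P.size = 2 * j → EQ.Survive W X W' X' s P j) := by
      intro hc
      obtain ⟨h0, hI⟩ := SpecI.hyp hW h hc
      exact AsmU.clauseS hW h0 hI hW' hX' hs j
    refine ⟨fun hc h1 => ?_, key⟩
    have h2 : ∀ P : Prd 1, P.size = 2 * j → EQ.Survive W X W' X' s P j := fun P hP =>
      SpecI.survive_of_rat hW h.mem hW' hX' hs (h1 P hP)
    rcases hc with hc | hc | hc
    · exact (key (Or.inl hc)).2 h2
    · exact (key (Or.inr hc)).2 h2
    · exact fun P => E.UF.num_of_red hW h.mem h.conn h.unital h.div hW' hX' hs hc j h1 P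

end Pool.Agent.Lib.MP_361a6f_ag.FL
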