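import Pool.Agent.Lib.MP_361a6f_ag.FL.E.DC.VB

/-!
# Numerically trivial classes in stable rational spaces
-/

open CategoryTheory AlgebraicGeometry MonoidalCategory CartesianMonoidalCategory Polynomial

universe u w

set_option autoImplicit false
set_option linter.unusedSectionVars false

namespace Pool.Agent.Lib.MP_361a6f_ag.FL.E.VW

open Pool.Agent.Lib.MP_361a6f_ag.H3 Pool.Agent.Lib.MP_361a6f_ag.SQ
  Pool.Agent.Lib.MP_361a6f_ag.PP D4 VL

noncomputable section

/-- the dimension count -/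
theorem half_abs {V : Type*} [AddCommGroup V] [Module ℂ V] [FiniteDimensional ℂ V] {m : ℕ}
    (z : Fin m → V) (h : ∀ l μ : Module.Dual ℂ V, (∀ i, l (z i) = starRingEnd ℂ (μ (z i))) →
      l = 0 ∧ μ = 0) : 2 * Module.finrank ℂ V ≤ m := by
  let b := Module.finBasis ℂ (Module.Dual ℂ V)
  let n := Module.finrank ℂ (Module.Dual ℂ V)
  have hn : n = Module.finrank ℂ V := Subspace.dual_finrank_eq
  let f : Fin n ⊕ Fin n → Fin m → ℂ :=
    Sum.elim (fun k i => b k (z i)) (fun k i => starRingEnd ℂ (b k (z i)))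
  have hf : LinearIndependent ℂ f := by
    rw [Fintype.linearIndependent_iff]
    intro g hg
    have h1 : ∀ i, (∑ k, g (Sum.inl k) • b k) (z i) =
        starRingEnd ℂ ((∑ k, (-starRingEnd ℂ (g (Sum.inr k))) • b k) (z i)) := by
      intro i
      have h2 := congrFun hg i
      rw [Finset.sum_apply, Fintype.sum_sum_type] at h2
      rw [LinearMap.sum_apply, LinearMap.sum_apply, map_sum]
      have h3 : ∀ k, starRingEnd ℂ (((-starRingEnd ℂ (g (Sum.inr k))) • b k) (z i)) =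
          -(g (Sum.inr k) * starRingEnd ℂ (b k (z i))) := by
        intro k
        rw [LinearMap.smul_apply, smul_eq_mul, map_mul, map_neg, Complex.conj_conj, neg_mul]
      rw [Finset.sum_congr rfl fun k _ => h3 k, Finset.sum_neg_distrib]
      exact eq_neg_of_add_eq_zero_left h2
    obtain ⟨h4, h5⟩ := h _ _ h1
    have h6 := Fintype.linearIndependent_iff.1 b.linearIndependent _ h4
    have h7 := Fintype.linearIndependent_iff.1 b.linearIndependent _ h5
    rintro (k | k)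
    · exact h6 k
    · have h8 := h7 k
      rw [neg_eq_zero] at h8
      have h9 := congrArg (starRingEnd ℂ) h8
      rwa [Complex.conj_conj, map_zero] at h9
  have h10 := hf.fintype_card_le_finrank
  rw [Fintype.card_sum, Fintype.card_fin, Module.finrank_fin_fun] at h10
  omega

/-! ### Stable rational spaces -/

section stable

variable {k : Type u} [Field k] {W : CohomologyData.{u, 0, w} k ℂ} {𝒱 : VarietyClass k}
  {X : Sch k}

/-- products of iterates of `F` -/
def FP (F : X ⟶ X) : (P : Prd 1) → (EQ.pw X P ⟶ EQ.pw X P) → Prop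
  | .leaf _, G => ∃ r, G = iterHom F r
  | .prod P Q, G => ∃ G₁ G₂, FP F P G₁ ∧ FP F Q G₂ ∧ G = G₁ ⊗ₘ G₂

/-- stability under `F` on each factor implies stability under the products of iterates -/
theorem stab_ctx {F : X ⟶ X} {Y : Sch k} (M : Set (W.coh Y)) : ∀ (P : Prd 1)
    (C : (EQ.pw X P ⟶ EQ.pw X P) → (Y ⟶ Y)) (_ : C (𝟙 _) = 𝟙 _)
    (_ : ∀ G G', C (G ≫ G') = C G ≫ C G')
    (_ : ∀ G, EQ.OneFactor F P G → ∀ x ∈ M, W.pull (C G) x ∈ M),
    ∀ G, FP F P G → ∀ x ∈ M, W.pull (C G) x ∈ M := by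
  intro P
  induction P with
  | leaf a =>
    rintro C hid hcomp h _ ⟨r, rfl⟩
    induction r with
    | zero =>
      intro x hx
      have e : C (iterHom F 0) = 𝟙 Y := hid
      exact Set.mem_of_eq_of_mem ((congrArg (fun g => W.pull g x) e).trans (W.pull_id x)) hx
    | succ r ih =>
      intro x hx
      have e : C (iterHom F (r + 1)) = C (iterHom F r) ≫ C F := hcomp (iterHom F r) F
      exact Set.mem_of_eq_of_mem ((congrArg (fun g => W.pull g x) e).trans (W.pull_comp _ _ x))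
        (ih _ (h F rfl x hx))
  | prod P Q hP hQ =>
    rintro C hid hcomp h _ ⟨G₁, G₂, h1, h2, rfl⟩ x hx
    have e : G₁ ⊗ₘ G₂ = (G₁ ⊗ₘ 𝟙 (EQ.pw X Q)) ≫ (𝟙 (EQ.pw X P) ⊗ₘ G₂) := by
      rw [MonoidalCategory.tensorHom_comp_tensorHom, Category.comp_id, Category.id_comp]
    have e2 : C (G₁ ⊗ₘ G₂) = C (G₁ ⊗ₘ 𝟙 (EQ.pw X Q)) ≫ C (𝟙 (EQ.pw X P) ⊗ₘ G₂) :=
      (congrArg C e).trans (hcomp (G₁ ⊗ₘ 𝟙 (EQ.pw X Q)) (𝟙 (EQ.pw X P) ⊗ₘ G₂))
    have e0 : C (𝟙 (EQ.pw X P) ⊗ₘ 𝟙 (EQ.pw X Q)) = 𝟙 Y :=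
      (congrArg C (MonoidalCategory.id_tensorHom_id (EQ.pw X P) (EQ.pw X Q))).trans hid
    have h4 : ∀ x ∈ M, W.pull (C (𝟙 (EQ.pw X P) ⊗ₘ G₂)) x ∈ M := by
      refine hQ (fun G => C (𝟙 (EQ.pw X P) ⊗ₘ G)) e0 ?_ ?_ G₂ h2
      · intro G G'
        have e3 : 𝟙 (EQ.pw X P) ⊗ₘ (G ≫ G') =
            (𝟙 (EQ.pw X P) ⊗ₘ G) ≫ (𝟙 (EQ.pw X P) ⊗ₘ G') := by
          rw [MonoidalCategory.tensorHom_comp_tensorHom, Category.comp_id]
        exact (congrArg C e3).trans (hcomp (𝟙 (EQ.pw X P) ⊗ₘ G) (𝟙 (EQ.pw X P) ⊗ₘ G'))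
      · intro G hG y hy
        exact h _ (Or.inr ⟨G, hG, rfl⟩) y hy
    have h5 : ∀ x ∈ M, W.pull (C (G₁ ⊗ₘ 𝟙 (EQ.pw X Q))) x ∈ M := by
      refine hP (fun G => C (G ⊗ₘ 𝟙 (EQ.pw X Q))) e0 ?_ ?_ G₁ h1
      · intro G G'
        have e3 : (G ≫ G') ⊗ₘ 𝟙 (EQ.pw X Q) =
            (G ⊗ₘ 𝟙 (EQ.pw X Q)) ≫ (G' ⊗ₘ 𝟙 (EQ.pw X Q)) := by
          rw [MonoidalCategory.tensorHom_comp_tensorHom, Category.comp_id]
        exact (congrArg C e3).trans (hcomp (G ⊗ₘ 𝟙 (EQ.pw X Q)) (G' ⊗ₘ 𝟙 (EQ.pw X Q)))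
      · intro G hG y hy
        exact h _ (Or.inl ⟨G, hG, rfl⟩) y hy
    exact Set.mem_of_eq_of_mem ((congrArg (fun g => W.pull g x) e2).trans (W.pull_comp _ _ x))
      (h5 _ (h4 x hx))

theorem stab_fp {F : X ⟶ X} {P : Prd 1} {j : ℕ} {M : Set (W.coh (EQ.pw X P))}
    (h : EQ.StableSpace W X F P j M) {G : EQ.pw X P ⟶ EQ.pw X P} (hG : FP F P G)
    {x : W.coh (EQ.pw X P)} (hx : x ∈ M) : W.pull G x ∈ M :=
  stab_ctx M P (fun G => G) rfl (fun _ _ => rfl) h.stab G hG x hx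

end stable

/-! ### Real combinations of pull-backs -/

section real

variable {k : Type u} [Field k] {W : CohomologyData.{u, 0, w} k ℂ} {𝒱 : VarietyClass k}

/-- `u` is a real combination of pull-backs along endomorphisms with the property `A` -/
def ROp (W : CohomologyData.{u, 0, w} k ℂ) (Y : Sch k) (A : (Y ⟶ Y) → Prop)
    (u : W.coh Y →ₗ[ℂ] W.coh Y) : Prop :=
  ∃ (I : Type) (_ : Fintype I) (c : I → ℝ) (G : I → (Y ⟶ Y)), (∀ i, A (G i)) ∧
    ∀ x, u x = ∑ i, (c i : ℂ) • W.pull (G i) x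

theorem rOp_ten (hW : IsWeilCohomology W 𝒱) {Y Z : Sch k} {m n : ℕ} (hY : 𝒱.mem Y m)
    (hZ : 𝒱.mem Z n) {A : (Y ⟶ Y) → Prop} {B : (Z ⟶ Z) → Prop}
    {u : W.coh Y →ₗ[ℂ] W.coh Y} {v : W.coh Z →ₗ[ℂ] W.coh Z}
    (hu : ROp W Y A u) (hv : ROp W Z B v) : ROp W (Y ⊗ Z)
      (fun G => ∃ G₁ G₂, A G₁ ∧ B G₂ ∧ G = G₁ ⊗ₘ G₂) (ten hW hY hZ u v) := by
  obtain ⟨I, _, c, G, hG, h⟩ := hu
  obtain ⟨J, _, c', G', hG', h'⟩ := hv
  refine ⟨I × J, inferInstance, fun p => c p.1 * c' p.2, fun p => G p.1 ⊗ₘ G' p.2,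
    fun p => ⟨_, _, hG _, hG' _, rfl⟩, fun x => ?_⟩
  let f : W.coh (Y ⊗ Z) →ₗ[ℂ] W.coh (Y ⊗ Z) :=
    ∑ p : I × J, ((c p.1 * c' p.2 : ℝ) : ℂ) • (W.pull (G p.1 ⊗ₘ G' p.2)).toLinearMap
  have hf : ∀ x, f x = ∑ p : I × J, ((c p.1 * c' p.2 : ℝ) : ℂ) • W.pull (G p.1 ⊗ₘ G' p.2) x := by
    intro x
    change (∑ p : I × J, ((c p.1 * c' p.2 : ℝ) : ℂ) • (W.pull (G p.1 ⊗ₘ G' p.2)).toLinearMap) x = _
    rw [LinearMap.sum_apply]
    rfl
  rw [← hf]
  have e : ten hW hY hZ u v = f := by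
    refine lin_ext hW hY hZ _ _ fun y z => ?_
    rw [ten_gen, hf, h, h', map_sum, map_sum, Finset.sum_mul_sum, ← Finset.sum_product']
    refine Finset.sum_congr rfl fun p _ => ?_
    rw [pull_tensorHom, map_smul, map_smul, smul_mul_assoc, mul_smul_comm, smul_smul]
    push_cast
    rfl
  rw [e]

/-- **Conjugation of eigenvectors of real operators.** -/
theorem conj_eigM {Y : Sch k} {A : (Y ⟶ Y) → Prop} {M : Set (W.coh Y)}
    (hA : E.RatU.ConjA M) (hM : ∀ G, A G → ∀ x ∈ M, W.pull G x ∈ M) {x : W.coh Y}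
    (hx : x ∈ Submodule.span ℂ M) (hx0 : x ≠ 0) : ∃ y ∈ Submodule.span ℂ M, y ≠ 0 ∧
      ∀ (u : W.coh Y →ₗ[ℂ] W.coh Y), ROp W Y A u → ∀ c : ℂ, u x = c • x →
        u y = starRingEnd ℂ c • y := by
  obtain ⟨n, a, z, rfl⟩ := Submodule.mem_span_set'.1 hx
  refine ⟨∑ i, starRingEnd ℂ (a i) • (z i : W.coh Y), ?_, ?_, ?_⟩
  · exact Submodule.sum_mem _ fun i _ => Submodule.smul_mem _ _ (Submodule.subset_span (z i).2)
  · intro h0
    apply hx0
    have h1 := hA n (fun i => starRingEnd ℂ (a i)) (fun i => (z i : W.coh Y)) (fun i => (z i).2) h0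
    rw [← h1]
    refine Finset.sum_congr rfl fun i _ => ?_
    rw [Complex.conj_conj]
  · rintro u ⟨I, _, b, G, hG, hu⟩ c hc
    have hsum : ∀ a' : Fin n → ℂ, u (∑ i, a' i • (z i : W.coh Y)) =
        ∑ p : I × Fin n, ((b p.1 : ℂ) * a' p.2) • W.pull (G p.1) (z p.2 : W.coh Y) := by
      intro a'
      rw [hu, ← Finset.univ_product_univ, Finset.sum_product]
      refine Finset.sum_congr rfl fun i _ => ?_
      rw [map_sum, Finset.smul_sum]
      refine Finset.sum_congr rfl fun r _ => ?_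
      rw [map_smul, smul_smul]
    rw [hsum] at hc ⊢
    have h1 := conj_fin hA (I := (I × Fin n) ⊕ Fin n)
      (Sum.elim (fun p => (b p.1 : ℂ) * a p.2) fun i => -(c * a i))
      (Sum.elim (fun p => W.pull (G p.1) (z p.2 : W.coh Y)) fun i => (z i : W.coh Y))
      (by
        rintro (p | i)
        · exact hM _ (hG _) _ (z p.2).2
        · exact (z i).2)
      (by
        rw [Fintype.sum_sum_type]
        simp only [Sum.elim_inl, Sum.elim_inr]
        rw [hc, Finset.smul_sum, ← Finset.sum_add_distrib]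
        refine Finset.sum_eq_zero fun i _ => ?_
        rw [neg_smul, mul_smul, add_neg_cancel])
    rw [Fintype.sum_sum_type] at h1
    simp only [Sum.elim_inl, Sum.elim_inr] at h1
    have h2 : ∑ i, starRingEnd ℂ (-(c * a i)) • (z i : W.coh Y) =
        -(starRingEnd ℂ c • ∑ i, starRingEnd ℂ (a i) • (z i : W.coh Y)) := by
      rw [Finset.smul_sum, ← Finset.sum_neg_distrib]
      refine Finset.sum_congr rfl fun i _ => ?_
      rw [map_neg, map_mul, neg_smul, mul_smul]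
    rw [h2, add_neg_eq_zero] at h1
    rw [← h1]
    refine Finset.sum_congr rfl fun p _ => ?_
    rw [map_mul, Complex.conj_ofReal]

end real

section main

variable {k : Type u} [Field k] {W : CohomologyData.{u, 0, w} k ℂ} {𝒱 : VarietyClass k}
  (hW : IsWeilCohomology W 𝒱) {X : Sch k} {d : ℕ} (hX : 𝒱.mem X d) {F : X ⟶ X} {q : ℕ}
  (hF : EQ.IsFr W X d F q)

include hW in
/-- pull-backs of numerically trivial classes are numerically trivial -/
theorem numTriv_pull {Y : Sch k} {m : ℕ} (hY : 𝒱.mem Y m) (G : Y ⟶ Y) {z : W.coh Y}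
    (hz : EQ.NumTriv W z) : EQ.NumTriv W (W.pull G z) := by
  intro l y hy
  change W.tr Y (W.pull G z * y) = 0
  have h1 : W.push G y ∈ W.alg Y l := hW.push_alg hY hY G hy (by omega)
  rw [← hW.alg_comm hY hy, ← hW.push_adj hY hY, hW.alg_comm hY h1]
  exact hz l _ h1

/-- the unitary isometries of `H^*(X)` are real polynomials in `F^*` -/
theorem dia_rOp (hT : EQ.TateTwo W X F q) {G : Set (W.coh X)} (B : EigB W X F G)
    (hw : EQ.Weights W X F q) (i : UT (letT hW hX hF hT B)) :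
    ROp W X (fun G => ∃ r, G = iterHom F r) (dia (letT hW hX hF hT B) i.1) := by
  classical
  have hfin : Fintype B.ι := B.fin
  let N : ℂ → ℕ := fun a => if h : ∃ n : ℕ, ‖a‖ ^ 2 = (q : ℝ) ^ n then h.choose else 0
  have hN : ∀ a n, ‖a‖ ^ 2 = (q : ℝ) ^ n → N a = n := by
    intro a n h
    have h1 : ∃ n : ℕ, ‖a‖ ^ 2 = (q : ℝ) ^ n := ⟨n, h⟩
    have e : N a = h1.choose := dif_pos h1
    have h2 : (q : ℝ) ^ h1.choose = (q : ℝ) ^ n := by rw [← h1.choose_spec, h]
    rw [e]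
    have hq1 : (1 : ℝ) < q := by exact_mod_cast hF.one_lt
    exact pow_right_injective₀ (by linarith) (ne_of_gt hq1) h2
  let t : ℂ × ℕ → ℂ := i.1
  have ht : ∀ x : ℂ × ℕ, ‖t x‖ = 1 ∧ t x * t (dl x) = 1 := i.2
  let f : ℂ → ℂ := fun a => t (lab q a (N a))
  let s : Finset ℂ := Finset.univ.image B.a ∪ (Finset.univ.image B.a).image (starRingEnd ℂ)
  have hwt : ∀ j, ‖B.a j‖ ^ 2 = (q : ℝ) ^ B.deg j := fun j =>
    hw (B.deg j) (B.a j) (B.e j) (B.gr j) (B.lin.ne_zero j) (B.eig j)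
  have hs1 : ∀ a ∈ s, ∃ n : ℕ, ‖a‖ ^ 2 = (q : ℝ) ^ n := by
    intro a ha
    rcases Finset.mem_union.1 ha with h | h
    · obtain ⟨j, -, rfl⟩ := Finset.mem_image.1 h
      exact ⟨_, hwt j⟩
    · obtain ⟨b, hb, rfl⟩ := Finset.mem_image.1 h
      obtain ⟨j, -, rfl⟩ := Finset.mem_image.1 hb
      exact ⟨B.deg j, by rw [Complex.norm_conj, hwt j]⟩
  have hs2 : ∀ a ∈ s, starRingEnd ℂ a ∈ s := by
    intro a ha
    rcases Finset.mem_union.1 ha with h | h
    · exact Finset.mem_union_right _ (Finset.mem_image_of_mem _ h)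
    · obtain ⟨b, hb, rfl⟩ := Finset.mem_image.1 h
      rw [Complex.conj_conj]
      exact Finset.mem_union_left _ hb
  have hf : ∀ a ∈ s, f (starRingEnd ℂ a) = starRingEnd ℂ (f a) := by
    intro a ha
    obtain ⟨n, hn⟩ := hs1 a ha
    have h1 : N a = n := hN a n hn
    have h2 : N (starRingEnd ℂ a) = n := hN _ n (by rw [Complex.norm_conj, hn])
    change t (lab q (starRingEnd ℂ a) (N (starRingEnd ℂ a))) = starRingEnd ℂ (t (lab q a (N a)))
    rw [h1, h2, lab_conj hF.one_lt hn]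
    have h3 := ht (lab q a n)
    have h4 : starRingEnd ℂ (t (lab q a n)) = (t (lab q a n))⁻¹ :=
      (Complex.inv_eq_conj h3.1).symm
    rw [h4]
    exact eq_inv_of_mul_eq_one_right h3.2
  obtain ⟨n, c, hc⟩ := real_interp s hs2 f hf
  refine ⟨Fin n, inferInstance, c, fun r => iterHom F r, fun r => ⟨_, rfl⟩, fun x => ?_⟩
  let g : W.coh X →ₗ[ℂ] W.coh X :=
    ∑ r : Fin n, ((c r : ℝ) : ℂ) • (W.pull (iterHom F (r : ℕ))).toLinearMap
  have hg : ∀ x, g x = ∑ r : Fin n, ((c r : ℝ) : ℂ) • W.pull (iterHom F (r : ℕ)) x := by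
    intro x
    change (∑ r : Fin n, ((c r : ℝ) : ℂ) • (W.pull (iterHom F (r : ℕ))).toLinearMap) x = _
    rw [LinearMap.sum_apply]
    rfl
  rw [← hg]
  have e : dia (letT hW hX hF hT B) i.1 = g := by
    refine LinearMap.ext_on (s := Set.range B.e) B.span ?_
    rintro _ ⟨j, rfl⟩
    have h1 : dia (letT hW hX hF hT B) i.1 (B.e j) = t (lab q (B.a j) (B.deg j)) • B.e j :=
      dia_apply (letT hW hX hF hT B) i.1 j
    rw [h1, hg]
    have h2 : f (B.a j) = t (lab q (B.a j) (B.deg j)) := by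
      change t (lab q (B.a j) (N (B.a j))) = _
      rw [hN _ _ (hwt j)]
    rw [← h2, ← hc (B.a j) (Finset.mem_union_left _ (Finset.mem_image_of_mem _
      (Finset.mem_univ j))), Finset.sum_smul]
    refine Finset.sum_congr rfl fun r _ => ?_
    rw [pull_iterS hW hX r (B.eig j), smul_smul]
  rw [e]

theorem tp_rOp (hT : EQ.TateTwo W X F q) {G : Set (W.coh X)} (B : EigB W X F G)
    (hw : EQ.Weights W X F q) (i : UT (letT hW hX hF hT B)) :
    ∀ P : Prd 1, ROp W (EQ.pw X P) (FP F P) (tp hW hX (dia (letT hW hX hF hT B) i.1) P) := by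
  intro P
  induction P with
  | leaf a => exact dia_rOp hW hX hF hT B hw i
  | prod P Q hP hQ => exact rOp_ten hW (memX hX P) (memX hX Q) hP hQ


include hW hX hF in
/-- **The half law.** -/
theorem half_span (hT : EQ.TateTwo W X F q) (hw : EQ.Weights W X F q) {P : Prd 1} {j : ℕ}
    {M : Set (W.coh (EQ.pw X P))} (hM : EQ.StableSpace W X F P j M) : EQ.HalfSpan W M := by
  intro m z hz hs
  obtain ⟨B⟩ := exists_eigBT hW hX hF hT
  set L := letT hW hX hF hT B with hL
  have G := goodU L hW hX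
  have mem := memX (𝒱 := 𝒱) (X := X) hX
  have hfin : Module.Finite ℂ (W.coh (P.obj fun _ : Fin 1 => X)) := hW.finite (mem P)
  let N : Set (W.coh (P.obj fun _ : Fin 1 => X)) :=
    {x | x ∈ M ∧ EQ.NumTriv W (Y := EQ.pw X P) x}
  let K : Submodule ℂ (W.coh (P.obj fun _ : Fin 1 => X)) := Submodule.span ℂ (Set.range z)
  have hNK : ∀ x ∈ N, x ∈ K := by
    intro x hx
    obtain ⟨c, rfl⟩ := hs x hx.1 hx.2
    exact Submodule.sum_mem _ fun i _ => Submodule.smul_mem _ _ (Submodule.subset_span ⟨i, rfl⟩)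
  have hKA : ∀ x ∈ K, x ∈ EQ.CAlg W (P.obj fun _ : Fin 1 => X) j :=
    fun x hx => Submodule.span_le.2 (by
      rintro _ ⟨i, rfl⟩
      exact Submodule.subset_span (hM.alg _ (hz i).1)) hx
  have hKN : ∀ x ∈ K, EQ.NumTriv W (Y := P.obj fun _ : Fin 1 => X) x := by
    intro x hx
    induction hx using Submodule.span_induction with
    | mem y hy =>
      obtain ⟨i, rfl⟩ := hy
      exact (hz i).2
    | zero =>
      intro l y _
      change W.tr _ (0 * y) = 0
      rw [zero_mul, map_zero]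
    | add a b _ _ ha hb =>
      intro l y hy
      change W.tr _ ((a + b) * y) = 0
      have h1 : W.tr _ (a * y) = 0 := ha l y hy
      have h2 : W.tr _ (b * y) = 0 := hb l y hy
      rw [add_mul, map_add, h1, h2, add_zero]
    | smul c a _ ha =>
      intro l y hy
      change W.tr _ (c • a * y) = 0
      have h1 : W.tr _ (a * y) = 0 := ha l y hy
      rw [smul_mul_assoc, map_smul, h1, smul_zero]
  -- the operators on `K`
  have hreal : ∀ i : UT L, ∃ (I : Type) (_ : Fintype I) (c : I → ℝ)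
      (H : I → (EQ.pw X P ⟶ EQ.pw X P)), (∀ r, FP F P (H r)) ∧
      ∀ x, fu L hW hX i P x = ∑ r, (c r : ℂ) • W.pull (H r) x := fun i =>
    tp_rOp hW hX hF hT B hw i P
  have hpull : ∀ (H : EQ.pw X P ⟶ EQ.pw X P), FP F P H → ∀ x ∈ N, W.pull H x ∈ N :=
    fun H hH x hx => ⟨stab_fp hM hH hx.1, numTriv_pull hW (mem P) H hx.2⟩
  have hTK : ∀ i, ∀ x ∈ K, fu L hW hX i P x ∈ K := by
    intro i x hx
    induction hx using Submodule.span_induction with
    | mem y hy =>
      obtain ⟨r, rfl⟩ := hy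
      obtain ⟨I, _, c, H, hA, hH⟩ := hreal i
      rw [hH]
      exact Submodule.sum_mem _ fun s _ => Submodule.smul_mem _ _ (hNK _ (hpull _ (hA s) _ (hz r)))
    | zero => rw [map_zero]; exact zero_mem _
    | add a b _ _ ha hb => rw [map_add]; exact add_mem ha hb
    | smul c a _ ha => rw [map_smul]; exact Submodule.smul_mem _ _ ha
  let T : UT L → Module.End ℂ K := fun i => (fu L hW hX i P).restrict (hTK i)
  have hc : ∀ i i', T i * T i' = T i' * T i := fun i i' =>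
    LinearMap.ext fun v => Subtype.ext (G.comm i i' P v)
  let zK : Fin m → K := fun i => ⟨z i, Submodule.subset_span ⟨i, rfl⟩⟩
  have hspanK : Submodule.span ℂ (Set.range zK) = ⊤ := by
    rw [eq_top_iff]
    rintro ⟨x, hx⟩ -
    induction hx using Submodule.span_induction with
    | mem y hy =>
      obtain ⟨r, rfl⟩ := hy
      exact Submodule.subset_span ⟨r, rfl⟩
    | zero => exact zero_mem _
    | add a b ha0 hb0 ha hb => exact add_mem (ha) (hb)
    | smul c a ha0 ha => exact Submodule.smul_mem _ c ha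
  -- conjugate functionals
  have hconj : ∀ l μ : Module.Dual ℂ K, (∀ i, l (zK i) = starRingEnd ℂ (μ (zK i))) →
      ∀ x : K, (x : W.coh (P.obj fun _ : Fin 1 => X)) ∈ N → l x = starRingEnd ℂ (μ x) := by
    intro l μ h x hx
    obtain ⟨c, hc'⟩ := hs x.1 hx.1 hx.2
    have e : x = ∑ i, (c i : ℂ) • zK i := Subtype.ext (by
      rw [hc', Submodule.coe_sum]
      rfl)
    rw [e, map_sum, map_sum, map_sum]
    refine Finset.sum_congr rfl fun i _ => ?_
    rw [map_smul, map_smul, smul_eq_mul, smul_eq_mul, map_mul, h i]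
    congr 1
    exact (Complex.conj_eq_iff_real.2 ⟨(c i : ℝ), by push_cast; rfl⟩).symm
  let Λ : Submodule ℂ (Module.Dual ℂ K) :=
    { carrier := {l | ∃ μ : Module.Dual ℂ K, ∀ i, l (zK i) = starRingEnd ℂ (μ (zK i))}
      add_mem' := by
        rintro a b ⟨μ, hμ⟩ ⟨ν, hν⟩
        exact ⟨μ + ν, fun i => by
          rw [LinearMap.add_apply, LinearMap.add_apply, map_add, hμ, hν]⟩
      zero_mem' := ⟨0, fun i => (map_zero (starRingEnd ℂ)).symm⟩
      smul_mem' := by
        rintro c a ⟨μ, hμ⟩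
        exact ⟨starRingEnd ℂ c • μ, fun i => by
          rw [LinearMap.smul_apply, LinearMap.smul_apply, smul_eq_mul, smul_eq_mul, map_mul,
            Complex.conj_conj, hμ]⟩ }
  have hTl : ∀ (i : UT L) (l μ : Module.Dual ℂ K), (∀ r, l (zK r) = starRingEnd ℂ (μ (zK r))) →
      ∀ r, l (T i (zK r)) = starRingEnd ℂ (μ (T i (zK r))) := by
    intro i l μ h r
    obtain ⟨I, _, c, H, hA, hH⟩ := hreal i
    have hm : ∀ s, W.pull (H s) (z r) ∈ N := fun s => hpull _ (hA s) _ (hz r)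
    have e : T i (zK r) = ∑ s, (c s : ℂ) • (⟨W.pull (H s) (z r), hNK _ (hm s)⟩ : K) :=
      Subtype.ext (by
        rw [Submodule.coe_sum]
        exact hH (z r))
    rw [e, map_sum, map_sum, map_sum]
    refine Finset.sum_congr rfl fun s _ => ?_
    rw [map_smul, map_smul, smul_eq_mul, smul_eq_mul, map_mul, Complex.conj_ofReal,
      hconj l μ h _ (hm s)]
  have hΛ : Λ = ⊥ := by
    by_contra hne
    obtain ⟨l, ⟨μ, hμ⟩, hl0, χ, hχ⟩ := exists_eig (V := Module.Dual ℂ K)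
      (fun i => (T i).dualMap)
      (fun i j => by
        refine LinearMap.ext fun f => LinearMap.ext fun v => ?_
        have h1 : T j (T i v) = T i (T j v) := by
          rw [← Module.End.mul_apply, hc, Module.End.mul_apply]
        exact congrArg f h1) hne (by
        rintro i l ⟨μ, hμ⟩
        exact ⟨μ ∘ₗ T i, fun r => hTl i l μ hμ r⟩)
    have hl : ∀ i v, l (T i v) = χ i * l v := fun i v => LinearMap.congr_fun (hχ i) v
    have hmu : ∀ i v, μ (T i v) = starRingEnd ℂ (χ i) * μ v := by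
      intro i v
      have hv : v ∈ Submodule.span ℂ (Set.range zK) := by rw [hspanK]; trivial
      induction hv using Submodule.span_induction with
      | mem y hy =>
        obtain ⟨r, rfl⟩ := hy
        have h1 := hTl i l μ hμ r
        rw [hl, hμ r, ← Complex.conj_conj (χ i), ← map_mul] at h1
        exact ((starRingEnd ℂ).injective h1).symm
      | zero => simp
      | add a b _ _ ha hb => rw [map_add, map_add, map_add, ha, hb, mul_add]
      | smul c a _ ha => rw [map_smul, map_smul, map_smul, ha, smul_eq_mul, smul_eq_mul]; ring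
    obtain ⟨r, hr⟩ : ∃ r, l (zK r) ≠ 0 := by
      by_contra hcon
      push Not at hcon
      exact hl0 (LinearMap.ext_on hspanK (by
        rintro _ ⟨r, rfl⟩
        exact hcon r))
    have hr' : μ (zK r) ≠ 0 := fun h0 => hr (by rw [hμ r, h0, map_zero])
    obtain ⟨v, -, hv0, hv⟩ := exists_eig_dual T hc (W := ⊤) (fun i w _ => trivial) l
      ⟨zK r, trivial, hr⟩ χ fun i w _ => hl i w
    obtain ⟨y, -, hy0, hy⟩ := exists_eig_dual T hc (W := ⊤) (fun i w _ => trivial) μ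
      ⟨zK r, trivial, hr'⟩ (fun i => starRingEnd ℂ (χ i)) fun i w _ => hmu i w
    have hv1 : (v : W.coh (P.obj fun _ : Fin 1 => X)) ≠ 0 := fun h => hv0 (Subtype.ext h)
    have hy1 : (y : W.coh (P.obj fun _ : Fin 1 => X)) ≠ 0 := fun h => hy0 (Subtype.ext h)
    have hv2 : ∀ i, fu L hW hX i P (v : W.coh (P.obj fun _ : Fin 1 => X)) =
        χ i • (v : W.coh (P.obj fun _ : Fin 1 => X)) := fun i => congrArg Subtype.val (hv i)
    have hy2 : ∀ i, fu L hW hX i P (y : W.coh (P.obj fun _ : Fin 1 => X)) =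
        starRingEnd ℂ (χ i) • (y : W.coh (P.obj fun _ : Fin 1 => X)) :=
      fun i => congrArg Subtype.val (hy i)
    refine (G.zero_one hW mem (hKA _ v.2) hv1 hv2).1 (hKN _ v.2) ?_
    refine ⟨P, j, y, hKA _ y.2, hy1, fun i => ?_⟩
    refine (hy2 i).trans ?_
    change _ = (χ i)⁻¹ • (y : W.coh (P.obj fun _ : Fin 1 => X))
    rw [Complex.inv_eq_conj (char_norm L hW hX i P hv1 (hv2 i))]
  refine half_abs zK fun l μ h => ?_
  have hl : l = 0 := by
    have h1 : l ∈ Λ := ⟨μ, h⟩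
    rwa [hΛ, Submodule.mem_bot] at h1
  refine ⟨hl, ?_⟩
  have h2 : μ ∈ Λ := ⟨l, fun i => by rw [h i, Complex.conj_conj]⟩
  rwa [hΛ, Submodule.mem_bot] at h2

include hW hX hF in
/-- **Linear independence over `ℂ` implies that numerically trivial classes vanish.** -/
theorem num_of_indepM (hT : EQ.TateTwo W X F q) (hw : EQ.Weights W X F q) {P : Prd 1} {j : ℕ}
    {M : Set (W.coh (EQ.pw X P))} (hM : EQ.StableSpace W X F P j M) (hi : EQ.IndependentIn W M) :
    ∀ x ∈ Submodule.span ℂ M, EQ.NumTriv W x → x = 0 := by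
  obtain ⟨B⟩ := exists_eigBT hW hX hF hT
  set L := letT hW hX hF hT B with hL
  have G := goodU L hW hX
  have mem := memX (𝒱 := 𝒱) (X := X) hX
  have hfin : Module.Finite ℂ (W.coh (P.obj fun _ : Fin 1 => X)) := hW.finite (mem P)
  have hA : E.RatU.ConjA M :=
    E.RatU.conj_of_indep fun n z hz hq c hc =>
      congrFun (hi n z hz (fun q hq0 => funext (hq q hq0)) c hc)
  have hMA : Submodule.span ℂ (M : Set (W.coh (P.obj fun _ : Fin 1 => X))) ≤
      EQ.CAlg W (P.obj fun _ : Fin 1 => X) j :=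
    Submodule.span_le.2 fun x hx => Submodule.subset_span (hM.alg x hx)
  have hpres : ∀ (i : UT L), ∀ x ∈ Submodule.span ℂ (M : Set (W.coh (P.obj fun _ : Fin 1 => X))),
      fu L hW hX i P x ∈ Submodule.span ℂ (M : Set (W.coh (P.obj fun _ : Fin 1 => X))) := by
    intro i x hx
    induction hx using Submodule.span_induction with
    | mem y hy =>
      obtain ⟨I, _, c, H, hH, hu⟩ := tp_rOp hW hX hF hT B hw i P
      have e : fu L hW hX i P y = ∑ r, (c r : ℂ) • W.pull (H r) y := hu y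
      rw [e]
      exact Submodule.sum_mem _ fun s _ => Submodule.smul_mem _ _
        (Submodule.subset_span (stab_fp hM (hH s) hy))
    | zero => rw [map_zero]; exact zero_mem _
    | add a b _ _ ha hb => rw [map_add]; exact add_mem ha hb
    | smul c a _ ha => rw [map_smul]; exact Submodule.smul_mem _ _ ha
  intro x hx hn
  by_contra hx0
  let K : Submodule ℂ (W.coh (P.obj fun _ : Fin 1 => X)) :=
    { carrier := {z | z ∈ Submodule.span ℂ (M : Set (W.coh (P.obj fun _ : Fin 1 => X))) ∧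
        EQ.NumTriv W (Y := P.obj fun _ : Fin 1 => X) z}
      add_mem' := fun {a b} ha hb => ⟨add_mem ha.1 hb.1, fun l y hy => by
        change W.tr _ ((a + b) * y) = 0
        have h1 : W.tr _ (a * y) = 0 := ha.2 l y hy
        have h2 : W.tr _ (b * y) = 0 := hb.2 l y hy
        rw [add_mul, map_add, h1, h2, add_zero]⟩
      zero_mem' := ⟨zero_mem _, fun l y _ => by
        change W.tr _ (0 * y) = 0
        rw [zero_mul, map_zero]⟩
      smul_mem' := fun c a ha => ⟨Submodule.smul_mem _ c ha.1, fun l y hy => by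
        change W.tr _ (c • a * y) = 0
        have h1 : W.tr _ (a * y) = 0 := ha.2 l y hy
        rw [smul_mul_assoc, map_smul, h1, smul_zero]⟩ }
  have hK : K ≠ ⊥ := fun h => hx0 (by
    have : x ∈ K := ⟨hx, hn⟩
    rwa [h, Submodule.mem_bot] at this)
  obtain ⟨z, hz, hz0, χ, hχ⟩ := exists_eig (T := fun i => fu L hW hX i P)
    (fun i i' => LinearMap.ext fun w => G.comm i i' P w) hK
    (fun i w hw' => ⟨hpres i w hw'.1, G.num hW mem i P hw'.2⟩)
  refine (G.zero_one hW mem (hMA hz.1) hz0 hχ).1 hz.2 ?_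
  obtain ⟨y, hy, hy0, hyu⟩ := conj_eigM hA (fun G hG x hx => stab_fp hM hG hx) hz.1 hz0
  refine ⟨P, j, y, hMA hy, hy0, fun i => ?_⟩
  have h1 := hyu (fu L hW hX i P) (tp_rOp hW hX hF hT B hw i P) (χ i) (hχ i)
  refine h1.trans ?_
  change _ = (χ i)⁻¹ • y
  rw [Complex.inv_eq_conj (char_norm L hW hX i P hz0 (hχ i))]

include hW hX in
/-- if there are no numerically trivial classes then linear independence over `ℚ` implies linear
independence over `ℂ` -/
theorem indep_of_numM {P : Prd 1} {j : ℕ} {M : Set (W.coh (EQ.pw X P))}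
    (hM : EQ.StableSpace W X F P j M) (hn : ∀ x ∈ M, EQ.NumTriv W x → x = 0) :
    EQ.IndependentIn W M := by
  have hR : E.RatU.RSub M := ⟨hM.add, fun q x hx => hM.scal q x hx⟩
  have hS : E.RatU.Sep M (E.RatU.phi W (EQ.pw X P)) :=
    ⟨fun p x hx => E.RatU.tr_rat hW (memX hX P) (hM.alg x hx) p.2.2,
      fun x hx h0 => hn x hx fun l y hy => h0 ⟨l, y, hy⟩⟩
  intro n z hz hq c hc
  exact funext (E.RatU.indep_of_sep hR hS n z hz (fun q hq0 => congrFun (hq q (by
    exact hq0))) c hc)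

end main

end

end Pool.Agent.Lib.MP_361a6f_ag.FL.E.VW
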