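import Pool.Agent.Lib.MP_361a6f_ag.FL.E.DC.VT
import Pool.Agent.Lib.MP_361a6f_ag.FL.E.DC.VY

/-!
# Numerical and homological equivalence on the powers of a variety: the theorem
-/

open CategoryTheory AlgebraicGeometry MonoidalCategory CartesianMonoidalCategory

universe u w

set_option autoImplicit false

namespace Pool.Agent.Lib.MP_361a6f_ag.FL

open Pool.Agent.Lib.MP_361a6f_ag.H3 Pool.Agent.Lib.MP_361a6f_ag.SQ
  Pool.Agent.Lib.MP_361a6f_ag.PP

theorem thmVar : ThmVar.{u, w} := by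
  intro k _ W 𝒱 hW X d hX F q hF h
  have hT : EQ.TateTwo W X F q := h.elim id fun hS => E.VW.tate_of_simple hW hX hF hS
  obtain ⟨B⟩ := E.VW.exists_eigBT hW hX hF hT
  have L := E.VW.letT hW hX hF hT B
  exact ⟨fun hw P j M hM => ⟨E.VW.half_span hW hX hF hT hw hM,
    fun hn => E.VW.indep_of_numM hW hX hM hn, fun hi x hx hn =>
      E.VW.num_of_indepM hW hX hF hT hw hM hi x (Submodule.subset_span hx) hn⟩,
    fun H P => E.VW.num_of_finiteV L hW hX H P⟩

end Pool.Agent.Lib.MP_361a6f_ag.FL
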