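import Pool.Agent.Lib.MP_361a6f_ag.FL.E.StatR

/-!
# Semilinear symmetries and rational characters: definitions
-/

open CategoryTheory AlgebraicGeometry MonoidalCategory CartesianMonoidalCategory

universe u w

namespace Pool.Agent.Lib.MP_361a6f_ag.FL.EQ

open Pool.Agent.Lib.MP_361a6f_ag.H3 Pool.Agent.Lib.MP_361a6f_ag.SQ

variable {k : Type u} [Field k]

/-- A semilinear symmetry of the cohomology of the powers of `X`: `S P` is an additive bijection of
the cohomology of the power `X^P`, semilinear for the automorphism `σ` of `ℂ`, and the tensor power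
of an automorphism of the graded ring `H^*(X)` that is compatible with the trace; it fixes all
algebraic classes on all powers of `X`. (For `ℓ`-adic cohomology with coefficients in `ℂ` every
automorphism of `ℂ` over `ℚ_ℓ` gives one.) -/
structure IsSemi (W : CohomologyData.{u, 0, w} k ℂ) (X : Sch k) (σ : ℂ ≃+* ℂ)
    (S : ∀ P : Prd 1, W.coh (pw X P) → W.coh (pw X P)) : Prop where
  bij : ∀ P, Function.Bijective (S P)
  add : ∀ P x y, S P (x + y) = S P x + S P y
  scal : ∀ P c x, S P (W.scal c x) = W.scal (σ c) (S P x)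
  ext : ∀ P Q y x, S (.prod P Q) (W.ext y x) = W.ext (S P y) (S Q x)
  cup : ∀ x y, S (.leaf 0) (W.cup x y) = W.cup (S (.leaf 0) x) (S (.leaf 0) y)
  deg : ∀ i x, W.Deg X i (S (.leaf 0) x) ↔ W.Deg X i x
  tr : ∀ x, W.Tr (S (.leaf 0) x : W.coh X) = σ (W.Tr (x : W.coh X))
  alg : ∀ P l z, W.IsAlg (pw X P) l z → S P z = z

/-- The character `χ` of the group of the central isometries is rational: it is compatible with all
semilinear symmetries. (For `ℓ`-adic cohomology: `χ` is defined over `ℚ_ℓ`.) -/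
def Rational (W : CohomologyData.{u, 0, w} k ℂ) (X : Sch k) (n : ℕ) (ξ : W.coh X)
    (χ : (∀ P : Prd 1, W.coh (pw X P) → W.coh (pw X P)) → ℂ) : Prop :=
  ∀ σ S, IsSemi W X σ S → ∀ T T', IsCentral W X n ξ T → IsCentral W X n ξ T' →
    (∀ P x, S P (T P x) = T' P (S P x)) → χ T' = σ (χ T)

/-- The character `χ` occurs in the classes on some power of `X` that are fixed by all symmetries:
the central isometries `T` act on such a class `x ≠ 0` by the numbers `χ T`. (For `ℓ`-adic cohomology
these classes are Tate classes.) -/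
def OccursFixed (W : CohomologyData.{u, 0, w} k ℂ) (X : Sch k) (n : ℕ) (ξ : W.coh X)
    (χ : (∀ P : Prd 1, W.coh (pw X P) → W.coh (pw X P)) → ℂ) : Prop :=
  ∃ (P : Prd 1) (x : W.coh (pw X P)), x ≠ 0 ∧ (∀ S, IsSym W X S → S P x = x) ∧
    ∀ T, IsCentral W X n ξ T → T P x = W.scal (χ T) x

/-- The character `χ` has finite order. -/
def FiniteOrder (W : CohomologyData.{u, 0, w} k ℂ) (X : Sch k) (n : ℕ) (ξ : W.coh X)
    (χ : (∀ P : Prd 1, W.coh (pw X P) → W.coh (pw X P)) → ℂ) : Prop :=
  ∃ N : ℕ, 0 < N ∧ ∀ T, IsCentral W X n ξ T → χ T ^ N = 1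

end Pool.Agent.Lib.MP_361a6f_ag.FL.EQ
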