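import Pool.Agent.Lib.MP_361a6f_ag.FL.E.StatU
import Pool.Agent.Lib.MP_361a6f_ag.FL.E.DC.StatGal

/-!
# Numerical and homological equivalence and determinants: the statement
-/

open CategoryTheory AlgebraicGeometry MonoidalCategory CartesianMonoidalCategory

universe u w

namespace Pool.Agent.Lib.MP_361a6f_ag.FL.EQ

open Pool.Agent.Lib.MP_361a6f_ag.H3 Pool.Agent.Lib.MP_361a6f_ag.SQ

variable {k : Type u} [Field k]

/-- The determinant of `M` is `1` or `-1`. -/
def DetOne {V : Type w} [AddCommGroup V] [Module ℂ V] (M : V →ₗ[ℂ] V) : Prop :=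
  LinearMap.det M ^ 2 = 1

/-- The map `T` restricts to a linear map from the subspace `A` to itself with determinant `1` or
`-1`. -/
def DetOneOn {V : Type w} [AddCommGroup V] [Module ℂ V] (A : Submodule ℂ V) (T : V → V) : Prop :=
  ∃ M : A →ₗ[ℂ] A, (∀ x, (M x : V) = T x) ∧ DetOne M

/-- The central isometries have determinant `1` or `-1` on the space of the complex combinations of
algebraic classes of codimension `j` on the power `X^P`. -/
def DetU (W : CohomologyData.{u, 0, w} k ℂ) (X : Sch k) (n : ℕ) (ξ : W.coh X) (P : Prd 1)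
    (j : ℕ) : Prop :=
  ∀ T, IsCentral W X n ξ T → DetOneOn (CAlg W (pw X P) j) (T P)

end Pool.Agent.Lib.MP_361a6f_ag.FL.EQ

namespace Pool.Agent.Lib.MP_361a6f_ag.FL

open Pool.Agent.Lib.MP_361a6f_ag.H3 Pool.Agent.Lib.MP_361a6f_ag.SQ

/-- **Numerical equivalence and the central isometries.** Let `X` be an abelian variety.

* The zero-one law: a complex combination `x ≠ 0` of algebraic classes on a power of `X` on which
  the group of the central isometries acts by a character `χ` is numerically trivial if and only if
  the inverse of `χ` does not occur in the complex combinations of algebraic classes.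
* The determinant criterion: for each power of `X` and each `j`, numerical equivalence is
  homological equivalence in codimension `j` on this power if and only if the central isometries
  have determinant `1` or `-1` on the complex span of the algebraic classes of codimension `j`.
* This is true for all powers and all `j` if every rational character that occurs in the classes
  fixed by all symmetries (the Tate classes) has finite order. -/
def ThmDetGeoStatement : Prop :=
  ∀ {k : Type u} [Field k] (W : CohomologyData.{u, 0, w} k ℂ) (𝒱 : VarietyClass k)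
    (_ : IsWeilCohomology W 𝒱) {X : Sch k} {g : ℕ} {ξ : W.coh X} (_ : EQ.Hyp0 W 𝒱 X g ξ),
    (∀ χ (P : Prd 1) (j : ℕ), ∀ x ∈ EQ.CAlg W (EQ.pw X P) j, x ≠ 0 →
      EQ.HasChar W X g ξ χ P x →
      (EQ.NumTriv W x ↔ ¬ EQ.Occurs W X g ξ fun T => (χ T)⁻¹)) ∧
    (∀ P j, EQ.NumHomIn W (EQ.pw X P) j ↔ EQ.DetU W X g ξ P j) ∧
    ((∀ χ, EQ.Rational W X g ξ χ → EQ.OccursFixed W X g ξ χ → EQ.FiniteOrder W X g ξ χ) →
      ∀ P j, EQ.NumHomIn W (EQ.pw X P) j)

end Pool.Agent.Lib.MP_361a6f_ag.FL
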