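import Pool.Agent.Lib.MP_361a6f_ag.FL.E.DC.StatI4

/-!
# The half law for numerically trivial classes on abelian varieties: the statement
-/

open CategoryTheory AlgebraicGeometry MonoidalCategory CartesianMonoidalCategory

universe u v w w'

namespace Pool.Agent.Lib.MP_361a6f_ag.FL.EQ

open Pool.Agent.Lib.MP_361a6f_ag.H3 Pool.Agent.Lib.MP_361a6f_ag.SQ

variable {k : Type u} [Field k]

/-- The rational vector space of the numerically trivial algebraic classes of codimension `j` on
`Y`. -/
def NSet (W : CohomologyData.{u, 0, w} k ℂ) (Y : Sch k) (j : ℕ) : Set (W.coh Y) :=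
  {z | W.IsAlg Y j z ∧ NumTriv W z}

/-- The complex dimension of the span of `N` is at most half of the dimension over `ℚ` of the
rational vector space `N`: if `N` is spanned over `ℚ` by `m` elements then its complex span has
dimension at most `m / 2`. -/
def HalfDim (W : CohomologyData.{u, 0, w} k ℂ) {Y : Sch k} (N : Set (W.coh Y)) : Prop :=
  ∀ (m : ℕ) (z : Fin m → W.coh Y), (∀ i, z i ∈ N) →
    (∀ x ∈ N, ∃ c : Fin m → ℚ, x = ∑ i, W.scal (c i : ℂ) (z i)) →
    2 * Module.finrank ℂ (Submodule.span ℂ (Set.range z)) ≤ m

end Pool.Agent.Lib.MP_361a6f_ag.FL.EQ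

namespace Pool.Agent.Lib.MP_361a6f_ag.FL

open Pool.Agent.Lib.MP_361a6f_ag.H3 Pool.Agent.Lib.MP_361a6f_ag.SQ

/-- **The half law for abelian varieties, and numerical equivalence on an abelian variety and on its
reductions.** Let `X` be an abelian variety.

(1) Let `X` satisfy `Central` or `Frob`, let `Y` be a power of `X` and `j` a natural number. The
complex span of the rational vector space of the numerically trivial algebraic classes of
codimension `j` on `Y` has at most half the dimension of this rational space.

(2) Let `X` satisfy `Central` or `Frob`. For each `j`, numerical equivalence is homological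
equivalence in codimension `j`, with complex coefficients, on all powers of `X` if and only if this
is so with rational coefficients on the powers with `2j` factors, and if and only if algebraic
classes of codimension `j` on the powers with `2j` factors that are linearly independent over `ℚ`
are linearly independent over `ℂ` (Tate's condition of injectivity).

(3) Let `X'` be a specialisation of `X` (for instance the reduction at a place). If `X` satisfies
`Central`, or if `X` or `X'` satisfies `Frob`, and if numerical equivalence is homological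
equivalence in codimension `j`, for the classes with rational coefficients, on the powers of `X'`
with `2j` factors, then numerical equivalence is homological equivalence in codimension `j`, with
complex coefficients, on all powers of `X`. If `X` satisfies `Central` or `Frob` then this is true
if and only if no algebraic class `z ≠ 0` of codimension `j` on a power of `X` with `2j` factors
becomes numerically trivial on the power of `X'`. -/
def ThmHalf : Prop :=
  ∀ {k : Type u} [Field k] (W : CohomologyData.{u, 0, w} k ℂ) (𝒱 : VarietyClass k)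
    (_ : IsWeilCohomology W 𝒱) {X : Sch k} {g : ℕ} {ξ : W.coh X} (_ : EQ.HypX W 𝒱 X g ξ),
    (EQ.Central W X g ξ ∨ EQ.Frob W X g →
      (∀ P j, EQ.HalfDim W (EQ.NSet W (EQ.pw X P) j)) ∧
      ∀ j, ((∀ P, EQ.NumHomIn W (EQ.pw X P) j) ↔
          ∀ P : Prd 1, P.size = 2 * j → EQ.NumHomQ W (EQ.pw X P) j) ∧
        ((∀ P, EQ.NumHomIn W (EQ.pw X P) j) ↔
          ∀ P : Prd 1, P.size = 2 * j → EQ.Independent W (EQ.pw X P) j)) ∧
    ∀ {k' : Type v} [Field k'] (W' : CohomologyData.{v, 0, w'} k' ℂ) (𝒱' : VarietyClass k')
      (_ : IsWeilCohomology W' 𝒱') {X' : Sch k'} (_ : 𝒱'.mem X' g)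
      (s : ∀ P : Prd 1, W.coh (EQ.pw X P) → W'.coh (EQ.pw X' P)) (_ : EQ.IsSpec W X W' X' s)
      (j : ℕ),
      (EQ.Central W X g ξ ∨ EQ.Frob W X g ∨ EQ.Frob W' X' g →
        (∀ P : Prd 1, P.size = 2 * j → EQ.NumHomQ W' (EQ.pw X' P) j) →
          ∀ P, EQ.NumHomIn W (EQ.pw X P) j) ∧
      (EQ.Central W X g ξ ∨ EQ.Frob W X g →
        ((∀ P, EQ.NumHomIn W (EQ.pw X P) j) ↔
          ∀ P : Prd 1, P.size = 2 * j → EQ.Survive W X W' X' s P j))

end Pool.Agent.Lib.MP_361a6f_ag.FL
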