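import Pool.Agent.Lib.MP_361a6f_ag.FL.E.StatR

/-!
# Abelian varieties with an endomorphism of simple spectrum: definitions
-/

open CategoryTheory AlgebraicGeometry MonoidalCategory CartesianMonoidalCategory

universe u w

namespace Pool.Agent.Lib.MP_361a6f_ag.FL.EQ

open Pool.Agent.Lib.MP_361a6f_ag.H3 Pool.Agent.Lib.MP_361a6f_ag.SQ

variable {k : Type u} [Field k]

/-- For a morphism `F : X → X` the space `H^1(X)` is spanned by eigenvectors of `F^*` with distinct
eigenvalues, and `F^*` commutes on `H^1(X)` with the algebraic correspondences of codimension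
`n = dim X`. (For instance the Frobenius endomorphism of an ordinary simple abelian variety over the
closure of a finite field, or a generator of the field for complex multiplication.) -/
def Distinct (W : CohomologyData.{u, 0, w} k ℂ) (X : Sch k) (n : ℕ) : Prop :=
  ∃ (F : Sch.Mor X X) (m : ℕ) (v : Fin m → W.coh X) (a : Fin m → ℂ), Function.Injective a ∧
    (∀ i, W.pb F (v i) = W.scal (a i) (v i)) ∧ Submodule.span ℂ (Set.range v) = W.gr X 1 ∧
    ∀ z, W.IsAlg (X.prod X) n z → ∀ x, W.Deg X 1 x → W.pb F (act W z x) = act W z (W.pb F x)

/-- The hypotheses on `X`. It is an abelian variety (a unital law and `H^0(X) = ℂ` are enough), `ξ`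
is a divisor class of positive degree, and every stable subspace of `H^1(X)` is the image of a
central idempotent of the algebra of the endomorphisms (the theorems of Faltings and Zarhin), or
`X` has an endomorphism with simple spectrum. -/
structure Hyp1 (W : CohomologyData.{u, 0, w} k ℂ) (𝒱 : VarietyClass k) (X : Sch k) (g : ℕ)
    (ξ : W.coh X) : Prop where
  mem : 𝒱.mem X g
  conn : ∀ x, W.Deg X 0 x → ∃ c, x = W.scal c 1
  unital : Unital X
  div : PositiveDivisor W X g ξ
  iso : Isotypic W X g ∨ Distinct W X g

end Pool.Agent.Lib.MP_361a6f_ag.FL.EQ
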