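import Pool.Agent.Lib.MP_361a6f_ag.FL.E.DC.StatD

/-!
# Numerical and homological equivalence on the powers of a variety: the statement
-/

open CategoryTheory AlgebraicGeometry MonoidalCategory CartesianMonoidalCategory

universe u w

namespace Pool.Agent.Lib.MP_361a6f_ag.FL.EQ

open Pool.Agent.Lib.MP_361a6f_ag.H3 Pool.Agent.Lib.MP_361a6f_ag.SQ

variable {k : Type u} [Field k]

/-- The complex combinations of algebraic classes (of all codimensions) on `Y`. -/
def ASpan (W : CohomologyData.{u, 0, w} k ℂ) (Y : Sch k) : Submodule ℂ (W.coh Y) :=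
  Submodule.span ℂ {z | ∃ l, W.IsAlg Y l z}

/-- Numerical equivalence is homological equivalence for the complex combinations of algebraic
classes on `Y`. -/
def NumHomAll (W : CohomologyData.{u, 0, w} k ℂ) (Y : Sch k) : Prop :=
  ∀ x ∈ ASpan W Y, NumTriv W x → x = 0

/-- `F` is an endomorphism of the variety `X` of dimension `d` with the properties of the Frobenius
endomorphism over the field with `q` elements: `F` and `F × F` multiply the algebraic classes of
codimension `l` on `X` and on `X × X` by `q^l`, and `Tr(F^* x) = q^d Tr(x)`. (Over an algebraically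
closed field `F` is a power of a Frobenius endomorphism.) -/
structure IsFr (W : CohomologyData.{u, 0, w} k ℂ) (X : Sch k) (d : ℕ) (F : Sch.Mor X X) (q : ℕ) :
    Prop where
  one_lt : 1 < q
  alg : ∀ P : Prd 1, P.size ≤ 2 → ∀ l z, W.IsAlg (pw X P) l z →
    W.pb (pwMap F P) z = W.scal ((q : ℂ) ^ l) z
  tr : ∀ x, W.Tr (W.pb F x) = (q : ℂ) ^ d * W.Tr x

/-- Tate's conjecture for `X × X`: the space `H^*(X)` is spanned by eigenvectors of `F^*`, and the
classes `z` of degree `2l` on `X × X` with `(F × F)^* z = q^l z` are complex combinations of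
algebraic classes. -/
def TateTwo (W : CohomologyData.{u, 0, w} k ℂ) (X : Sch k) (F : Sch.Mor X X) (q : ℕ) : Prop :=
  (∀ x, x ∈ Submodule.span ℂ {y | ∃ a : ℂ, W.pb F y = W.scal a y}) ∧
    ∀ l (z : W.coh (X.prod X)), W.Deg (X.prod X) (2 * l) z →
      W.pb (pwMap F (.prod (.leaf 0) (.leaf 0))) z = W.scal ((q : ℂ) ^ l) z →
      z ∈ CAlg W (X.prod X) l

/-- The space `H^*(X)` is spanned by algebraic classes and by eigenvectors of `F^*` in the middle
degree `d` with distinct eigenvalues, none of which is a power of `q`. -/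
def SimpleMid (W : CohomologyData.{u, 0, w} k ℂ) (X : Sch k) (d : ℕ) (F : Sch.Mor X X) (q : ℕ) :
    Prop :=
  ∃ (m : ℕ) (v : Fin m → W.coh X) (a : Fin m → ℂ), Function.Injective a ∧
    (∀ i, v i ≠ 0 ∧ W.Deg X d (v i) ∧ W.pb F (v i) = W.scal (a i) (v i) ∧
      ∀ l : ℕ, a i ≠ (q : ℂ) ^ l) ∧
    ∀ x, x ∈ ASpan W X ⊔ Submodule.span ℂ (Set.range v)

/-- The eigenvalues of `F^*` on `H^i(X)` have absolute value `q^(i/2)`. -/
def Weights (W : CohomologyData.{u, 0, w} k ℂ) (X : Sch k) (F : Sch.Mor X X) (q : ℕ) : Prop :=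
  ∀ i (a : ℂ) (x : W.coh X), W.Deg X i x → x ≠ 0 → W.pb F x = W.scal a x →
    ‖a‖ ^ 2 = (q : ℝ) ^ i

/-- `G` is the endomorphism `F` on one of the factors of the power `X^P` and the identity on the other
factors. -/
def OneFactor {X : Sch k} (F : Sch.Mor X X) : (P : Prd 1) → Sch.Mor (pw X P) (pw X P) → Prop
  | .leaf _, G => G = F
  | .prod P Q, G => (∃ G₁, OneFactor F P G₁ ∧ G = G₁ ⊗ₘ 𝟙 (pw X Q)) ∨
      ∃ G₂, OneFactor F Q G₂ ∧ G = 𝟙 (pw X P) ⊗ₘ G₂

/-- `M` is a rational vector space of algebraic classes of codimension `j` on the power `X^P`, stable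
under the endomorphism `F` of each factor. For instance `C^j(X^P)`, or, if `X` is a disjoint union,
`C^j` of a union of components of `X^P`. -/
structure StableSpace (W : CohomologyData.{u, 0, w} k ℂ) (X : Sch k) (F : Sch.Mor X X) (P : Prd 1)
    (j : ℕ) (M : Set (W.coh (pw X P))) : Prop where
  alg : ∀ x ∈ M, W.IsAlg (pw X P) j x
  add : ∀ x ∈ M, ∀ y ∈ M, x + y ∈ M
  scal : ∀ c : ℚ, ∀ x ∈ M, W.scal (c : ℂ) x ∈ M
  stab : ∀ G, OneFactor F P G → ∀ x ∈ M, W.pb G x ∈ M

/-- Let `N` be the set of the numerically trivial classes in `M`. If `N` is spanned over `ℚ` by `m`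
classes then its complex span has dimension at most `m / 2`. In other words: the complex dimension of
the span of `N` is at most half of the rational dimension of `N`. -/
def HalfSpan (W : CohomologyData.{u, 0, w} k ℂ) {Y : Sch k} (M : Set (W.coh Y)) : Prop :=
  ∀ (m : ℕ) (z : Fin m → W.coh Y), (∀ i, z i ∈ M ∧ NumTriv W (z i)) →
    (∀ x ∈ M, NumTriv W x → ∃ c : Fin m → ℚ, x = ∑ i, W.scal (c i : ℂ) (z i)) →
    2 * Module.finrank ℂ (Submodule.span ℂ (Set.range z)) ≤ m

/-- Elements of `M` that are linearly independent over `ℚ` are linearly independent over `ℂ`. -/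
def IndependentIn (W : CohomologyData.{u, 0, w} k ℂ) {Y : Sch k} (M : Set (W.coh Y)) : Prop :=
  ∀ (n : ℕ) (z : Fin n → W.coh Y), (∀ i, z i ∈ M) →
    (∀ q : Fin n → ℚ, ∑ i, W.scal (q i : ℂ) (z i) = 0 → q = 0) →
    ∀ c : Fin n → ℂ, ∑ i, W.scal (c i) (z i) = 0 → c = 0

/-- `T P` are the tensor powers of a linear map of `H^*(X)` that commutes with all algebraic
correspondences of `X` and preserves `Tr(x y)`. -/
structure IsIso (W : CohomologyData.{u, 0, w} k ℂ) (X : Sch k)
    (T : ∀ P : Prd 1, W.coh (pw X P) → W.coh (pw X P)) : Prop where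
  tensor : Tensor W X W X T
  comm : ∀ l z, W.IsAlg (X.prod X) l z → ∀ x : W.coh X,
    T (.leaf 0) (act W z x) = act W z (T (.leaf 0) x)
  form : ∀ x y : W.coh X, W.Tr (W.cup (T (.leaf 0) x) (T (.leaf 0) y) : W.coh X) =
    W.Tr (W.cup x y)

/-- The character `χ` is compatible with all semilinear symmetries. (For `ℓ`-adic cohomology: `χ` is
defined over `ℚ_ℓ`.) -/
def RationalI (W : CohomologyData.{u, 0, w} k ℂ) (X : Sch k)
    (χ : (∀ P : Prd 1, W.coh (pw X P) → W.coh (pw X P)) → ℂ) : Prop :=
  ∀ σ S, IsSemi W X σ S → ∀ T T', IsIso W X T → IsIso W X T' →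
    (∀ P x, S P (T P x) = T' P (S P x)) → χ T' = σ (χ T)

/-- The character `χ` occurs in the classes on some power of `X` that are fixed by all symmetries.
(For `ℓ`-adic cohomology these classes are Tate classes.) -/
def FixedI (W : CohomologyData.{u, 0, w} k ℂ) (X : Sch k)
    (χ : (∀ P : Prd 1, W.coh (pw X P) → W.coh (pw X P)) → ℂ) : Prop :=
  ∃ (P : Prd 1) (x : W.coh (pw X P)), x ≠ 0 ∧ (∀ S, IsSym W X S → S P x = x) ∧
    ∀ T, IsIso W X T → T P x = W.scal (χ T) x

/-- The character `χ` has finite order. -/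
def FiniteI (W : CohomologyData.{u, 0, w} k ℂ) (X : Sch k)
    (χ : (∀ P : Prd 1, W.coh (pw X P) → W.coh (pw X P)) → ℂ) : Prop :=
  ∃ N : ℕ, 0 < N ∧ ∀ T, IsIso W X T → χ T ^ N = 1

end Pool.Agent.Lib.MP_361a6f_ag.FL.EQ

namespace Pool.Agent.Lib.MP_361a6f_ag.FL

open Pool.Agent.Lib.MP_361a6f_ag.H3 Pool.Agent.Lib.MP_361a6f_ag.SQ

/-- **Numerical equivalence on the powers of a variety over a finite field.** Let `X` be a smooth
proper variety of dimension `d` with a Frobenius endomorphism `F`, for which Tate's conjecture for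
`X × X` and the semisimplicity of `F^*` hold, or whose cohomology is spanned by algebraic classes and
by eigenvectors of `F^*` in degree `d` with distinct eigenvalues that are not powers of `q`.

* Let the eigenvalues of `F^*` on `H^i(X)` have absolute value `q^(i/2)`. Let `M` be the rational
  vector space `C^j` of a power of `X`, or a subspace that is stable under `F` on each factor, and
  let `N` be the space of the numerically trivial classes in `M`. Then the complex span of `N` has at
  most half the dimension of `N`. One has `N = 0` if and only if elements of `M` that are linearly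
  independent over `ℚ` are linearly independent over `ℂ`.
* On all powers of `X` numerical equivalence is homological equivalence if every rational character
  of the group of the isometries of `H^*(X)` that commute with the algebraic correspondences, which
  occurs in the classes fixed by all symmetries (the Tate classes), has finite order. -/
def ThmVar : Prop :=
  ∀ {k : Type u} [Field k] (W : CohomologyData.{u, 0, w} k ℂ) (𝒱 : VarietyClass k)
    (_ : IsWeilCohomology W 𝒱) {X : Sch k} {d : ℕ} (_ : 𝒱.mem X d) {F : Sch.Mor X X} {q : ℕ}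
    (_ : EQ.IsFr W X d F q) (_ : EQ.TateTwo W X F q ∨ EQ.SimpleMid W X d F q),
    (EQ.Weights W X F q → ∀ P j M, EQ.StableSpace W X F P j M → EQ.HalfSpan W M ∧
      ((∀ x ∈ M, EQ.NumTriv W x → x = 0) ↔ EQ.IndependentIn W M)) ∧
    ((∀ χ, EQ.RationalI W X χ → EQ.FixedI W X χ → EQ.FiniteI W X χ) →
      ∀ P, EQ.NumHomAll W (EQ.pw X P))

end Pool.Agent.Lib.MP_361a6f_ag.FL
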