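import Pool.Agent.Lib.MP_361a6f_ag.FL.E.DC.VI
import Pool.Agent.Lib.MP_361a6f_ag.FL.E.DC.Sim

/-!
# Simple spectrum in the middle degree implies the conjecture of Tate for `X × X`
-/

open CategoryTheory AlgebraicGeometry MonoidalCategory CartesianMonoidalCategory Polynomial

universe u w

set_option autoImplicit false
set_option linter.unusedSectionVars false

namespace Pool.Agent.Lib.MP_361a6f_ag.FL.E.VW

open Pool.Agent.Lib.MP_361a6f_ag.H3 Pool.Agent.Lib.MP_361a6f_ag.SQ
  Pool.Agent.Lib.MP_361a6f_ag.PP D4 VL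

noncomputable section

/-- polynomials of an operator on an eigenvector -/
theorem aeval_eig {V : Type*} [AddCommGroup V] [Module ℂ V] (φ : Module.End ℂ V) {a : ℂ} {v : V}
    (h : φ v = a • v) (p : ℂ[X]) : aeval φ p v = p.eval a • v := by
  induction p using Polynomial.induction_on' with
  | add p q hp hq => rw [map_add, LinearMap.add_apply, hp, hq, eval_add, add_smul]
  | monomial c r =>
    rw [aeval_monomial, Module.End.mul_apply, eval_monomial]
    have h1 : ∀ c : ℕ, (φ ^ c) v = a ^ c • v := by
      intro c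
      induction c with
      | zero => rw [pow_zero, pow_zero, one_smul]; rfl
      | succ c ih =>
        rw [pow_succ, Module.End.mul_apply, h, map_smul, ih, smul_smul, pow_succ, mul_comm]
    rw [h1]
    change algebraMap ℂ (Module.End ℂ V) r (a ^ c • v) = _
    rw [Module.algebraMap_end_apply, smul_smul]

/-- a polynomial with given values -/
theorem exists_interp (s : Finset ℂ) (f : ℂ → ℂ) : ∃ p : ℂ[X], ∀ x ∈ s, p.eval x = f x := by
  classical
  refine ⟨Lagrange.interpolate s id f, fun x hx => ?_⟩
  exact Lagrange.eval_interpolate_at_node f Function.injective_id.injOn hx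

variable {k : Type u} [Field k] {W : CohomologyData.{u, 0, w} k ℂ} {𝒱 : VarietyClass k}
  (hW : IsWeilCohomology W 𝒱) {X : Sch k} {d : ℕ} (hX : 𝒱.mem X d) {F : X ⟶ X} {q : ℕ}
  (hF : EQ.IsFr W X d F q)

include hW in
/-- classes of degree larger than `2 dim` vanish -/
theorem gr_high {Y : Sch k} {m : ℕ} (hY : 𝒱.mem Y m) {n : ℕ} (hn : 2 * m < n) {x : W.coh Y}
    (hx : x ∈ W.gr Y n) : x = 0 := by
  refine hW.duality hY _ fun t => ?_
  refine hW.hom_induction hY (P := fun t => W.tr Y (x * t) = 0) t ?_ ?_ ?_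
  · intro p t ht
    exact hW.tr_gr hY (hW.mul_gr hY hx ht) (by omega)
  · rw [mul_zero, map_zero]
  · intro a b ha hb; rw [mul_add, map_add, ha, hb, add_zero]

include hW hX in
/-- the action of the exterior product of two classes -/
theorem act_ext' (x y u : W.coh X) :
    EQ.act W (W.pull (fst X X) x * W.pull (snd X X) y : W.coh (X ⊗ X)) u = W.tr X (u * x) • y := by
  change W.push (snd X X) (W.pull (fst X X) u * (W.pull (fst X X) x * W.pull (snd X X) y)) = _
  rw [← mul_assoc, ← map_mul, push_snd_ext hW hX hX]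

include hW hX in
/-- a class of even degree is determined by its action -/
theorem act_inj {z : W.coh (X ⊗ X)} {l : ℕ} (hz : z ∈ W.gr (X ⊗ X) (2 * l))
    (h : ∀ x, EQ.act W z x = 0) : z = 0 := by
  have hXX := 𝒱.prod hX hX
  refine hW.duality hXX z fun y => ?_
  refine prod_induction hW hX hX (P := fun y => W.tr (X ⊗ X) (z * y) = 0) y ?_ ?_ ?_ ?_
  · intro a b
    have e : W.tr X (EQ.act W z a * b) =
        W.tr (X ⊗ X) (W.pull (fst X X) a * z * W.pull (snd X X) b) := hW.push_adj hXX hX _ _ _
    rw [h, zero_mul, map_zero] at e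
    rw [← mul_assoc, hW.even_comm hXX hz]
    exact e.symm
  · rw [mul_zero, map_zero]
  · intro a b ha hb; rw [mul_add, map_add, ha, hb, add_zero]
  · intro c a ha; rw [mul_smul_comm, map_smul, ha, smul_zero]

include hW hX hF in
/-- **Simple spectrum implies Tate's conjecture for `X × X`.** -/
theorem tate_of_simple (hS : EQ.SimpleMid W X d F q) : EQ.TateTwo W X F q := by
  classical
  obtain ⟨m, v, a, ha, hv, hspan⟩ := hS
  have hXX := 𝒱.prod hX hX
  have hq0 := q_ne hW hX hF
  have hv0 : ∀ i, v i ≠ 0 := fun i => (hv i).1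
  have hvg : ∀ i, v i ∈ W.gr X d := fun i => (hv i).2.1
  have hvF : ∀ i, W.pull F (v i) = a i • v i := fun i => (hv i).2.2.1
  have hvq : ∀ i (l : ℕ), a i ≠ (q : ℂ) ^ l := fun i => (hv i).2.2.2
  have halg : ∀ l, ∀ z ∈ W.alg X l, W.pull F z = (q : ℂ) ^ l • z := fun l z hz =>
    hF.alg (.leaf 0) one_le_two l z hz
  set G : Set (W.coh X) := {z | ∃ l, z ∈ W.alg X l} ∪ Set.range v with hGdef
  have hG1 : ∀ g ∈ G, ∃ (n : ℕ) (a : ℂ), g ∈ W.gr X n ∧ W.pull F g = a • g := by
    rintro g (⟨l, hl⟩ | ⟨i, rfl⟩)
    · exact ⟨2 * l, _, hW.alg_gr hX hl, halg l g hl⟩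
    · exact ⟨d, _, hvg i, hvF i⟩
  have hGtop : Submodule.span ℂ G = ⊤ := by
    rw [eq_top_iff]
    intro x _
    rw [hGdef, Submodule.span_union]
    exact hspan x
  refine ⟨fun x => ?_, ?_⟩
  · have hx : x ∈ Submodule.span ℂ G := by rw [hGtop]; trivial
    refine Submodule.span_mono ?_ hx
    intro g hg
    obtain ⟨n, a, -, h⟩ := hG1 g hg
    exact ⟨a, h⟩
  -- exterior products of eigenvectors in the middle degree
  have hmid : ∀ p r, a p * a r = (q : ℂ) ^ d →
      W.pull (fst X X) (v p) * W.pull (snd X X) (v r) ∈ EQ.CAlg W (X ⊗ X) d := by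
    intro p r hpr
    have hap : a p ≠ 0 := by
      intro h0
      rw [h0, zero_mul] at hpr
      exact pow_ne_zero d hq0 hpr.symm
    obtain ⟨P, hP⟩ := exists_interp
      (Finset.univ.image a ∪ (Finset.range (d + 1)).image fun l => (q : ℂ) ^ l)
      (fun x => if x = a r then 1 else 0)
    obtain ⟨e, he, hact⟩ := Sim.exists_poly hW hX F P
    have hPa : ∀ t, P.eval (a t) = if t = r then 1 else 0 := by
      intro t
      rw [hP (a t) (Finset.mem_union_left _ (Finset.mem_image_of_mem a (Finset.mem_univ t)))]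
      by_cases h : t = r
      · rw [if_pos h, if_pos (by rw [h])]
      · rw [if_neg h, if_neg (fun h' => h (ha h'))]
    have hPq : ∀ l, l ≤ d → P.eval ((q : ℂ) ^ l) = 0 := by
      intro l hl
      rw [hP _ (Finset.mem_union_right _ (Finset.mem_image_of_mem _
        (Finset.mem_range.2 (Nat.lt_succ_of_le hl)))), if_neg (fun h => hvq r l h.symm)]
    set c : ℂ := W.tr X (v r * v p) with hc
    have heg : e ∈ W.gr (X ⊗ X) (2 * d) := by
      have hle : Submodule.span ℂ {z : W.coh (X ⊗ X) | W.IsAlg (X.prod X) d z} ≤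
          W.gr (X ⊗ X) (2 * d) := Submodule.span_le.2 fun y hy => hW.alg_gr hXX hy
      exact hle he
    have hvv : W.pull (fst X X) (v p) * W.pull (snd X X) (v r) ∈ W.gr (X ⊗ X) (2 * d) := by
      rw [two_mul]
      exact hW.mul_gr hXX (hW.pull_gr hXX hX _ (hvg p)) (hW.pull_gr hXX hX _ (hvg r))
    have key : c • e - W.pull (fst X X) (v p) * W.pull (snd X X) (v r) = 0 := by
      refine act_inj hW hX (sub_mem (Submodule.smul_mem _ c heg) hvv) fun u => ?_
      have e1 : EQ.act W (c • e - W.pull (fst X X) (v p) * W.pull (snd X X) (v r)) u =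
          c • EQ.act W e u - W.tr X (u * v p) • v r := by
        rw [← act_ext' hW hX (v p) (v r) u]
        change W.push _ (W.pull _ u * (c • e - _)) = c • W.push _ (W.pull _ u * e) -
          W.push _ (W.pull _ u * _)
        rw [mul_sub, map_sub, mul_smul_comm, map_smul]
      rw [e1, hact]
      clear e1
      have hu : u ∈ Submodule.span ℂ G := by rw [hGtop]; trivial
      induction hu using Submodule.span_induction with
      | mem u hu =>
        rcases hu with ⟨l, hl⟩ | ⟨t, rfl⟩
        · by_cases hld : l ≤ d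
          · rw [aeval_eig (W.pull F).toLinearMap (halg l u hl), hPq l hld, zero_smul, smul_zero,
              zero_sub, neg_eq_zero]
            have h1 : W.tr X (u * v p) = 0 := by
              by_contra hne
              have h2 := tr_pull hW hX hF (u * v p)
              rw [map_mul (W.pull F), halg l u hl, hvF, smul_mul_assoc, mul_smul_comm, map_smul,
                map_smul, smul_eq_mul, smul_eq_mul, ← mul_assoc] at h2
              have h3 := mul_right_cancel₀ hne h2
              refine hvq p (d - l) ?_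
              have h4 : (q : ℂ) ^ d = (q : ℂ) ^ l * (q : ℂ) ^ (d - l) := by
                rw [← pow_add]
                congr 1
                omega
              rw [h4] at h3
              exact mul_left_cancel₀ (pow_ne_zero l hq0) h3
            rw [h1, zero_smul]
          · have h1 : u = 0 := gr_high hW hX (by omega) (hW.alg_gr hX hl)
            rw [h1, map_zero, smul_zero, zero_mul, map_zero, zero_smul, sub_zero]
        · rw [aeval_eig (W.pull F).toLinearMap (hvF t), hPa]
          by_cases htr : t = r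
          · subst htr
            rw [if_pos rfl, one_smul, hc, sub_self]
          · rw [if_neg htr, zero_smul, smul_zero, zero_sub, neg_eq_zero]
            have h1 : W.tr X (v t * v p) = 0 := by
              by_contra hne
              have h2 := tr_pull hW hX hF (v t * v p)
              rw [map_mul (W.pull F), hvF, hvF, smul_mul_assoc, mul_smul_comm, map_smul,
                map_smul, smul_eq_mul, smul_eq_mul, ← mul_assoc] at h2
              have h3 := mul_right_cancel₀ hne h2
              rw [← hpr, mul_comm (a p)] at h3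
              exact htr (ha (mul_right_cancel₀ hap h3))
            rw [h1, zero_smul]
      | zero => rw [map_zero, smul_zero, zero_mul, map_zero, zero_smul, sub_zero]
      | add x y _ _ hx hy =>
        have e2 : c • aeval (W.pull F).toLinearMap P (x + y) - W.tr X ((x + y) * v p) • v r =
            (c • aeval (W.pull F).toLinearMap P x - W.tr X (x * v p) • v r) +
              (c • aeval (W.pull F).toLinearMap P y - W.tr X (y * v p) • v r) := by
          rw [map_add, add_mul, map_add, smul_add, add_smul]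
          abel
        rw [e2, hx, hy, add_zero]
      | smul b x _ hx =>
        have e2 : c • aeval (W.pull F).toLinearMap P (b • x) - W.tr X ((b • x) * v p) • v r =
            b • (c • aeval (W.pull F).toLinearMap P x - W.tr X (x * v p) • v r) := by
          rw [map_smul, smul_mul_assoc, map_smul, smul_sub, smul_comm c b, smul_eq_mul, mul_smul]
        rw [e2, hx, smul_zero]
    rw [← sub_eq_zero.1 key]
    exact Submodule.smul_mem _ c he
  intro l z hz hzF
  -- the class is a combination of exterior products of eigenvectors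
  set G2 : Set (W.coh (X ⊗ X)) :=
    {g | ∃ x ∈ G, ∃ y ∈ G, g = W.pull (fst X X) x * W.pull (snd X X) y} with hG2
  have hz0 : z ∈ Submodule.span ℂ G2 := by
    refine prod_induction hW hX hX (P := fun z => z ∈ Submodule.span ℂ G2) z ?_ (zero_mem _)
      (fun a b ha hb => add_mem ha hb) (fun c a ha => Submodule.smul_mem _ c ha)
    intro y x
    have hy : y ∈ Submodule.span ℂ G := by rw [hGtop]; trivial
    have hx : x ∈ Submodule.span ℂ G := by rw [hGtop]; trivial
    induction hy using Submodule.span_induction with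
    | mem y hy =>
      induction hx using Submodule.span_induction with
      | mem x hx => exact Submodule.subset_span ⟨y, hy, x, hx, rfl⟩
      | zero => rw [map_zero, mul_zero]; exact zero_mem _
      | add a b _ _ ha hb => rw [map_add, mul_add]; exact add_mem ha hb
      | smul c a _ ha => rw [map_smul, mul_smul_comm]; exact Submodule.smul_mem _ c ha
    | zero => rw [map_zero, zero_mul]; exact zero_mem _
    | add a b _ _ ha hb => rw [map_add, add_mul]; exact add_mem ha hb
    | smul c a _ ha => rw [map_smul, smul_mul_assoc]; exact Submodule.smul_mem _ c ha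
  have hψ : ∀ (x y : W.coh X) (α β : ℂ), W.pull F x = α • x → W.pull F y = β • y →
      W.pull (F ⊗ₘ F) (W.pull (fst X X) x * W.pull (snd X X) y) =
        (α * β) • (W.pull (fst X X) x * W.pull (snd X X) y) := by
    intro x y α β hx hy
    rw [pull_tensorHom, hx, hy, map_smul, map_smul, smul_mul_assoc, mul_smul_comm, smul_smul]
  have h5 := gr_span hW hXX (G := G2) (by
    rintro _ ⟨x, hx, y, hy, rfl⟩
    obtain ⟨n, -, hn, -⟩ := hG1 x hx
    obtain ⟨n', -, hn', -⟩ := hG1 y hy
    exact ⟨_, hW.mul_gr hXX (hW.pull_gr hXX hX _ hn) (hW.pull_gr hXX hX _ hn')⟩) hz0 hz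
  have h6 := eig_span (W.pull (F ⊗ₘ F)).toLinearMap (by
    rintro _ ⟨⟨x, hx, y, hy, rfl⟩, -⟩
    obtain ⟨-, α, -, hα⟩ := hG1 x hx
    obtain ⟨-, β, -, hβ⟩ := hG1 y hy
    exact ⟨_, hψ x y α β hα hβ⟩) h5 (μ := (q : ℂ) ^ l) hzF
  refine (Submodule.span_le.2 ?_ : Submodule.span ℂ _ ≤ EQ.CAlg W (X ⊗ X) l) h6
  rintro _ ⟨⟨⟨x, hx, y, hy, rfl⟩, hgr⟩, heig⟩
  by_cases hg0 : W.pull (fst X X) x * W.pull (snd X X) y = 0
  · rw [hg0]; exact zero_mem _
  have hdeg : ∀ n n', x ∈ W.gr X n → y ∈ W.gr X n' → n + n' = 2 * l := by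
    intro n n' hn hn'
    by_contra hne
    exact hg0 (Crit.gr_unique hW hXX hne hgr
      (hW.mul_gr hXX (hW.pull_gr hXX hX _ hn) (hW.pull_gr hXX hX _ hn')))
  have heq : ∀ α β, W.pull F x = α • x → W.pull F y = β • y → α * β = (q : ℂ) ^ l := by
    intro α β hα hβ
    have h1 : W.pull (F ⊗ₘ F) (W.pull (fst X X) x * W.pull (snd X X) y) =
      (q : ℂ) ^ l • (W.pull (fst X X) x * W.pull (snd X X) y) := heig
    rw [hψ x y α β hα hβ] at h1
    have h2 : (α * β - (q : ℂ) ^ l) • (W.pull (fst X X) x * W.pull (snd X X) y) = 0 := by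
      rw [sub_smul, h1, sub_self]
    exact sub_eq_zero.1 ((smul_eq_zero.1 h2).resolve_right hg0)
  rcases hx with ⟨l1, hl1⟩ | ⟨p, rfl⟩ <;> rcases hy with ⟨l2, hl2⟩ | ⟨r, rfl⟩
  · have h7 := hdeg _ _ (hW.alg_gr hX hl1) (hW.alg_gr hX hl2)
    have h8 : l = l1 + l2 := by omega
    subst h8
    exact Submodule.subset_span (hW.cycles.mul hXX (hW.pull_alg hXX hX (fst X X) hl1)
      (hW.pull_alg hXX hX (snd X X) hl2))
  · exfalso
    have h7 := hdeg _ _ (hW.alg_gr hX hl1) (hvg r)
    have h8 := heq _ _ (halg l1 x hl1) (hvF r)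
    refine hvq r (l - l1) ?_
    have h9 : (q : ℂ) ^ l = (q : ℂ) ^ l1 * (q : ℂ) ^ (l - l1) := by
      rw [← pow_add]
      congr 1
      omega
    rw [h9] at h8
    exact mul_left_cancel₀ (pow_ne_zero l1 hq0) h8
  · exfalso
    have h7 := hdeg _ _ (hvg p) (hW.alg_gr hX hl2)
    have h8 := heq _ _ (hvF p) (halg l2 y hl2)
    refine hvq p (l - l2) ?_
    have h9 : (q : ℂ) ^ l = (q : ℂ) ^ (l - l2) * (q : ℂ) ^ l2 := by
      rw [← pow_add]
      congr 1
      omega
    rw [h9] at h8
    exact mul_right_cancel₀ (pow_ne_zero l2 hq0) h8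
  · have h7 := hdeg _ _ (hvg p) (hvg r)
    have h8 : l = d := by omega
    subst h8
    exact hmid p r (heq _ _ (hvF p) (hvF r))

end

end Pool.Agent.Lib.MP_361a6f_ag.FL.E.VW
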