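import Pool.Agent.Lib.MP_361a6f_ag.FL.E.DC.VM
import Pool.Agent.Lib.MP_361a6f_ag.FL.E.DC.VS
import Pool.Agent.Lib.MP_361a6f_ag.FL.E.RatU

/-!
# Linear independence and numerical equivalence
-/

open CategoryTheory AlgebraicGeometry MonoidalCategory CartesianMonoidalCategory Polynomial

universe u w

set_option autoImplicit false
set_option linter.unusedSectionVars false

namespace Pool.Agent.Lib.MP_361a6f_ag.FL.E.VW

open Pool.Agent.Lib.MP_361a6f_ag.H3 Pool.Agent.Lib.MP_361a6f_ag.SQ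
  Pool.Agent.Lib.MP_361a6f_ag.PP D4 VL

noncomputable section

/-! ### Real interpolation -/

/-- interpolation with real coefficients on a set stable under conjugation -/
theorem real_interp (s : Finset ℂ) (hs : ∀ a ∈ s, starRingEnd ℂ a ∈ s) (f : ℂ → ℂ)
    (hf : ∀ a ∈ s, f (starRingEnd ℂ a) = starRingEnd ℂ (f a)) :
    ∃ (n : ℕ) (c : Fin n → ℝ), ∀ a ∈ s, ∑ k, (c k : ℂ) * a ^ (k : ℕ) = f a := by
  obtain ⟨p, hp⟩ := exists_interp s f
  refine ⟨p.natDegree + 1, fun k => (p.coeff k).re, fun a ha => ?_⟩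
  have h1 : ∀ b ∈ s, ∑ k : Fin (p.natDegree + 1), p.coeff k * b ^ (k : ℕ) = f b := by
    intro b hb
    rw [← hp b hb, eval_eq_sum_range, Finset.sum_range]
  have h2 := congrArg (starRingEnd ℂ) (h1 _ (hs a ha))
  rw [hf a ha, Complex.conj_conj, map_sum] at h2
  have h3 : ∑ k : Fin (p.natDegree + 1), starRingEnd ℂ (p.coeff k) * a ^ (k : ℕ) = f a := by
    rw [← h2]
    refine Finset.sum_congr rfl fun k _ => ?_
    rw [map_mul, map_pow, Complex.conj_conj]
  have h4 : ∑ k : Fin (p.natDegree + 1), (((p.coeff k).re : ℝ) : ℂ) * a ^ (k : ℕ) =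
      (∑ k : Fin (p.natDegree + 1), p.coeff k * a ^ (k : ℕ) +
        ∑ k : Fin (p.natDegree + 1), starRingEnd ℂ (p.coeff k) * a ^ (k : ℕ)) / 2 := by
    rw [← Finset.sum_add_distrib, Finset.sum_div]
    refine Finset.sum_congr rfl fun k _ => ?_
    rw [← add_mul, Complex.add_conj]
    push_cast
    ring
  rw [h4, h1 a ha, h3]
  ring

/-! ### The unitary isometries -/

section unit

variable {k : Type u} [Field k] {W : CohomologyData.{u, 0, w} k ℂ} {𝒱 : VarietyClass k}
  {X : Sch k} {d : ℕ} (L : Letters W X) (hW : IsWeilCohomology W 𝒱) (hX : 𝒱.mem X d)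

/-- the unitary diagonal maps -/
def UT (L : Letters W X) : Type :=
  {t : L.S → ℂ // ∀ x, ‖t x‖ = 1 ∧ t x * t (L.τ x) = 1}

/-- the unitary isometries -/
def fu (i : UT L) (P : Prd 1) : W.coh (P.obj fun _ => X) →ₗ[ℂ] W.coh (P.obj fun _ => X) :=
  tp hW hX (dia L i.1) P

theorem goodU : Good W (fun _ : Fin 1 => X) (fu L hW hX) := by
  refine ⟨?_, ?_, ?_, fun i P Q y x => tp_ext hW hX (dia L i.1) P Q y x, ?_⟩
  · intro i j P z
    have e := eq_of_vec L P (tp hW hX (dia L i.1) P ∘ₗ tp hW hX (dia L j.1) P)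
      (tp hW hX (dia L j.1) P ∘ₗ tp hW hX (dia L i.1) P) (fun w => by
        rw [LinearMap.comp_apply, LinearMap.comp_apply, tp_vec, tp_vec, map_smul, map_smul,
          tp_vec, tp_vec, smul_comm]) hW hX
    exact LinearMap.congr_fun e z
  · intro i P j z hz
    have hm := memX (𝒱 := 𝒱) hX P
    have h3 : z ∈ W.gr (P.obj fun _ : Fin 1 => X) (2 * j) := by
      have hle : EQ.CAlg W (P.obj fun _ : Fin 1 => X) j ≤ W.gr (P.obj fun _ : Fin 1 => X) (2 * j) :=
        Submodule.span_le.2 fun y hy => hW.alg_gr hm hy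
      exact hle hz
    exact st_gr hW hm (spanOp_st hW hm (tp_spanOp L hW hX i.1 P) (sp_le hW _ j hz))
      (tp_gr L hW hX i.1 P (2 * j) h3)
  · intro i P x y
    exact tp_tr L hW hX (fun x => (i.2 x).2) P x y
  · intro P j z hz hfix hn
    refine hW.duality (memX hX P) z fun y => ?_
    have hy : y ∈ Submodule.span ℂ (Set.range (vec L P)) := by rw [span_vec L hW hX P]; trivial
    induction hy using Submodule.span_induction with
    | mem y hy =>
      obtain ⟨w, rfl⟩ := hy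
      by_cases hB : Bal L.τ ((ls L P w).map L.s)
      · exact num_st hW hn (vec_st L hW hX P w hB)
      · have h1 : ∃ t : L.S → ℂ, (∀ x, ‖t x‖ = 1 ∧ t x * t (L.τ x) = 1) ∧
            (((ls L P w).map L.s).map t).prod ≠ 1 := by
          by_contra hcon
          push Not at hcon
          exact hB (bal_of_prod L.hτ hcon)
        obtain ⟨t, ht, hne⟩ := h1
        have h3 : tp hW hX (dia L t) P z = z := hfix ⟨t, ht⟩
        have h4 := tp_tr L hW hX (fun x => (ht x).2) P z (vec L P w)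
        rw [h3, tp_vec, mul_smul_comm, map_smul, smul_eq_mul] at h4
        have h5 : ((((ls L P w).map L.s).map t).prod - 1) * W.tr (EQ.pw X P) (z * vec L P w) = 0 := by
          rw [sub_mul, one_mul, h4, sub_self]
        exact (mul_eq_zero.1 h5).resolve_left (sub_ne_zero.2 hne)
    | zero => rw [mul_zero, map_zero]
    | add a b _ _ ha hb => rw [mul_add, map_add, ha, hb, add_zero]
    | smul c a _ ha => rw [mul_smul_comm, map_smul, ha, smul_zero]

include hW hX in
/-- a vector pairs with some word -/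
theorem char_word (P : Prd 1) {x : W.coh (EQ.pw X P)} (hx : x ≠ 0) : ∃ w : Wd L P,
    W.tr (EQ.pw X P) (x * vec L P w) ≠ 0 := by
  by_contra hcon
  push Not at hcon
  refine hx (hW.duality (memX hX P) x fun y => ?_)
  have hy : y ∈ Submodule.span ℂ (Set.range (vec L P)) := by rw [span_vec L hW hX P]; trivial
  induction hy using Submodule.span_induction with
  | mem y hy =>
    obtain ⟨w, rfl⟩ := hy
    exact hcon w
  | zero => rw [mul_zero, map_zero]
  | add a b _ _ ha hb => rw [mul_add, map_add, ha, hb, add_zero]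
  | smul c a _ ha => rw [mul_smul_comm, map_smul, ha, smul_zero]

theorem char_prod {t : L.S → ℂ} (ht : ∀ x, t x * t (L.τ x) = 1) (P : Prd 1)
    {x : W.coh (EQ.pw X P)} {w : Wd L P} (hw : W.tr (EQ.pw X P) (x * vec L P w) ≠ 0) {c : ℂ}
    (hc : tp hW hX (dia L t) P x = c • x) : c * (((ls L P w).map L.s).map t).prod = 1 := by
  have h1 := tp_tr L hW hX ht P x (vec L P w)
  rw [hc, tp_vec, smul_mul_assoc, mul_smul_comm, map_smul, map_smul, smul_eq_mul, smul_eq_mul,
    ← mul_assoc] at h1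
  exact mul_right_cancel₀ hw (h1.trans (one_mul _).symm)

/-- the eigenvalues of the unitary isometries have absolute value `1` -/
theorem char_norm (i : UT L) (P : Prd 1) {x : W.coh (EQ.pw X P)} (hx : x ≠ 0) {c : ℂ}
    (hc : fu L hW hX i P x = c • x) : ‖c‖ = 1 := by
  obtain ⟨w, hw⟩ := char_word L hW hX P hx
  have h1 := char_prod L hW hX (fun x => (i.2 x).2) P hw hc
  have h2 : ∀ l : List L.S, ‖(l.map i.1).prod‖ = 1 := by
    intro l
    induction l with
    | nil => simp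
    | cons a l ih => rw [List.map_cons, List.prod_cons, norm_mul, ih, (i.2 a).1, one_mul]
  have h3 := congrArg norm h1
  rw [norm_mul, h2, mul_one, norm_one] at h3
  exact h3

end unit

/-! ### Real combinations of pull-backs -/

section real

variable {k : Type u} [Field k] {W : CohomologyData.{u, 0, w} k ℂ} {𝒱 : VarietyClass k}

/-- `u` is a real combination of pull-backs along endomorphisms -/
def RealOp (W : CohomologyData.{u, 0, w} k ℂ) (Y : Sch k) (u : W.coh Y →ₗ[ℂ] W.coh Y) : Prop :=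
  ∃ (I : Type) (_ : Fintype I) (c : I → ℝ) (G : I → (Y ⟶ Y)),
    ∀ x, u x = ∑ i, (c i : ℂ) • W.pull (G i) x

theorem realOp_ten (hW : IsWeilCohomology W 𝒱) {Y Z : Sch k} {m n : ℕ} (hY : 𝒱.mem Y m)
    (hZ : 𝒱.mem Z n) {u : W.coh Y →ₗ[ℂ] W.coh Y} {v : W.coh Z →ₗ[ℂ] W.coh Z}
    (hu : RealOp W Y u) (hv : RealOp W Z v) : RealOp W (Y ⊗ Z) (ten hW hY hZ u v) := by
  obtain ⟨I, _, c, G, h⟩ := hu
  obtain ⟨J, _, c', G', h'⟩ := hv
  refine ⟨I × J, inferInstance, fun p => c p.1 * c' p.2, fun p => G p.1 ⊗ₘ G' p.2, fun x => ?_⟩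
  let f : W.coh (Y ⊗ Z) →ₗ[ℂ] W.coh (Y ⊗ Z) :=
    ∑ p : I × J, ((c p.1 * c' p.2 : ℝ) : ℂ) • (W.pull (G p.1 ⊗ₘ G' p.2)).toLinearMap
  have hf : ∀ x, f x = ∑ p : I × J, ((c p.1 * c' p.2 : ℝ) : ℂ) • W.pull (G p.1 ⊗ₘ G' p.2) x := by
    intro x
    change (∑ p : I × J, ((c p.1 * c' p.2 : ℝ) : ℂ) • (W.pull (G p.1 ⊗ₘ G' p.2)).toLinearMap) x = _
    rw [LinearMap.sum_apply]
    rfl
  rw [← hf]
  have e : ten hW hY hZ u v = f := by
    refine lin_ext hW hY hZ _ _ fun y z => ?_
    rw [ten_gen, hf, h, h', map_sum, map_sum, Finset.sum_mul_sum, ← Finset.sum_product']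
    refine Finset.sum_congr rfl fun p _ => ?_
    rw [pull_tensorHom, map_smul, map_smul, smul_mul_assoc, mul_smul_comm, smul_smul]
    push_cast
    rfl
  rw [e]

/-- relations between algebraic classes over a finite index set may be conjugated -/
theorem conj_fin {V : Type*} [AddCommGroup V] [Module ℂ V] {A : Set V} (hA : E.RatU.ConjA A)
    {I : Type*} [Fintype I] (c : I → ℂ) (z : I → V) (hz : ∀ i, z i ∈ A)
    (h : ∑ i, c i • z i = 0) : ∑ i, starRingEnd ℂ (c i) • z i = 0 := by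
  let e := (Fintype.equivFin I).symm
  have h1 := hA (Fintype.card I) (fun i => c (e i)) (fun i => z (e i)) (fun i => hz _) (by
    rw [← h]
    exact Equiv.sum_comp e fun i => c i • z i)
  rw [← h1]
  exact (Equiv.sum_comp e fun i => starRingEnd ℂ (c i) • z i).symm

/-- **Conjugation of eigenvectors of real operators.** -/
theorem conj_eig (hW : IsWeilCohomology W 𝒱) {Y : Sch k} {m : ℕ} (hY : 𝒱.mem Y m) {j : ℕ}
    (hA : E.RatU.ConjA {z : W.coh Y | W.IsAlg Y j z}) {x : W.coh Y}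
    (hx : x ∈ EQ.CAlg W Y j) (hx0 : x ≠ 0) : ∃ y ∈ EQ.CAlg W Y j, y ≠ 0 ∧
      ∀ (u : W.coh Y →ₗ[ℂ] W.coh Y), RealOp W Y u → ∀ c : ℂ, u x = c • x →
        u y = starRingEnd ℂ c • y := by
  unfold EQ.CAlg at hx
  obtain ⟨n, a, z, rfl⟩ := Submodule.mem_span_set'.1 hx
  refine ⟨∑ i, starRingEnd ℂ (a i) • (z i : W.coh Y), ?_, ?_, ?_⟩
  · exact Submodule.sum_mem _ fun i _ => Submodule.smul_mem _ _ (Submodule.subset_span (z i).2)
  · intro h0
    apply hx0
    have h1 := hA n (fun i => starRingEnd ℂ (a i)) (fun i => (z i : W.coh Y)) (fun i => (z i).2) h0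
    rw [← h1]
    refine Finset.sum_congr rfl fun i _ => ?_
    rw [Complex.conj_conj]
  · rintro u ⟨I, _, b, G, hu⟩ c hc
    have hsum : ∀ a' : Fin n → ℂ, u (∑ i, a' i • (z i : W.coh Y)) =
        ∑ p : I × Fin n, ((b p.1 : ℂ) * a' p.2) • W.pull (G p.1) (z p.2 : W.coh Y) := by
      intro a'
      rw [hu, ← Finset.univ_product_univ, Finset.sum_product]
      refine Finset.sum_congr rfl fun i _ => ?_
      rw [map_sum, Finset.smul_sum]
      refine Finset.sum_congr rfl fun r _ => ?_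
      rw [map_smul, smul_smul]
    rw [hsum] at hc ⊢
    have h1 := conj_fin hA (I := (I × Fin n) ⊕ Fin n)
      (Sum.elim (fun p => (b p.1 : ℂ) * a p.2) fun i => -(c * a i))
      (Sum.elim (fun p => W.pull (G p.1) (z p.2 : W.coh Y)) fun i => (z i : W.coh Y))
      (by
        rintro (p | i)
        · exact hW.pull_alg hY hY (G p.1) (z p.2).2
        · exact (z i).2)
      (by
        rw [Fintype.sum_sum_type]
        simp only [Sum.elim_inl, Sum.elim_inr]
        rw [hc, Finset.smul_sum, ← Finset.sum_add_distrib]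
        refine Finset.sum_eq_zero fun i _ => ?_
        rw [neg_smul, mul_smul, add_neg_cancel])
    rw [Fintype.sum_sum_type] at h1
    simp only [Sum.elim_inl, Sum.elim_inr] at h1
    have h2 : ∑ i, starRingEnd ℂ (-(c * a i)) • (z i : W.coh Y) =
        -(starRingEnd ℂ c • ∑ i, starRingEnd ℂ (a i) • (z i : W.coh Y)) := by
      rw [Finset.smul_sum, ← Finset.sum_neg_distrib]
      refine Finset.sum_congr rfl fun i _ => ?_
      rw [map_neg, map_mul, neg_smul, mul_smul]
    rw [h2, add_neg_eq_zero] at h1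
    rw [← h1]
    refine Finset.sum_congr rfl fun p _ => ?_
    rw [map_mul, Complex.conj_ofReal]

end real

/-! ### The isometries as real operators -/

section main

variable {k : Type u} [Field k] {W : CohomologyData.{u, 0, w} k ℂ} {𝒱 : VarietyClass k}
  (hW : IsWeilCohomology W 𝒱) {X : Sch k} {d : ℕ} (hX : 𝒱.mem X d) {F : X ⟶ X} {q : ℕ}
  (hF : EQ.IsFr W X d F q)

theorem rq_conj (q : ℕ) : starRingEnd ℂ (rq q) = rq q := Complex.conj_ofReal _

/-- the label of the conjugate -/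
theorem lab_conj {q : ℕ} (hq : 1 < q) {a : ℂ} {n : ℕ} (ha : ‖a‖ ^ 2 = (q : ℝ) ^ n) :
    lab q (starRingEnd ℂ a) n = dl (lab q a n) := by
  have hr := rq_ne hq
  have h1 : a * starRingEnd ℂ a = rq q ^ n * rq q ^ n := by
    rw [Complex.mul_conj, Complex.normSq_eq_norm_sq, ha, ← pow_add, ← two_mul, rq_pow]
    push_cast
    rfl
  have ha0 : a ≠ 0 := by
    rintro rfl
    rw [zero_mul] at h1
    exact mul_ne_zero (pow_ne_zero n hr) (pow_ne_zero n hr) h1.symm
  refine Prod.ext ?_ rfl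
  change starRingEnd ℂ a / rq q ^ n = (a / rq q ^ n)⁻¹
  rw [inv_div, div_eq_div_iff (pow_ne_zero n hr) ha0, mul_comm, h1]

include hW hX in
theorem pull_iterS (c : ℕ) {x : W.coh X} {a : ℂ} (h : W.pull F x = a • x) :
    W.pull (iterHom F c) x = a ^ c • x := by
  induction c with
  | zero => rw [pow_zero, one_smul]; exact W.pull_id x
  | succ c ih =>
    change W.pull (iterHom F c ≫ F) x = _
    rw [W.pull_comp, h, map_smul, ih, smul_smul, pow_succ, mul_comm]

/-- **The unitary isometries of `H^*(X)` are real polynomials in `F^*`.** -/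
theorem dia_real (hT : EQ.TateTwo W X F q) {G : Set (W.coh X)} (B : EigB W X F G)
    (hw : EQ.Weights W X F q) (i : UT (letT hW hX hF hT B)) :
    RealOp W X (dia (letT hW hX hF hT B) i.1) := by
  classical
  have hfin : Fintype B.ι := B.fin
  let N : ℂ → ℕ := fun a => if h : ∃ n : ℕ, ‖a‖ ^ 2 = (q : ℝ) ^ n then h.choose else 0
  have hN : ∀ a n, ‖a‖ ^ 2 = (q : ℝ) ^ n → N a = n := by
    intro a n h
    have h1 : ∃ n : ℕ, ‖a‖ ^ 2 = (q : ℝ) ^ n := ⟨n, h⟩
    have e : N a = h1.choose := dif_pos h1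
    have h2 : (q : ℝ) ^ h1.choose = (q : ℝ) ^ n := by rw [← h1.choose_spec, h]
    rw [e]
    have hq1 : (1 : ℝ) < q := by exact_mod_cast hF.one_lt
    exact pow_right_injective₀ (by linarith) (ne_of_gt hq1) h2
  let t : ℂ × ℕ → ℂ := i.1
  have ht : ∀ x : ℂ × ℕ, ‖t x‖ = 1 ∧ t x * t (dl x) = 1 := i.2
  let f : ℂ → ℂ := fun a => t (lab q a (N a))
  let s : Finset ℂ := Finset.univ.image B.a ∪ (Finset.univ.image B.a).image (starRingEnd ℂ)
  have hwt : ∀ j, ‖B.a j‖ ^ 2 = (q : ℝ) ^ B.deg j := fun j =>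
    hw (B.deg j) (B.a j) (B.e j) (B.gr j) (B.lin.ne_zero j) (B.eig j)
  have hs1 : ∀ a ∈ s, ∃ n : ℕ, ‖a‖ ^ 2 = (q : ℝ) ^ n := by
    intro a ha
    rcases Finset.mem_union.1 ha with h | h
    · obtain ⟨j, -, rfl⟩ := Finset.mem_image.1 h
      exact ⟨_, hwt j⟩
    · obtain ⟨b, hb, rfl⟩ := Finset.mem_image.1 h
      obtain ⟨j, -, rfl⟩ := Finset.mem_image.1 hb
      exact ⟨B.deg j, by rw [Complex.norm_conj, hwt j]⟩
  have hs2 : ∀ a ∈ s, starRingEnd ℂ a ∈ s := by
    intro a ha
    rcases Finset.mem_union.1 ha with h | h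
    · exact Finset.mem_union_right _ (Finset.mem_image_of_mem _ h)
    · obtain ⟨b, hb, rfl⟩ := Finset.mem_image.1 h
      rw [Complex.conj_conj]
      exact Finset.mem_union_left _ hb
  have hf : ∀ a ∈ s, f (starRingEnd ℂ a) = starRingEnd ℂ (f a) := by
    intro a ha
    obtain ⟨n, hn⟩ := hs1 a ha
    have h1 : N a = n := hN a n hn
    have h2 : N (starRingEnd ℂ a) = n := hN _ n (by rw [Complex.norm_conj, hn])
    change t (lab q (starRingEnd ℂ a) (N (starRingEnd ℂ a))) = starRingEnd ℂ (t (lab q a (N a)))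
    rw [h1, h2, lab_conj hF.one_lt hn]
    have h3 := ht (lab q a n)
    have h4 : starRingEnd ℂ (t (lab q a n)) = (t (lab q a n))⁻¹ :=
      (Complex.inv_eq_conj h3.1).symm
    rw [h4]
    exact eq_inv_of_mul_eq_one_right h3.2
  obtain ⟨n, c, hc⟩ := real_interp s hs2 f hf
  refine ⟨Fin n, inferInstance, c, fun r => iterHom F r, fun x => ?_⟩
  let g : W.coh X →ₗ[ℂ] W.coh X :=
    ∑ r : Fin n, ((c r : ℝ) : ℂ) • (W.pull (iterHom F (r : ℕ))).toLinearMap
  have hg : ∀ x, g x = ∑ r : Fin n, ((c r : ℝ) : ℂ) • W.pull (iterHom F (r : ℕ)) x := by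
    intro x
    change (∑ r : Fin n, ((c r : ℝ) : ℂ) • (W.pull (iterHom F (r : ℕ))).toLinearMap) x = _
    rw [LinearMap.sum_apply]
    rfl
  rw [← hg]
  have e : dia (letT hW hX hF hT B) i.1 = g := by
    refine LinearMap.ext_on (s := Set.range B.e) B.span ?_
    rintro _ ⟨j, rfl⟩
    have h1 : dia (letT hW hX hF hT B) i.1 (B.e j) = t (lab q (B.a j) (B.deg j)) • B.e j :=
      dia_apply (letT hW hX hF hT B) i.1 j
    rw [h1, hg]
    have h2 : f (B.a j) = t (lab q (B.a j) (B.deg j)) := by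
      change t (lab q (B.a j) (N (B.a j))) = _
      rw [hN _ _ (hwt j)]
    rw [← h2, ← hc (B.a j) (Finset.mem_union_left _ (Finset.mem_image_of_mem _
      (Finset.mem_univ j))), Finset.sum_smul]
    refine Finset.sum_congr rfl fun r _ => ?_
    rw [pull_iterS hW hX r (B.eig j), smul_smul]
  rw [e]

theorem tp_real (hT : EQ.TateTwo W X F q) {G : Set (W.coh X)} (B : EigB W X F G)
    (hw : EQ.Weights W X F q) (i : UT (letT hW hX hF hT B)) :
    ∀ P : Prd 1, RealOp W (EQ.pw X P) (tp hW hX (dia (letT hW hX hF hT B) i.1) P) := by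
  intro P
  induction P with
  | leaf a => exact dia_real hW hX hF hT B hw i
  | prod P Q hP hQ => exact realOp_ten hW (memX hX P) (memX hX Q) hP hQ

include hW hX hF in
/-- **Linear independence over `ℂ` implies that numerical equivalence is homological
equivalence.** -/
theorem num_of_indep (hT : EQ.TateTwo W X F q) (hw : EQ.Weights W X F q) (P : Prd 1) (j : ℕ)
    (hi : EQ.Independent W (EQ.pw X P) j) : EQ.NumHomIn W (EQ.pw X P) j := by
  obtain ⟨B⟩ := exists_eigBT hW hX hF hT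
  set L := letT hW hX hF hT B with hL
  have G := goodU L hW hX
  have mem := memX (𝒱 := 𝒱) (X := X) hX
  have hfin : Module.Finite ℂ (W.coh (P.obj fun _ : Fin 1 => X)) := hW.finite (mem P)
  have hA : E.RatU.ConjA {z : W.coh (EQ.pw X P) | W.IsAlg (EQ.pw X P) j z} :=
    E.RatU.conj_of_indep fun n z hz hq c hc =>
      congrFun (hi n z hz (fun q hq0 => funext (hq q hq0)) c hc)
  intro x hx hn
  by_contra hx0
  let K : Submodule ℂ (W.coh (P.obj fun _ : Fin 1 => X)) :=
    { carrier := {z | z ∈ EQ.CAlg W (P.obj fun _ : Fin 1 => X) j ∧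
        EQ.NumTriv W (Y := P.obj fun _ : Fin 1 => X) z}
      add_mem' := fun {a b} ha hb => ⟨add_mem ha.1 hb.1, fun l y hy => by
        change W.tr _ ((a + b) * y) = 0
        have h1 : W.tr _ (a * y) = 0 := ha.2 l y hy
        have h2 : W.tr _ (b * y) = 0 := hb.2 l y hy
        rw [add_mul, map_add, h1, h2, add_zero]⟩
      zero_mem' := ⟨zero_mem _, fun l y _ => by
        change W.tr _ (0 * y) = 0
        rw [zero_mul, map_zero]⟩
      smul_mem' := fun c a ha => ⟨Submodule.smul_mem _ c ha.1, fun l y hy => by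
        change W.tr _ (c • a * y) = 0
        have h1 : W.tr _ (a * y) = 0 := ha.2 l y hy
        rw [smul_mul_assoc, map_smul, h1, smul_zero]⟩ }
  have hK : K ≠ ⊥ := fun h => hx0 (by
    have : x ∈ K := ⟨hx, hn⟩
    rwa [h, Submodule.mem_bot] at this)
  obtain ⟨z, hz, hz0, χ, hχ⟩ := exists_eig (T := fun i => fu L hW hX i P)
    (fun i i' => LinearMap.ext fun w => G.comm i i' P w) hK
    (fun i w hw => ⟨G.pres i P j w hw.1, G.num hW mem i P hw.2⟩)
  refine (G.zero_one hW mem hz.1 hz0 hχ).1 hz.2 ?_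
  obtain ⟨y, hy, hy0, hyu⟩ := conj_eig hW (mem P) hA hz.1 hz0
  refine ⟨P, j, y, hy, hy0, fun i => ?_⟩
  have h1 := hyu (fu L hW hX i P) (tp_real hW hX hF hT B hw i P) (χ i) (hχ i)
  refine h1.trans ?_
  change _ = (χ i)⁻¹ • y
  rw [Complex.inv_eq_conj (char_norm L hW hX i P hz0 (hχ i))]

end main

end

end Pool.Agent.Lib.MP_361a6f_ag.FL.E.VW
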