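import Pool.Agent.Lib.MP_361a6f_ag.FL.E.DC.VO
import Pool.Agent.Lib.MP_361a6f_ag.FL.E.D4p

/-!
# The group of the isometries
-/

open CategoryTheory AlgebraicGeometry MonoidalCategory CartesianMonoidalCategory

universe u w

set_option autoImplicit false
set_option linter.unusedSectionVars false

namespace Pool.Agent.Lib.MP_361a6f_ag.FL.E.VW

open Pool.Agent.Lib.MP_361a6f_ag.H3 Pool.Agent.Lib.MP_361a6f_ag.SQ
  Pool.Agent.Lib.MP_361a6f_ag.PP D4 VL

noncomputable section

variable {k : Type u} [Field k] {W : CohomologyData.{u, 0, w} k ℂ} {𝒱 : VarietyClass k}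
  {X : Sch k} {d : ℕ} (L : Letters W X) (hW : IsWeilCohomology W 𝒱) (hX : 𝒱.mem X d)

/-- a diagonal map gives an isometry -/
theorem dia_iso {t : L.S → ℂ} (ht : ∀ x, t x * t (L.τ x) = 1) :
    EQ.IsIso W X fun P z => tp hW hX (dia L t) P z := by
  refine ⟨tp_tensor hW hX (dia L t), ?_, ?_⟩
  · intro l z hz x
    change dia L t (EQ.act W z x) = EQ.act W z (dia L t x)
    have hx : (x : W.coh X) ∈ Submodule.span ℂ (Set.range L.e) := by rw [L.span]; trivial
    have e : ∀ y : W.coh X, EQ.act W z y = actC W z y := fun y => rfl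
    rw [e, e]
    induction hx using Submodule.span_induction with
    | mem x hx =>
      obtain ⟨i, rfl⟩ := hx
      have h1 : actC W z (L.e i) ∈ Submodule.span ℂ {y | ∃ j, L.s j = L.s i ∧ y = L.e j} :=
        L.stab l z hz i
      rw [dia_apply, map_smul]
      generalize actC W z (L.e i) = y at h1 ⊢
      induction h1 using Submodule.span_induction with
      | mem y hy =>
        obtain ⟨j, hj, rfl⟩ := hy
        rw [dia_apply, hj]
      | zero => rw [map_zero, smul_zero]
      | add a b _ _ ha hb => rw [map_add, ha, hb, smul_add]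
      | smul c a _ ha => rw [map_smul, ha, smul_comm]
    | zero => rw [map_zero, map_zero, map_zero]
    | add a b _ _ ha hb => rw [map_add, map_add, map_add, map_add, ha, hb]
    | smul c a _ ha => rw [map_smul, map_smul, map_smul, map_smul, ha]
  · intro x y
    exact tp_tr L hW hX ht (.leaf 0) x y

include hW hX in
/-- some letter is dual to a given one -/
theorem exists_dual_idx (j : L.ι) : ∃ k, L.s k = L.τ (L.s j) ∧ W.tr X (L.e j * L.e k) ≠ 0 := by
  have h1 : ∃ k, W.tr X (L.e j * L.e k) ≠ 0 := by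
    by_contra hcon
    push Not at hcon
    refine L.lin.ne_zero j (hW.duality hX _ fun y => ?_)
    have hy : y ∈ Submodule.span ℂ (Set.range L.e) := by rw [L.span]; trivial
    induction hy using Submodule.span_induction with
    | mem y hy =>
      obtain ⟨k, rfl⟩ := hy
      exact hcon k
    | zero => rw [mul_zero, map_zero]
    | add a b _ _ ha hb => rw [mul_add, map_add, ha, hb, add_zero]
    | smul c a _ ha => rw [mul_smul_comm, map_smul, ha, smul_zero]
  obtain ⟨k, hk⟩ := h1
  refine ⟨k, ?_, hk⟩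
  by_contra hcon
  exact hk (L.ortho j k hcon)

include hW hX in
/-- **Every isometry is diagonal.** -/
theorem iso_dia {T : ∀ P : Prd 1, W.coh (EQ.pw X P) → W.coh (EQ.pw X P)}
    (hT : EQ.IsIso W X T) : ∃ t : L.S → ℂ, (∀ x, t x * t (L.τ x) = 1) ∧
      ∀ P z, T P z = tp hW hX (dia L t) P z := by
  classical
  let T0 : W.coh X →ₗ[ℂ] W.coh X :=
    { toFun := T (.leaf 0), map_add' := hT.tensor.add (.leaf 0),
      map_smul' := hT.tensor.scal (.leaf 0) }
  have hT0 : ∀ x : W.coh X, T (.leaf 0) x = T0 x := fun x => rfl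
  -- commutation with complex combinations
  have comm : ∀ z ∈ St W (X ⊗ X), ∀ x, T0 (actC W z x) = actC W z (T0 x) := by
    intro z hz
    refine st_ind hW (p := fun z => ∀ x, T0 (actC W z x) = actC W z (T0 x)) hz ?_ ?_ ?_ ?_
    · intro z hz
      refine tot_induction hW (P := fun z => ∀ x, T0 (actC W z x) = actC W z (T0 x)) hz ?_ ?_
      · intro l z hz x
        exact hT.comm l z hz x
      · intro a b ha hb x
        have e : ∀ x : W.coh X, actC W (a + b) x = actC W a x + actC W b x := fun x => by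
          change W.push _ (W.pull _ x * (a + b)) = W.push _ (W.pull _ x * a) +
            W.push _ (W.pull _ x * b)
          rw [mul_add, map_add]
        rw [e, e, map_add, ha, hb]
    · intro x
      have e : ∀ x : W.coh X, actC W (0 : W.coh (X ⊗ X)) x = 0 := fun x => by
        change W.push _ (W.pull _ x * 0) = 0
        rw [mul_zero, map_zero]
      rw [e, e, map_zero]
    · intro a b ha hb x
      have e : ∀ x : W.coh X, actC W (a + b) x = actC W a x + actC W b x := fun x => by
        change W.push _ (W.pull _ x * (a + b)) = W.push _ (W.pull _ x * a) +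
          W.push _ (W.pull _ x * b)
        rw [mul_add, map_add]
      rw [e, e, map_add, ha, hb]
    · intro c a ha x
      have e : ∀ x : W.coh X, actC W (c • a) x = c • actC W a x := fun x => by
        change W.push _ (W.pull _ x * (c • a)) = c • W.push _ (W.pull _ x * a)
        rw [mul_smul_comm, map_smul]
      rw [e, e, map_smul, ha]
  have key : ∀ k j, L.s j = L.τ (L.s k) → ∀ u, W.tr X (u * L.e k) • T0 (L.e j) =
      W.tr X (T0 u * L.e k) • L.e j := by
    intro k j hkj u
    have h1 := comm _ (L.pair k j hkj) u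
    have e : ∀ u, actC W (W.pull (fst X X) (L.e k) * W.pull (snd X X) (L.e j)) u =
        W.tr X (u * L.e k) • L.e j := fun u => act_ext hW hX (L.e k) (L.e j) u
    rw [e, e, map_smul] at h1
    exact h1
  choose κ hκ hκ' using exists_dual_idx L hW hX
  -- the eigenvalues
  have h1 : ∀ j j', L.s j' = L.s j → T0 (L.e j') =
      (W.tr X (T0 (L.e j) * L.e (κ j)) / W.tr X (L.e j * L.e (κ j))) • L.e j' := by
    intro j j' hjj
    have h2 := key (κ j) j' (by rw [hjj, hκ, L.hτ]) (L.e j)
    rw [div_eq_inv_mul, mul_smul, ← h2, smul_smul, inv_mul_cancel₀ (hκ' j), one_smul]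
  let t : L.S → ℂ := fun x => if h : ∃ j, L.s j = x then
    W.tr X (T0 (L.e h.choose) * L.e (κ h.choose)) / W.tr X (L.e h.choose * L.e (κ h.choose)) else 1
  have ht : ∀ j, T0 (L.e j) = t (L.s j) • L.e j := by
    intro j
    have h2 : ∃ j', L.s j' = L.s j := ⟨j, rfl⟩
    have e : t (L.s j) = W.tr X (T0 (L.e h2.choose) * L.e (κ h2.choose)) /
        W.tr X (L.e h2.choose * L.e (κ h2.choose)) := dif_pos h2
    rw [e]
    exact h1 h2.choose j h2.choose_spec.symm
  have hd : T0 = dia L t := by
    refine (bs L).ext fun i => ?_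
    rw [bs_apply, dia_apply, ht]
  refine ⟨t, ?_, tensor_eq hW hX hT.tensor (dia L t) fun x => by rw [hT0, hd]⟩
  intro x
  by_cases hx : ∃ j, L.s j = x
  · obtain ⟨j, rfl⟩ := hx
    have h3 := hT.form (L.e j) (L.e (κ j))
    have h4 : W.tr X (T0 (L.e j) * T0 (L.e (κ j))) = W.tr X (L.e j * L.e (κ j)) := h3
    rw [ht, ht, smul_mul_assoc, mul_smul_comm, map_smul, map_smul, smul_eq_mul, smul_eq_mul,
      ← mul_assoc, hκ] at h4
    exact mul_right_cancel₀ (hκ' j) (h4.trans (one_mul _).symm)
  · have hx' : ¬ ∃ j, L.s j = L.τ x := by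
      rintro ⟨j, hj⟩
      exact hx ⟨κ j, by rw [hκ, hj, L.hτ]⟩
    have e1 : t x = 1 := dif_neg hx
    have e2 : t (L.τ x) = 1 := dif_neg hx'
    rw [e1, e2, mul_one]

/-- the isometries as linear maps -/
def fi (W : CohomologyData.{u, 0, w} k ℂ) (X : Sch k) (i : {T // EQ.IsIso W X T}) (P : Prd 1) :
    W.coh (P.obj fun _ => X) →ₗ[ℂ] W.coh (P.obj fun _ => X) :=
  { toFun := i.1 P, map_add' := i.2.tensor.add P, map_smul' := i.2.tensor.scal P }

include L hW hX in
theorem fi_dia (i : {T // EQ.IsIso W X T}) : ∃ t : L.S → ℂ, (∀ x, t x * t (L.τ x) = 1) ∧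
    ∀ P, fi W X i P = tp hW hX (dia L t) P := by
  obtain ⟨t, ht, h⟩ := iso_dia L hW hX i.2
  exact ⟨t, ht, fun P => LinearMap.ext fun z => h P z⟩

include L hW hX in
/-- the isometries preserve the complex combinations of algebraic classes -/
theorem fi_st (i : {T // EQ.IsIso W X T}) (P : Prd 1) {z : W.coh (P.obj fun _ => X)}
    (hz : z ∈ St W (P.obj fun _ => X)) : fi W X i P z ∈ St W (P.obj fun _ => X) := by
  obtain ⟨t, ht, h⟩ := fi_dia L hW hX i
  rw [h]
  exact spanOp_st hW (memX hX P) (tp_spanOp L hW hX t P) hz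

include L hW hX in
theorem fi_gr (i : {T // EQ.IsIso W X T}) (P : Prd 1) (n : ℕ) {z : W.coh (P.obj fun _ => X)}
    (hz : z ∈ W.gr (P.obj fun _ => X) n) : fi W X i P z ∈ W.gr (P.obj fun _ => X) n := by
  obtain ⟨t, ht, h⟩ := fi_dia L hW hX i
  rw [h]
  exact tp_gr L hW hX t P n hz

include L hW hX in
/-- **The isometries have the five properties.** -/
theorem goodV : Good W (fun _ : Fin 1 => X) (fi W X) := by
  refine ⟨?_, ?_, ?_, fun i => i.2.tensor.ext, ?_⟩
  · intro i j P z
    obtain ⟨t, ht, h⟩ := fi_dia L hW hX i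
    obtain ⟨t', ht', h'⟩ := fi_dia L hW hX j
    rw [h, h']
    have e := eq_of_vec L P (tp hW hX (dia L t) P ∘ₗ tp hW hX (dia L t') P)
      (tp hW hX (dia L t') P ∘ₗ tp hW hX (dia L t) P) (fun w => by
        rw [LinearMap.comp_apply, LinearMap.comp_apply, tp_vec, tp_vec, map_smul, map_smul,
          tp_vec, tp_vec, smul_comm]) hW hX
    exact LinearMap.congr_fun e z
  · intro i P j z hz
    have hm := memX (𝒱 := 𝒱) hX P
    have h3 : z ∈ W.gr (P.obj fun _ : Fin 1 => X) (2 * j) := by
      have hle : EQ.CAlg W (P.obj fun _ : Fin 1 => X) j ≤ W.gr (P.obj fun _ : Fin 1 => X) (2 * j) :=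
        Submodule.span_le.2 fun y hy => hW.alg_gr hm hy
      exact hle hz
    exact st_gr hW hm (fi_st L hW hX i P (sp_le hW _ j hz)) (fi_gr L hW hX i P (2 * j) h3)
  · intro i P x y
    obtain ⟨t, ht, h⟩ := fi_dia L hW hX i
    rw [h]
    exact tp_tr L hW hX ht P x y
  · intro P j z hz hfix hn
    refine hW.duality (memX hX P) z fun y => ?_
    have hy : y ∈ Submodule.span ℂ (Set.range (vec L P)) := by rw [span_vec L hW hX P]; trivial
    induction hy using Submodule.span_induction with
    | mem y hy =>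
      obtain ⟨w, rfl⟩ := hy
      by_cases hB : Bal L.τ ((ls L P w).map L.s)
      · exact num_st hW hn (vec_st L hW hX P w hB)
      · have h1 : ∃ t : L.S → ℂ, (∀ x, t x * t (L.τ x) = 1) ∧
            (((ls L P w).map L.s).map t).prod ≠ 1 := by
          by_contra hcon
          push Not at hcon
          exact hB (bal_of_prod L.hτ fun t ht => hcon t fun x => (ht x).2)
        obtain ⟨t, ht, hne⟩ := h1
        have h2 := hfix ⟨_, dia_iso L hW hX ht⟩
        have h3 : tp hW hX (dia L t) P z = z := h2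
        have h4 := tp_tr L hW hX ht P z (vec L P w)
        rw [h3, tp_vec, mul_smul_comm, map_smul, smul_eq_mul] at h4
        have h5 : ((((ls L P w).map L.s).map t).prod - 1) * W.tr (EQ.pw X P) (z * vec L P w) = 0 := by
          rw [sub_mul, one_mul, h4, sub_self]
        exact (mul_eq_zero.1 h5).resolve_left (sub_ne_zero.2 hne)
    | zero => rw [mul_zero, map_zero]
    | add a b _ _ ha hb => rw [mul_add, map_add, ha, hb, add_zero]
    | smul c a _ ha => rw [mul_smul_comm, map_smul, ha, smul_zero]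

end

end Pool.Agent.Lib.MP_361a6f_ag.FL.E.VW
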