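import Pool.Agent.Lib.MP_361a6f_ag.FL.E.DC.VW
import Pool.Agent.Lib.MP_361a6f_ag.FL.E.D4p
import Pool.Agent.Lib.MP_361a6f_ag.SQ.Crit
import Pool.Agent.Lib.MP_361a6f_ag.H3.Frob

/-!
# Letters for a variety with a Frobenius endomorphism
-/

open CategoryTheory AlgebraicGeometry MonoidalCategory CartesianMonoidalCategory

universe u w

set_option autoImplicit false
set_option linter.unusedSectionVars false

namespace Pool.Agent.Lib.MP_361a6f_ag.FL.E.VW

open Pool.Agent.Lib.MP_361a6f_ag.H3 Pool.Agent.Lib.MP_361a6f_ag.SQ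
  Pool.Agent.Lib.MP_361a6f_ag.PP D4 VL

noncomputable section

section lin

/-- an eigenvector in the span of eigenvectors is a combination of those with its eigenvalue -/
theorem eig_span {V : Type*} [AddCommGroup V] [Module ℂ V] (ψ : Module.End ℂ V) {G : Set V}
    (hG : ∀ g ∈ G, ∃ a : ℂ, ψ g = a • g) {z : V} (hz : z ∈ Submodule.span ℂ G) {μ : ℂ}
    (hμ : ψ z = μ • z) : z ∈ Submodule.span ℂ {g | g ∈ G ∧ ψ g = μ • g} := by
  have h1 : Submodule.span ℂ G ≤ Submodule.span ℂ {g | g ∈ G ∧ ψ g = μ • g} ⊔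
      ⨆ ν, ⨆ _ : ν ≠ μ, Module.End.eigenspace ψ ν := by
    refine Submodule.span_le.2 fun g hg => ?_
    obtain ⟨a, ha⟩ := hG g hg
    by_cases h : a = μ
    · subst h
      exact Submodule.mem_sup_left (Submodule.subset_span ⟨hg, ha⟩)
    · refine Submodule.mem_sup_right ?_
      exact Submodule.mem_iSup_of_mem a (Submodule.mem_iSup_of_mem h
        (Module.End.mem_eigenspace_iff.2 ha))
  obtain ⟨u, hu, w, hw, huw⟩ := Submodule.mem_sup.1 (h1 hz)
  have h2 : Submodule.span ℂ {g | g ∈ G ∧ ψ g = μ • g} ≤ Module.End.eigenspace ψ μ :=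
    Submodule.span_le.2 fun g hg => Module.End.mem_eigenspace_iff.2 hg.2
  have h3 : w ∈ Module.End.eigenspace ψ μ := by
    have e : w = z - u := by rw [← huw]; abel
    rw [e]
    exact sub_mem (Module.End.mem_eigenspace_iff.2 hμ) (h2 hu)
  have h4 := (Module.End.eigenspaces_iSupIndep ψ) μ
  have h5 : w = 0 := Submodule.disjoint_def.1 h4 w h3 hw
  rw [← huw, h5, add_zero]
  exact hu

end lin

variable {k : Type u} [Field k] {W : CohomologyData.{u, 0, w} k ℂ} {𝒱 : VarietyClass k}
  (hW : IsWeilCohomology W 𝒱)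

include hW in
/-- a homogeneous class in the span of homogeneous classes is a combination of those of its
degree -/
theorem gr_span {Y : Sch k} {m : ℕ} (hY : 𝒱.mem Y m) {G : Set (W.coh Y)}
    (hG : ∀ g ∈ G, ∃ n, g ∈ W.gr Y n) {z : W.coh Y} (hz : z ∈ Submodule.span ℂ G) {N : ℕ}
    (hN : z ∈ W.gr Y N) : z ∈ Submodule.span ℂ {g | g ∈ G ∧ g ∈ W.gr Y N} := by
  obtain ⟨π, h1, h2⟩ := Crit.exists_proj hW hY N
  rw [← h1 z hN]
  clear hN
  induction hz using Submodule.span_induction with
  | mem g hg =>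
    obtain ⟨n, hn⟩ := hG g hg
    by_cases h : n = N
    · subst h
      rw [h1 g hn]
      exact Submodule.subset_span ⟨hg, hn⟩
    · rw [h2 n h g hn]
      exact zero_mem _
  | zero => rw [map_zero]; exact zero_mem _
  | add a b _ _ ha hb => rw [map_add]; exact add_mem ha hb
  | smul c a _ ha => rw [map_smul]; exact Submodule.smul_mem _ c ha

include hW in
/-- the degree of an operator -/
theorem act_gr {X : Sch k} {d : ℕ} (hX : 𝒱.mem X d) {c i : ℕ} {z : W.coh (X ⊗ X)}
    (hz : z ∈ W.gr (X ⊗ X) c) {x : W.coh X} (hx : x ∈ W.gr X i) :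
    (∀ N, i + c = N + 2 * d → EQ.act W z x ∈ W.gr X N) ∧
      (i + c < 2 * d → EQ.act W z x = 0) := by
  have hXX := 𝒱.prod hX hX
  have key : ∀ m, ∀ v ∈ W.gr X m, i + c + m ≠ 4 * d → W.tr X (EQ.act W z x * v) = 0 := by
    intro m v hv hm
    have e : W.tr X (EQ.act W z x * v) =
      W.tr (X ⊗ X) (W.pull (fst X X) x * z * W.pull (snd X X) v) := hW.push_adj hXX hX _ _ _
    rw [e]
    exact hW.tr_gr hXX (hW.mul_gr hXX (hW.mul_gr hXX (hW.pull_gr hXX hX _ hx) hz)
      (hW.pull_gr hXX hX _ hv)) (by omega)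
  have key2 : ∀ y : W.coh X, ∀ N, (∀ m, ∀ v ∈ W.gr X m, m + N ≠ 2 * d → W.tr X (y * v) = 0) →
      y ∈ W.gr X N := by
    intro y N h
    obtain ⟨π, h1, h2⟩ := Crit.exists_proj hW hX N
    have hπ : ∀ y, π y ∈ W.gr X N := by
      intro y
      refine hW.hom_induction hX (P := fun y => π y ∈ W.gr X N) y ?_ ?_ ?_
      · intro i x hx
        by_cases hi : i = N
        · subst hi; rw [h1 x hx]; exact hx
        · rw [h2 i hi x hx]; exact zero_mem _
      · rw [map_zero]; exact zero_mem _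
      · intro a b ha hb; rw [map_add]; exact add_mem ha hb
    have e : y - π y = 0 := by
      refine hW.duality hX _ fun v => ?_
      refine hW.hom_induction hX (P := fun v => W.tr X ((y - π y) * v) = 0) v ?_ ?_ ?_
      · intro m v hv
        by_cases hm : m + N = 2 * d
        · refine hW.hom_induction hX (P := fun y => W.tr X ((y - π y) * v) = 0) y ?_ ?_ ?_
          · intro i x hx
            by_cases hi : i = N
            · subst hi; rw [h1 x hx, sub_self, zero_mul, map_zero]
            · rw [h2 i hi x hx, sub_zero]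
              exact hW.tr_gr hX (hW.mul_gr hX hx hv) (by omega)
          · rw [map_zero, sub_zero, zero_mul, map_zero]
          · intro a b ha hb
            have e : a + b - π (a + b) = (a - π a) + (b - π b) := by rw [map_add]; abel
            rw [e, add_mul, map_add, ha, hb, add_zero]
        · rw [sub_mul, map_sub, h m v hv hm,
            hW.tr_gr hX (hW.mul_gr hX (hπ y) hv) (by omega), sub_zero]
      · rw [mul_zero, map_zero]
      · intro a b ha hb; rw [mul_add, map_add, ha, hb, add_zero]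
    rw [sub_eq_zero] at e
    rw [e]
    exact hπ y
  refine ⟨fun N hN => key2 _ N fun m v hv hm => key m v hv (by omega), fun hlt => ?_⟩
  refine hW.duality hX _ fun v => ?_
  refine hW.hom_induction hX (P := fun v => W.tr X (EQ.act W z x * v) = 0) v ?_ ?_ ?_
  · intro m v hv
    by_cases hm : m ≤ 2 * d
    · exact key m v hv (by omega)
    · have h0 : v = 0 := by
        refine hW.duality hX _ fun t => ?_
        refine hW.hom_induction hX (P := fun t => W.tr X (v * t) = 0) t ?_ ?_ ?_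
        · intro p t ht
          exact hW.tr_gr hX (hW.mul_gr hX hv ht) (by omega)
        · rw [mul_zero, map_zero]
        · intro a b ha hb; rw [mul_add, map_add, ha, hb, add_zero]
      rw [h0, mul_zero, map_zero]
  · rw [mul_zero, map_zero]
  · intro a b ha hb; rw [mul_add, map_add, ha, hb, add_zero]

section frob

variable {X : Sch k} {d : ℕ} (hX : 𝒱.mem X d) {F : X ⟶ X} {q : ℕ} (hF : EQ.IsFr W X d F q)

/-- a homogeneous eigenbasis taken from a set `G` -/
structure EigB (W : CohomologyData.{u, 0, w} k ℂ) (X : Sch k) (F : X ⟶ X) (G : Set (W.coh X))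
    where
  ι : Type
  fin : Fintype ι
  e : ι → W.coh X
  deg : ι → ℕ
  a : ι → ℂ
  mem : ∀ i, e i ∈ G
  lin : LinearIndependent ℂ e
  span : Submodule.span ℂ (Set.range e) = ⊤
  gr : ∀ i, e i ∈ W.gr X (deg i)
  eig : ∀ i, W.pull F (e i) = a i • e i

include hW hX in
theorem exists_eigB {G : Set (W.coh X)}
    (hG : ∀ g ∈ G, ∃ (n : ℕ) (a : ℂ), g ∈ W.gr X n ∧ W.pull F g = a • g)
    (hs : Submodule.span ℂ G = ⊤) : Nonempty (EigB W X F G) := by
  have hfin : Module.Finite ℂ (W.coh X) := hW.finite hX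
  obtain ⟨b, hb, hspan, hli⟩ := exists_linearIndependent ℂ G
  have hbf : b.Finite := hli.setFinite
  have : Fintype b := hbf.fintype
  let e := (Fintype.equivFin b).symm
  choose n a hn using hG
  refine ⟨⟨Fin (Fintype.card b), inferInstance, fun i => (e i : W.coh X),
    fun i => n (e i) (hb (e i).2), fun i => a (e i) (hb (e i).2), fun i => hb (e i).2,
    hli.comp _ e.injective, ?_, fun i => (hn _ _).1, fun i => (hn _ _).2⟩⟩
  rw [← hs, ← hspan]
  congr 1
  ext x
  constructor
  · rintro ⟨i, rfl⟩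
    exact (e i).2
  · intro hx
    refine ⟨e.symm ⟨x, hx⟩, ?_⟩
    change ((e (e.symm ⟨x, hx⟩) : b) : W.coh X) = x
    rw [Equiv.apply_symm_apply]

include hW hX hF

theorem tr_pull (x : W.coh X) : W.tr X (W.pull F x) = (q : ℂ) ^ d * W.tr X x := hF.tr x

theorem q_ne : (q : ℂ) ≠ 0 := by
  have := hF.one_lt
  exact_mod_cast (by omega : q ≠ 0)

theorem pull_inj {x : W.coh X} (h : W.pull F x = 0) : x = 0 := by
  refine hW.duality hX x fun y => ?_
  have h1 := tr_pull hW hX hF (x * y)
  rw [map_mul, h, zero_mul, map_zero] at h1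
  exact (mul_eq_zero.1 h1.symm).resolve_left (pow_ne_zero _ (q_ne hW hX hF))

theorem pull_surj (y : W.coh X) : ∃ x, W.pull F x = y := by
  have hfin : Module.Finite ℂ (W.coh X) := hW.finite hX
  have h1 : Function.Injective (W.pull F).toLinearMap := by
    rw [injective_iff_map_eq_zero]
    exact fun x hx => pull_inj hW hX hF hx
  exact LinearMap.surjective_of_injective h1 y

theorem tr_pull2 (z : W.coh (X ⊗ X)) :
    W.tr (X ⊗ X) (W.pull (F ⊗ₘ F) z) = (q : ℂ) ^ d * (q : ℂ) ^ d * W.tr (X ⊗ X) z := by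
  refine prod_induction hW hX hX (P := fun z => W.tr (X ⊗ X) (W.pull (F ⊗ₘ F) z) =
    (q : ℂ) ^ d * (q : ℂ) ^ d * W.tr (X ⊗ X) z) z ?_ ?_ ?_ ?_
  · intro y x
    rw [pull_tensorHom, hW.kunneth_tr hX hX, hW.kunneth_tr hX hX, tr_pull hW hX hF,
      tr_pull hW hX hF]
    ring
  · rw [map_zero, map_zero, mul_zero]
  · intro a b ha hb
    rw [map_add, map_add, ha, hb, map_add, mul_add]
  · intro c a ha
    rw [map_smul, map_smul, ha, map_smul, smul_eq_mul, smul_eq_mul]
    ring

/-- the action of a class with `(F × F)^* z = c z` -/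
theorem act_pull {z : W.coh (X ⊗ X)} {c : ℂ} (hz : W.pull (F ⊗ₘ F) z = c • z) (x : W.coh X) :
    (q : ℂ) ^ d • W.pull F (EQ.act W z x) = c • EQ.act W z (W.pull F x) := by
  have hXX := 𝒱.prod hX hX
  have e : ∀ x v : W.coh X, W.tr X (EQ.act W z x * v) =
      W.tr (X ⊗ X) (W.pull (fst X X) x * z * W.pull (snd X X) v) := fun x v =>
    hW.push_adj hXX hX _ _ _
  refine sub_eq_zero.1 (hW.duality hX _ fun v => ?_)
  obtain ⟨v, rfl⟩ := pull_surj hW hX hF v
  have h1 : W.tr X ((q : ℂ) ^ d • W.pull F (EQ.act W z x) * W.pull F v) =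
      (q : ℂ) ^ d * (q : ℂ) ^ d * W.tr X (EQ.act W z x * v) := by
    rw [smul_mul_assoc, map_smul, ← map_mul, tr_pull hW hX hF, smul_eq_mul, mul_assoc]
  have h2 : W.tr X (c • EQ.act W z (W.pull F x) * W.pull F v) =
      W.tr (X ⊗ X) (W.pull (F ⊗ₘ F) (W.pull (fst X X) x * z * W.pull (snd X X) v)) := by
    have e1 : W.pull (F ⊗ₘ F) (W.pull (fst X X) x) = W.pull (fst X X) (W.pull F x) := by
      have := pull_tensorHom (W := W) F F x (1 : W.coh X)
      rwa [map_one, map_one, map_one, mul_one, mul_one] at this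
    have e2 : W.pull (F ⊗ₘ F) (W.pull (snd X X) v) = W.pull (snd X X) (W.pull F v) := by
      have := pull_tensorHom (W := W) F F (1 : W.coh X) v
      rwa [map_one, map_one, map_one, one_mul, one_mul] at this
    rw [map_mul (W.pull (F ⊗ₘ F)), map_mul (W.pull (F ⊗ₘ F)), e1, e2, hz, smul_mul_assoc,
      map_smul, e, mul_smul_comm, smul_mul_assoc, map_smul]
  rw [sub_mul, map_sub, h1, h2, tr_pull2 hW hX hF, ← e, sub_self]

end frob

end

end Pool.Agent.Lib.MP_361a6f_ag.FL.E.VW
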