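import Pool.Agent.Lib.MP_361a6f_ag.FL.E.DC.VH

/-!
# Letters from the conjecture of Tate for `X × X`
-/

open CategoryTheory AlgebraicGeometry MonoidalCategory CartesianMonoidalCategory

universe u w

set_option autoImplicit false
set_option linter.unusedSectionVars false

namespace Pool.Agent.Lib.MP_361a6f_ag.FL.E.VW

open Pool.Agent.Lib.MP_361a6f_ag.H3 Pool.Agent.Lib.MP_361a6f_ag.SQ
  Pool.Agent.Lib.MP_361a6f_ag.PP D4 VL

noncomputable section

/-- the positive square root of `q` -/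
def rq (q : ℕ) : ℂ := (Real.sqrt q : ℝ)

theorem rq_sq (q : ℕ) : rq q ^ 2 = q := by
  rw [rq, ← Complex.ofReal_pow, Real.sq_sqrt (Nat.cast_nonneg q), Complex.ofReal_natCast]

theorem rq_ne {q : ℕ} (h : 1 < q) : rq q ≠ 0 := by
  intro h0
  have h1 := rq_sq q
  rw [h0, zero_pow two_ne_zero] at h1
  have : q = 0 := by exact_mod_cast h1.symm
  omega

theorem rq_pow (q l : ℕ) : rq q ^ (2 * l) = (q : ℂ) ^ l := by rw [pow_mul, rq_sq]

/-- the label of an eigenvalue in degree `n` -/
def lab (q : ℕ) (a : ℂ) (n : ℕ) : ℂ × ℕ := (a / rq q ^ n, n % 2)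

/-- the dual label -/
def dl (x : ℂ × ℕ) : ℂ × ℕ := (x.1⁻¹, x.2)

theorem dl_dl (x : ℂ × ℕ) : dl (dl x) = x := by
  rw [dl, dl, inv_inv]

variable {k : Type u} [Field k] {W : CohomologyData.{u, 0, w} k ℂ} {𝒱 : VarietyClass k}
  (hW : IsWeilCohomology W 𝒱) {X : Sch k} {d : ℕ} (hX : 𝒱.mem X d) {F : X ⟶ X} {q : ℕ}
  (hF : EQ.IsFr W X d F q)

include hW hX in
/-- the homogeneous eigenvectors span the cohomology -/
theorem span_hom (hs : ∀ x : W.coh X, x ∈ Submodule.span ℂ {y | ∃ a : ℂ, W.pb F y = W.scal a y}) :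
    Submodule.span ℂ {y : W.coh X | ∃ (n : ℕ) (a : ℂ), y ∈ W.gr X n ∧ W.pull F y = a • y} = ⊤ := by
  classical
  let _ : DirectSum.Decomposition (W.gr X) := (hW.internal hX).chooseDecomposition
  rw [eq_top_iff]
  intro x _
  have h1 : Submodule.span ℂ {y : W.coh X | ∃ a : ℂ, W.pb F y = W.scal a y} ≤
      Submodule.span ℂ {y : W.coh X | ∃ (n : ℕ) (a : ℂ), y ∈ W.gr X n ∧ W.pull F y = a • y} := by
    refine Submodule.span_le.2 ?_
    rintro y ⟨a, ha⟩
    have ha' : W.pull F y = a • y := ha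
    have key : ∀ y : W.coh X, ∀ n,
        (DirectSum.decompose (W.gr X) (W.pull F y) n : W.coh X) =
          W.pull F (DirectSum.decompose (W.gr X) y n : W.coh X) := by
      intro y n
      refine DirectSum.Decomposition.inductionOn (W.gr X) (motive := fun y =>
        (DirectSum.decompose (W.gr X) (W.pull F y) n : W.coh X) =
          W.pull F (DirectSum.decompose (W.gr X) y n : W.coh X)) ?_ ?_ ?_ y
      · rw [map_zero, DirectSum.decompose_zero, DirectSum.zero_apply, Submodule.coe_zero, map_zero]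
      · intro i z
        have h1 := hW.pull_gr hX hX F z.2
        by_cases hn : i = n
        · subst hn
          rw [DirectSum.decompose_of_mem_same _ h1, DirectSum.decompose_of_mem_same _ z.2]
        · rw [DirectSum.decompose_of_mem_ne _ h1 hn, DirectSum.decompose_of_mem_ne _ z.2 hn,
            map_zero]
      · intro a b ha hb
        rw [map_add, DirectSum.decompose_add, DirectSum.add_apply, Submodule.coe_add,
          DirectSum.decompose_add, DirectSum.add_apply, Submodule.coe_add, map_add, ha, hb]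
    rw [SetLike.mem_coe, ← DirectSum.sum_support_decompose (W.gr X) y]
    refine Submodule.sum_mem _ fun n _ => Submodule.subset_span ⟨n, a,
      (DirectSum.decompose (W.gr X) y n).2, ?_⟩
    rw [← key, ha', DirectSum.decompose_smul, DirectSum.smul_apply, Submodule.coe_smul]
  exact h1 (hs x)

include hW hX hF in
theorem exists_eigBT (hT : EQ.TateTwo W X F q) : Nonempty (EigB W X F
    {y : W.coh X | ∃ (n : ℕ) (a : ℂ), y ∈ W.gr X n ∧ W.pull F y = a • y}) :=
  exists_eigB hW hX (F := F) (fun _ hg => hg) (span_hom hW hX hT.1)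

include hW hX hF in
theorem eig_ne {G : Set (W.coh X)} (B : EigB W X F G) (i : B.ι) : B.a i ≠ 0 := by
  intro h0
  have h1 := B.eig i
  rw [h0, zero_smul] at h1
  exact B.lin.ne_zero i (pull_inj hW hX hF h1)

/-- **Letters from the conjecture of Tate for `X × X`.** -/
def letT (hT : EQ.TateTwo W X F q) {G : Set (W.coh X)} (B : EigB W X F G) : Letters W X := by
  have hXX := 𝒱.prod hX hX
  have hq := rq_ne hF.one_lt
  have hne := eig_ne hW hX hF B
  refine ⟨B.ι, B.fin, B.e, B.deg, ℂ × ℕ, dl, dl_dl, fun i => lab q (B.a i) (B.deg i), B.lin,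
    B.span, B.gr, ?_, ?_, ?_⟩
  · intro i j hij
    by_contra hcon
    apply hij
    have hdeg : B.deg i + B.deg j = 2 * d := by
      by_contra hne
      exact hcon (hW.tr_gr hX (hW.mul_gr hX (B.gr i) (B.gr j)) hne)
    have h1 := tr_pull hW hX hF (B.e i * B.e j)
    rw [map_mul (W.pull F), B.eig, B.eig, smul_mul_assoc, mul_smul_comm, map_smul, map_smul,
      smul_eq_mul, smul_eq_mul, ← mul_assoc] at h1
    have h2 : B.a i * B.a j = (q : ℂ) ^ d := mul_right_cancel₀ hcon h1
    refine Prod.ext ?_ ?_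
    · change B.a j / rq q ^ B.deg j = (B.a i / rq q ^ B.deg i)⁻¹
      rw [inv_div, div_eq_div_iff (pow_ne_zero _ hq) (hne i), mul_comm (B.a j), h2, ← rq_pow,
        ← hdeg, pow_add]
    · change B.deg j % 2 = B.deg i % 2
      omega
  · intro i j hij
    have h1 : B.a j / rq q ^ B.deg j = (B.a i / rq q ^ B.deg i)⁻¹ := congrArg Prod.fst hij
    have h2 : B.deg j % 2 = B.deg i % 2 := congrArg Prod.snd hij
    obtain ⟨l, hl⟩ : ∃ l, B.deg i + B.deg j = 2 * l := ⟨(B.deg i + B.deg j) / 2, by omega⟩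
    have h3 : B.a i * B.a j = (q : ℂ) ^ l := by
      rw [inv_div, div_eq_div_iff (pow_ne_zero _ hq) (hne i)] at h1
      rw [mul_comm, h1, ← pow_add, hl, rq_pow]
    refine sp_le hW _ l (hT.2 l _ ?_ ?_)
    · rw [← hl]
      exact hW.mul_gr hXX (hW.pull_gr hXX hX _ (B.gr i)) (hW.pull_gr hXX hX _ (B.gr j))
    · refine (pull_tensorHom F F (B.e i) (B.e j)).trans ?_
      rw [B.eig, B.eig, map_smul, map_smul, smul_mul_assoc, mul_smul_comm, smul_smul, h3]
  · intro l z hz i
    have hz1 : z ∈ W.gr (X ⊗ X) (2 * l) := hW.alg_gr hXX hz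
    have hz2 : W.pull (F ⊗ₘ F) z = (q : ℂ) ^ l • z := hF.alg (.prod (.leaf 0) (.leaf 0)) le_rfl l z hz
    have h1 := act_pull hW hX hF hz2 (B.e i)
    have hlin : EQ.act W z (B.a i • B.e i) = B.a i • EQ.act W z (B.e i) := by
      change W.push _ (W.pull _ (B.a i • B.e i) * z) = B.a i • W.push _ (W.pull _ (B.e i) * z)
      rw [map_smul, smul_mul_assoc, map_smul]
    rw [B.eig, hlin, smul_smul] at h1
    by_cases hlt : B.deg i + 2 * l < 2 * d
    · rw [(act_gr hW hX hz1 (B.gr i)).2 hlt]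
      exact zero_mem _
    · obtain ⟨N, hN⟩ : ∃ N, B.deg i + 2 * l = N + 2 * d := ⟨B.deg i + 2 * l - 2 * d, by omega⟩
      have h2 := (act_gr hW hX hz1 (B.gr i)).1 N hN
      have hqd : ((q : ℂ) ^ d) ≠ 0 := pow_ne_zero _ (q_ne hW hX hF)
      have h3 : W.pull F (EQ.act W z (B.e i)) =
          ((q : ℂ) ^ l * B.a i / (q : ℂ) ^ d) • EQ.act W z (B.e i) := by
        rw [div_eq_inv_mul, mul_smul, ← h1, smul_smul, inv_mul_cancel₀ hqd, one_smul]
      have h4 : EQ.act W z (B.e i) ∈ Submodule.span ℂ (Set.range B.e) := by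
        rw [B.span]; trivial
      have h5 := gr_span hW hX (G := Set.range B.e) (by
        rintro _ ⟨j, rfl⟩
        exact ⟨_, B.gr j⟩) h4 h2
      have h6 := eig_span (W.pull F).toLinearMap (by
        rintro _ ⟨⟨j, rfl⟩, -⟩
        exact ⟨_, B.eig j⟩) h5 h3
      refine Submodule.span_mono ?_ h6
      rintro _ ⟨⟨⟨j, rfl⟩, hj⟩, hj'⟩
      have hjN : B.deg j = N := by
        by_contra hne
        exact B.lin.ne_zero j (Crit.gr_unique hW hX hne hj (B.gr j))
      have hja : B.a j = (q : ℂ) ^ l * B.a i / (q : ℂ) ^ d := by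
        have h7 : W.pull F (B.e j) = ((q : ℂ) ^ l * B.a i / (q : ℂ) ^ d) • B.e j := hj'
        rw [B.eig] at h7
        by_contra hne
        have h8 : (B.a j - (q : ℂ) ^ l * B.a i / (q : ℂ) ^ d) • B.e j = 0 := by
          rw [sub_smul, h7, sub_self]
        rcases smul_eq_zero.1 h8 with h9 | h9
        · exact hne (sub_eq_zero.1 h9)
        · exact B.lin.ne_zero j h9
      refine ⟨j, ?_, rfl⟩
      refine Prod.ext ?_ ?_
      · change B.a j / rq q ^ B.deg j = B.a i / rq q ^ B.deg i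
        rw [hja, hjN, ← rq_pow, ← rq_pow]
        rw [div_div, div_eq_div_iff (mul_ne_zero (pow_ne_zero _ hq) (pow_ne_zero _ hq))
          (pow_ne_zero _ hq), mul_assoc, mul_comm (B.a i), ← mul_assoc, ← pow_add, mul_comm,
          ← pow_add]
        congr 2
        omega
      · change B.deg j % 2 = B.deg i % 2
        omega

end

end Pool.Agent.Lib.MP_361a6f_ag.FL.E.VW
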