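import Mathlib

/-!
# Balanced lists
-/

set_option autoImplicit false

namespace Pool.Agent.Lib.MP_361a6f_ag.FL.E.VL

open Classical in
/-- the list is balanced for the involution `τ` -/
def Bal {S : Type*} (τ : S → S) (l : List S) : Prop :=
  ∀ x, (x = τ x → Even (l.count x)) ∧ (x ≠ τ x → l.count x = l.count (τ x))

section bal

variable {S : Type*} {τ : S → S} (hτ : ∀ x, τ (τ x) = x)

open Classical in
theorem Bal.mem {x : S} {l : List S} (h : Bal τ (x :: l)) : τ x ∈ l := by
  by_cases hx : x = τ x
  · have h1 := (h x).1 hx
    rw [List.count_cons_self] at h1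
    rw [← hx]
    by_contra hcon
    rw [List.count_eq_zero_of_not_mem hcon] at h1
    exact absurd h1 (by decide)
  · have h1 := (h x).2 hx
    rw [List.count_cons_self, List.count_cons_of_ne hx] at h1
    exact List.count_pos_iff.1 (by omega)

open Classical in
include hτ in
theorem Bal.remove {x : S} {l1 l2 : List S}
    (h : Bal τ (x :: (l1 ++ (τ x) :: l2))) : Bal τ (l1 ++ l2) := by
  have hcount : ∀ y, (x :: (l1 ++ (τ x) :: l2)).count y = (l1 ++ l2).count y +
      (if y = x then 1 else 0) + (if y = τ x then 1 else 0) := by
    intro y
    rw [List.count_cons, List.count_append, List.count_cons, List.count_append]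
    have e1 : (x == y) = decide (y = x) := by
      by_cases hxy : y = x
      · simp [hxy]
      · simp [hxy, Ne.symm hxy]
    have e2 : (τ x == y) = decide (y = τ x) := by
      by_cases hxy : y = τ x
      · simp [hxy]
      · have : ¬ τ x = y := fun h => hxy h.symm
        simp [hxy, this]
    rw [e1, e2]
    simp only [decide_eq_true_eq]
    split_ifs <;> omega
  intro y
  have hy := h y
  rw [hcount y, hcount (τ y)] at hy
  have h3 : τ y = x ↔ y = τ x := by
    constructor
    · intro h; rw [← h, hτ]
    · intro h; rw [h, hτ]
  have h4 : τ y = τ x ↔ y = x := by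
    constructor
    · intro h
      have := congrArg τ h
      simpa only [hτ] using this
    · intro h; rw [h]
  constructor
  · intro h1
    have h2 := hy.1 h1
    by_cases hyx : y = x
    · have h5 : y = τ x := by rw [← hyx]; exact h1
      rw [if_pos hyx, if_pos h5] at h2
      have h6 : Even ((l1 ++ l2).count y + 2) := h2
      exact (Nat.even_add.1 h6).2 (by decide)
    · have h5 : y ≠ τ x := by
        intro h5
        apply hyx
        have := h3.2 h5
        rw [← h1] at this
        exact this
      rw [if_neg hyx, if_neg h5] at h2
      exact h2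
  · intro h1
    have h2 := hy.2 h1
    simp only [h3, h4] at h2
    split_ifs at h2 <;> omega

open Classical in
include hτ in
/-- the functions `t` with `|t x| = 1` and `t x * t (τ x) = 1` detect the balanced lists -/
theorem bal_of_prod {l : List S}
    (h : ∀ t : S → ℂ, (∀ x, ‖t x‖ = 1 ∧ t x * t (τ x) = 1) → (l.map t).prod = 1) : Bal τ l := by
  intro x
  constructor
  · intro hx
    have h1 := h (fun y => if y = x then -1 else 1) (fun y => ⟨by
      by_cases hy : y = x
      · simp [hy]
      · simp [hy], by
      by_cases hy : y = x
      · have : τ y = x := by rw [hy]; exact hx.symm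
        simp [hy, ← hx]
      · have : τ y ≠ x := by
          intro h2
          apply hy
          have h3 := congrArg τ h2
          simp only [hτ] at h3
          rw [h3]; exact hx.symm
        simp [hy, this]⟩)
    have h2 : ∀ l : List S, (l.map fun y => if y = x then (-1 : ℂ) else 1).prod =
        (-1) ^ (l.count x) := by
      intro l
      induction l with
      | nil => simp
      | cons a l ih =>
        rw [List.map_cons, List.prod_cons, ih, List.count_cons]
        by_cases ha : a = x
        · simp [ha, pow_succ]
        · simp [ha]
    rw [h2] at h1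
    exact (neg_one_pow_eq_one_iff_even (by norm_num)).1 h1
  · intro hx
    obtain ⟨u, hu, hu1, hinj⟩ : ∃ u : ℂ, u ≠ 0 ∧ ‖u‖ = 1 ∧
        ∀ a b : ℕ, a ≤ l.length → b ≤ l.length → u ^ a = u ^ b → a = b := by
      have hN : (l.length + 1) ≠ 0 := Nat.succ_ne_zero _
      have hp := Complex.isPrimitiveRoot_exp (l.length + 1) hN
      refine ⟨_, hp.ne_zero hN, hp.norm'_eq_one hN, fun a b ha hb hab => ?_⟩
      exact hp.pow_inj (by omega) (by omega) hab
    have h1 := h (fun y => if y = x then u else if y = τ x then u⁻¹ else 1) (fun y => ⟨by
      by_cases hy : y = x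
      · simp [hy, hu1]
      · by_cases hy2 : y = τ x
        · simp only [if_neg hy, if_pos hy2]
          rw [norm_inv, hu1, inv_one]
        · simp [hy, hy2], by
      by_cases hy : y = x
      · have h2 : τ x ≠ x := fun h => hx h.symm
        simp [hy, h2, hu]
      · by_cases hy2 : y = τ x
        · have h3 : τ y = x := by rw [hy2, hτ]
          have h2 : τ x ≠ x := fun h => hx h.symm
          simp only [if_neg hy, if_pos hy2, if_pos h3]
          exact inv_mul_cancel₀ hu
        · have h3 : τ y ≠ x := fun h => hy2 (by rw [← h, hτ])
          have h4 : τ y ≠ τ x := by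
            intro h
            apply hy
            have := congrArg τ h
            simpa only [hτ] using this
          simp [hy, hy2, h3, h4]⟩)
    have h2 : ∀ l : List S,
        (l.map fun y => if y = x then u else if y = τ x then u⁻¹ else 1).prod =
        u ^ (l.count x) * u⁻¹ ^ (l.count (τ x)) := by
      intro l
      induction l with
      | nil => simp
      | cons a l ih =>
        rw [List.map_cons, List.prod_cons, ih, List.count_cons, List.count_cons]
        by_cases ha : a = x
        · have h2 : ¬ a = τ x := by rw [ha]; exact hx
          simp only [ha, if_true, beq_self_eq_true]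
          have h3 : (x == τ x) = false := by
            rw [beq_eq_false_iff_ne]; exact hx
          rw [h3]
          simp only [Bool.false_eq_true, if_false, add_zero, pow_succ]
          ring
        · have h4 : (a == x) = false := by rw [beq_eq_false_iff_ne]; exact ha
          rw [h4]
          by_cases ha2 : a = τ x
          · have h5 : (a == τ x) = true := by rw [ha2]; exact beq_self_eq_true _
            rw [h5]
            simp only [ha, if_false, ha2, if_true, Bool.false_eq_true, add_zero, pow_succ]
            have h6 : ¬ τ x = x := fun h => hx h.symm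
            simp only [h6, if_false]
            ring
          · have h5 : (a == τ x) = false := by rw [beq_eq_false_iff_ne]; exact ha2
            rw [h5]
            simp [ha, ha2]
    rw [h2] at h1
    refine hinj _ _ List.count_le_length List.count_le_length ?_
    calc u ^ (l.count x) = u ^ (l.count x) * (u⁻¹ ^ (l.count (τ x)) *
          u ^ (l.count (τ x))) := by rw [← mul_pow, inv_mul_cancel₀ hu, one_pow, mul_one]
      _ = (u ^ (l.count x) * u⁻¹ ^ (l.count (τ x))) * u ^ (l.count (τ x)) := by ring
      _ = _ := by rw [h1, one_mul]

include hτ in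
/-- **Products of paired elements.** -/
theorem prod_mem {R : Type*} [Ring R] (A : Set R) (h1 : (1 : R) ∈ A)
    (hmul : ∀ a ∈ A, ∀ b ∈ A, a * b ∈ A) (hneg : ∀ a ∈ A, -a ∈ A)
    (G : Set (R × S))
    (pair : ∀ p ∈ G, ∀ q ∈ G, q.2 = τ p.2 → p.1 * q.1 ∈ A)
    (sign : ∀ p ∈ G, ∀ q ∈ G, p.1 * q.1 = q.1 * p.1 ∨ p.1 * q.1 = -(q.1 * p.1)) :
    ∀ (n : ℕ) (L : List (R × S)), L.length = n → (∀ p ∈ L, p ∈ G) → Bal τ (L.map Prod.snd) →
      (L.map Prod.fst).prod ∈ A := by
  intro n
  induction n using Nat.strong_induction_on with
  | _ n ih =>
    intro L hL hG hB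
    rcases L with _ | ⟨p, L⟩
    · simpa using h1
    · have hm : τ p.2 ∈ L.map Prod.snd := by
        rw [List.map_cons] at hB
        exact hB.mem
      obtain ⟨q, hq, hqp⟩ := List.mem_map.1 hm
      obtain ⟨l1, l2, rfl⟩ := List.append_of_mem hq
      have hpG : p ∈ G := hG p List.mem_cons_self
      have hqG : q ∈ G := hG q (List.mem_cons_of_mem _ hq)
      have hB' : Bal τ ((l1 ++ l2).map Prod.snd) := by
        rw [List.map_cons, List.map_append, List.map_cons, hqp] at hB
        rw [List.map_append]
        exact hB.remove hτ
      have hsub : ∀ r ∈ l1 ++ l2, r ∈ G := fun r hr => hG r (by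
        simp only [List.mem_append, List.mem_cons] at hr ⊢
        tauto)
      have h2 := ih (l1 ++ l2).length (by
        simp only [List.length_cons, List.length_append] at hL ⊢
        omega) (l1 ++ l2) rfl hsub hB'
      have hcomm : ∀ l : List (R × S), (∀ r ∈ l, r ∈ G) →
          (l.map Prod.fst).prod * q.1 = q.1 * (l.map Prod.fst).prod ∨
            (l.map Prod.fst).prod * q.1 = -(q.1 * (l.map Prod.fst).prod) := by
        intro l
        induction l with
        | nil => intro _; left; simp
        | cons r l ihl =>
          intro hl
          rw [List.map_cons, List.prod_cons]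
          have h3 := ihl fun s hs => hl s (List.mem_cons_of_mem _ hs)
          have h4 := sign r (hl r List.mem_cons_self) q hqG
          rcases h3 with h3 | h3 <;> rcases h4 with h4 | h4
          · left; rw [mul_assoc, h3, ← mul_assoc, h4, mul_assoc]
          · right; rw [mul_assoc, h3, ← mul_assoc, h4, neg_mul, mul_assoc]
          · right; rw [mul_assoc, h3, mul_neg, ← mul_assoc, h4, mul_assoc]
          · left; rw [mul_assoc, h3, mul_neg, ← mul_assoc, h4, neg_mul, neg_neg, mul_assoc]
      have hpq := pair p hpG q hqG hqp
      have h5 : (p.1 * q.1) * (((l1 ++ l2).map Prod.fst).prod) ∈ A := hmul _ hpq _ h2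
      rw [List.map_cons, List.prod_cons, List.map_append, List.prod_append, List.map_cons,
        List.prod_cons]
      rw [List.map_append, List.prod_append] at h5
      rcases hcomm l1 (fun r hr => hG r (by
        simp only [List.mem_append, List.mem_cons]; tauto)) with h6 | h6
      · have e : p.1 * ((l1.map Prod.fst).prod * (q.1 * (l2.map Prod.fst).prod)) =
            (p.1 * q.1) * ((l1.map Prod.fst).prod * (l2.map Prod.fst).prod) := by
          rw [← mul_assoc (l1.map Prod.fst).prod, h6]
          simp only [mul_assoc]
        rw [e]
        exact h5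
      · have e : p.1 * ((l1.map Prod.fst).prod * (q.1 * (l2.map Prod.fst).prod)) =
            -((p.1 * q.1) * ((l1.map Prod.fst).prod * (l2.map Prod.fst).prod)) := by
          rw [← mul_assoc (l1.map Prod.fst).prod, h6]
          simp only [mul_assoc, neg_mul, mul_neg]
        rw [e]
        exact hneg _ h5

end bal

end Pool.Agent.Lib.MP_361a6f_ag.FL.E.VL
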