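import Pool.Agent.Lib.MP_361a6f_ag.FL.E.DC.VG
import Pool.Agent.Lib.MP_361a6f_ag.FL.E.DC.DetL
import Pool.Agent.Lib.MP_361a6f_ag.FL.E.DC.GalN

/-!
# The determinant criterion for varieties with letters
-/

open CategoryTheory AlgebraicGeometry MonoidalCategory CartesianMonoidalCategory

universe u w

set_option autoImplicit false
set_option linter.unusedSectionVars false

namespace Pool.Agent.Lib.MP_361a6f_ag.FL.E.VW

open Pool.Agent.Lib.MP_361a6f_ag.H3 Pool.Agent.Lib.MP_361a6f_ag.SQ
  Pool.Agent.Lib.MP_361a6f_ag.PP D4 VL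

noncomputable section

section gen

variable {k : Type u} [Field k] {W : CohomologyData.{u, 0, w} k ℂ} {𝒱 : VarietyClass k}
  (hW : IsWeilCohomology W 𝒱)
include hW

/-- the span of the algebraic classes of all codimensions -/
theorem aspan_eq : ∀ Y : Sch k, EQ.ASpan W Y = St W Y := by
  intro Y
  refine le_antisymm (Submodule.span_mono ?_) (Submodule.span_le.2 ?_)
  · rintro z ⟨l, hz⟩
    exact alg_le_tot hW Y l hz
  · intro z hz
    refine tot_induction hW (P := fun z => z ∈ EQ.ASpan W Y) hz ?_ ?_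
    · intro l z hz
      exact Submodule.subset_span ⟨l, hz⟩
    · intro a b ha hb
      exact add_mem ha hb

/-- the homogeneous components of a combination of algebraic classes -/
theorem comp_st {Y : Sch k} {m : ℕ} (hY : 𝒱.mem Y m) (dec : DirectSum.Decomposition (W.gr Y))
    {x : W.coh Y} (hx : x ∈ St W Y) (i : ℕ) :
    (∀ j, i = 2 * j → (DirectSum.decompose (W.gr Y) x i : W.coh Y) ∈ EQ.CAlg W Y j) ∧
      (¬ 2 ∣ i → (DirectSum.decompose (W.gr Y) x i : W.coh Y) = 0) := by
  refine st_ind hW (p := fun x =>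
    (∀ j, i = 2 * j → (DirectSum.decompose (W.gr Y) x i : W.coh Y) ∈ EQ.CAlg W Y j) ∧
      (¬ 2 ∣ i → (DirectSum.decompose (W.gr Y) x i : W.coh Y) = 0)) hx ?_ ?_ ?_ ?_
  · intro z hz
    refine tot_induction hW (P := fun x =>
      (∀ j, i = 2 * j → (DirectSum.decompose (W.gr Y) x i : W.coh Y) ∈ EQ.CAlg W Y j) ∧
        (¬ 2 ∣ i → (DirectSum.decompose (W.gr Y) x i : W.coh Y) = 0)) hz ?_ ?_
    · intro l z hz
      have hz' := hW.alg_gr hY hz
      by_cases hil : 2 * l = i
      · subst hil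
        rw [DirectSum.decompose_of_mem_same _ hz']
        refine ⟨fun j hj => ?_, fun h => absurd (Dvd.intro l rfl) h⟩
        have : l = j := by omega
        subst this
        exact Submodule.subset_span hz
      · rw [DirectSum.decompose_of_mem_ne _ hz' hil]
        exact ⟨fun j _ => zero_mem _, fun _ => rfl⟩
    · intro a b ha hb
      rw [DirectSum.decompose_add, DirectSum.add_apply, Submodule.coe_add]
      exact ⟨fun j hj => add_mem (ha.1 j hj) (hb.1 j hj), fun h => by
        rw [ha.2 h, hb.2 h, add_zero]⟩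
  · rw [DirectSum.decompose_zero, DirectSum.zero_apply, Submodule.coe_zero]
    exact ⟨fun j _ => zero_mem _, fun _ => rfl⟩
  · intro a b ha hb
    rw [DirectSum.decompose_add, DirectSum.add_apply, Submodule.coe_add]
    exact ⟨fun j hj => add_mem (ha.1 j hj) (hb.1 j hj), fun h => by
      rw [ha.2 h, hb.2 h, add_zero]⟩
  · intro c a ha
    rw [DirectSum.decompose_smul, DirectSum.smul_apply, Submodule.coe_smul]
    exact ⟨fun j hj => Submodule.smul_mem _ _ (ha.1 j hj), fun h => by rw [ha.2 h, smul_zero]⟩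

/-- a nonzero combination of algebraic classes has a nonzero component -/
theorem exists_comp {Y : Sch k} {m : ℕ} (hY : 𝒱.mem Y m)
    (dec : DirectSum.Decomposition (W.gr Y)) {x : W.coh Y} (hx : x ∈ St W Y) (hx0 : x ≠ 0) :
    ∃ j, (DirectSum.decompose (W.gr Y) x (2 * j) : W.coh Y) ≠ 0 := by
  classical
  by_contra hcon
  push Not at hcon
  apply hx0
  rw [← DirectSum.sum_support_decompose (W.gr Y) x]
  refine Finset.sum_eq_zero fun i _ => ?_
  by_cases hi : 2 ∣ i
  · obtain ⟨j, rfl⟩ := hi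
    exact hcon j
  · exact (comp_st hW hY dec hx i).2 hi

/-- the components of a numerically trivial class are numerically trivial -/
theorem comp_num {Y : Sch k} {m : ℕ} (hY : 𝒱.mem Y m) (dec : DirectSum.Decomposition (W.gr Y))
    {x : W.coh Y} (hn : EQ.NumTriv W (Y := Y) x) (i : ℕ) :
    EQ.NumTriv W (Y := Y) (DirectSum.decompose (W.gr Y) x i : W.coh Y) := by
  classical
  intro l y hy
  change W.tr Y ((DirectSum.decompose (W.gr Y) x i : W.coh Y) * y) = 0
  have hy' : y ∈ W.gr Y (2 * l) := hW.alg_gr hY hy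
  by_cases hi : i + 2 * l = 2 * m
  · have h1 : W.tr Y (x * y) = 0 := hn l y hy
    have h2 : x * y = ∑ j ∈ (DirectSum.decompose (W.gr Y) x).support,
        (DirectSum.decompose (W.gr Y) x j : W.coh Y) * y := by
      rw [← Finset.sum_mul, DirectSum.sum_support_decompose]
    rw [h2, map_sum] at h1
    rw [← h1]
    symm
    refine Finset.sum_eq_single i (fun j _ hj => ?_) (fun hi' => ?_)
    · exact hW.tr_gr hY (hW.mul_gr hY (DirectSum.decompose (W.gr Y) x j).2 hy') (by omega)
    · have h3 : DirectSum.decompose (W.gr Y) x i = 0 := by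
        rwa [DFinsupp.notMem_support_iff] at hi'
      rw [h3, Submodule.coe_zero, zero_mul, map_zero]
  · exact hW.tr_gr hY (hW.mul_gr hY (DirectSum.decompose (W.gr Y) x i).2 hy') hi

/-- numerical equivalence in each codimension -/
theorem numAll {Y : Sch k} {m : ℕ} (hY : 𝒱.mem Y m)
    (h : ∀ j, ∀ x ∈ EQ.CAlg W Y j, EQ.NumTriv W (Y := Y) x → x = 0) : EQ.NumHomAll W Y := by
  classical
  let dec : DirectSum.Decomposition (W.gr Y) := (hW.internal hY).chooseDecomposition
  intro x hx hn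
  rw [aspan_eq hW] at hx
  by_contra hx0
  obtain ⟨j, hj⟩ := exists_comp hW hY dec hx hx0
  exact hj (h j _ ((comp_st hW hY dec hx (2 * j)).1 j rfl) (comp_num hW hY dec hn (2 * j)))

end gen

/-! ### Determinants -/

section det

variable {k : Type u} [Field k] {W : CohomologyData.{u, 0, w} k ℂ} {𝒱 : VarietyClass k}
  {X : Sch k} {d : ℕ} (L : Letters W X) (hW : IsWeilCohomology W 𝒱) (hX : 𝒱.mem X d)
include L hW hX

/-- the characters that occur in the combinations of algebraic classes occur in a codimension -/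
theorem occ_of_st {P : Prd 1} {χ : {T // EQ.IsIso W X T} → ℂ} {v : W.coh (P.obj fun _ => X)}
    (hv : v ∈ St W (P.obj fun _ => X)) (hv0 : v ≠ 0) (h : ∀ i, fi W X i P v = χ i • v) :
    Occ W (fun _ : Fin 1 => X) (fi W X) χ := by
  classical
  have hP := memX (𝒱 := 𝒱) hX P
  let dec : DirectSum.Decomposition (W.gr (EQ.pw X P)) := (hW.internal hP).chooseDecomposition
  obtain ⟨j, hj⟩ := exists_comp hW hP dec hv hv0
  refine ⟨P, j, _, (comp_st hW hP dec hv (2 * j)).1 j rfl, hj, fun i => ?_⟩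
  have key : ∀ z : W.coh (EQ.pw X P),
      (DirectSum.decompose (W.gr (EQ.pw X P)) (fi W X i P z) (2 * j) : W.coh (EQ.pw X P)) =
        fi W X i P (DirectSum.decompose (W.gr (EQ.pw X P)) z (2 * j) : W.coh (EQ.pw X P)) := by
    intro z
    refine DirectSum.Decomposition.inductionOn (W.gr (EQ.pw X P)) (motive := fun z =>
      (DirectSum.decompose (W.gr (EQ.pw X P)) (fi W X i P z) (2 * j) : W.coh (EQ.pw X P)) =
        fi W X i P (DirectSum.decompose (W.gr (EQ.pw X P)) z (2 * j) : W.coh (EQ.pw X P)))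
      ?_ ?_ ?_ z
    · rw [map_zero, DirectSum.decompose_zero, DirectSum.zero_apply, Submodule.coe_zero, map_zero]
    · intro n z
      have h1 := fi_gr L hW hX i P n z.2
      by_cases hn : n = 2 * j
      · subst hn
        rw [DirectSum.decompose_of_mem_same _ h1, DirectSum.decompose_of_mem_same _ z.2]
      · rw [DirectSum.decompose_of_mem_ne _ h1 hn, DirectSum.decompose_of_mem_ne _ z.2 hn,
          map_zero]
    · intro a b ha hb
      rw [map_add, DirectSum.decompose_add, DirectSum.add_apply, Submodule.coe_add,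
        DirectSum.decompose_add, DirectSum.add_apply, Submodule.coe_add, map_add, ha, hb]
  rw [← key, h, DirectSum.decompose_smul, DirectSum.smul_apply, Submodule.coe_smul]

theorem occ_list {χ : {T // EQ.IsIso W X T} → ℂ} (h : Occ W (fun _ : Fin 1 => X) (fi W X) χ) :
    ∀ l : List ({T // EQ.IsIso W X T} → ℂ),
      (∀ ψ ∈ l, Occ W (fun _ : Fin 1 => X) (fi W X) ψ) →
      Occ W (fun _ : Fin 1 => X) (fi W X) fun i => χ i * (l.map fun ψ => ψ i).prod := by
  intro l
  induction l with
  | nil =>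
    intro _
    simp only [List.map_nil, List.prod_nil, mul_one]
    exact h
  | cons ψ l ih =>
    intro hl
    have h1 := GalN.occ_mul hW (memX (𝒱 := 𝒱) hX) (goodV L hW hX) (hl ψ List.mem_cons_self)
      (ih fun ψ' hψ' => hl ψ' (List.mem_cons_of_mem _ hψ'))
    have e : (fun i => χ i * ((ψ :: l).map fun ψ' => ψ' i).prod) =
        fun i => ψ i * (χ i * (l.map fun ψ' => ψ' i).prod) := by
      funext i
      rw [List.map_cons, List.prod_cons]
      ring
    rw [e]
    exact h1

/-- determinant `± 1` implies that numerical equivalence is homological equivalence -/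
theorem num_of_detV (P : Prd 1)
    (hdet : ∀ T, EQ.IsIso W X T → EQ.DetOneOn (EQ.ASpan W (EQ.pw X P)) (T P)) :
    EQ.NumHomAll W (EQ.pw X P) := by
  classical
  have G := goodV L hW hX
  have mem := memX (𝒱 := 𝒱) (X := X) hX
  have hfin : Module.Finite ℂ (W.coh (P.obj fun _ : Fin 1 => X)) := hW.finite (mem P)
  refine numAll hW (mem P) fun j x hx hn => ?_
  by_contra hx0
  let K : Submodule ℂ (W.coh (P.obj fun _ : Fin 1 => X)) :=
    { carrier := {z | z ∈ EQ.CAlg W (P.obj fun _ : Fin 1 => X) j ∧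
        EQ.NumTriv W (Y := P.obj fun _ : Fin 1 => X) z}
      add_mem' := fun {a b} ha hb => ⟨add_mem ha.1 hb.1, fun l y hy => by
        change W.tr _ ((a + b) * y) = 0
        have h1 : W.tr _ (a * y) = 0 := ha.2 l y hy
        have h2 : W.tr _ (b * y) = 0 := hb.2 l y hy
        rw [add_mul, map_add, h1, h2, add_zero]⟩
      zero_mem' := ⟨zero_mem _, fun l y _ => by
        change W.tr _ (0 * y) = 0
        rw [zero_mul, map_zero]⟩
      smul_mem' := fun c a ha => ⟨Submodule.smul_mem _ c ha.1, fun l y hy => by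
        change W.tr _ (c • a * y) = 0
        have h1 : W.tr _ (a * y) = 0 := ha.2 l y hy
        rw [smul_mul_assoc, map_smul, h1, smul_zero]⟩ }
  have hK : K ≠ ⊥ := fun h => hx0 (by
    have : x ∈ K := ⟨hx, hn⟩
    rwa [h, Submodule.mem_bot] at this)
  obtain ⟨z, hz, hz0, χ, hχ⟩ := exists_eig (T := fun i => fi W X i P)
    (fun i i' => LinearMap.ext fun w => G.comm i i' P w) hK
    (fun i w hw => ⟨G.pres i P j w hw.1, G.num hW mem i P hw.2⟩)
  refine (G.zero_one hW mem hz.1 hz0 hχ).1 hz.2 ?_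
  obtain ⟨Lc, hL1, hL2, hL3⟩ := DetL.exists_list _ (V := St W (P.obj fun _ : Fin 1 => X))
    (fun i => (fi W X i P).restrict fun w hw => fi_st L hW hX i P hw)
    (fun i i' => LinearMap.ext fun w => Subtype.ext (G.comm i i' P w)) rfl
  have hocc : ∀ ψ ∈ Lc, Occ W (fun _ : Fin 1 => X) (fi W X) ψ := by
    intro ψ hψ
    obtain ⟨v, hv, hv'⟩ := hL1 ψ hψ
    exact occ_of_st L hW hX v.2 (fun h => hv (Subtype.ext h)) fun i => congrArg Subtype.val (hv' i)
  have hmem : χ ∈ Lc := hL2 χ ⟨z, sp_le hW _ j hz.1⟩ (fun h => hz0 (congrArg Subtype.val h))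
    fun i => Subtype.ext (hχ i)
  obtain ⟨l1, l2, hl⟩ := List.append_of_mem hmem
  have hsub : ∀ ψ ∈ (l1 ++ l2) ++ (l1 ++ l2), Occ W (fun _ : Fin 1 => X) (fi W X) ψ := by
    intro ψ hψ
    refine hocc ψ ?_
    rw [hl]
    simp only [List.mem_append, List.mem_cons] at hψ ⊢
    tauto
  have h1 := occ_list L hW hX (hocc χ hmem) _ hsub
  have e : (fun i => χ i * (((l1 ++ l2) ++ (l1 ++ l2)).map fun ψ => ψ i).prod) =
      fun i => (χ i)⁻¹ := by
    funext i
    have h2 : LinearMap.det ((fi W X i P).restrict fun w hw => fi_st L hW hX i P hw) ^ 2 = 1 := by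
      have h3 := hdet i.1 i.2
      rw [aspan_eq hW] at h3
      obtain ⟨M, hM, hM1⟩ := h3
      have eM : M = (fi W X i P).restrict fun w hw => fi_st L hW hX i P hw :=
        LinearMap.ext fun w => Subtype.ext (hM w)
      rw [← eM]
      exact hM1
    rw [hL3, hl] at h2
    simp only [List.map_append, List.prod_append, List.map_cons, List.prod_cons] at h2 ⊢
    refine eq_inv_of_mul_eq_one_left ?_
    rw [← h2]
    ring
  rw [e] at h1
  exact h1

/-- the converse -/
theorem det_of_numV (P : Prd 1) (hn : EQ.NumHomAll W (EQ.pw X P)) (T)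
    (hT : EQ.IsIso W X T) : EQ.DetOneOn (EQ.ASpan W (EQ.pw X P)) (T P) := by
  have G := goodV L hW hX
  have mem := memX (𝒱 := 𝒱) (X := X) hX
  have hfin : Module.Finite ℂ (W.coh (P.obj fun _ : Fin 1 => X)) := hW.finite (mem P)
  rw [aspan_eq hW]
  refine ⟨(fi W X ⟨T, hT⟩ P).restrict fun w hw => fi_st L hW hX ⟨T, hT⟩ P hw, fun x => rfl, ?_⟩
  let B0 : W.coh (P.obj fun _ : Fin 1 => X) →ₗ[ℂ] W.coh (P.obj fun _ : Fin 1 => X) →ₗ[ℂ] ℂ :=
    LinearMap.mk₂ ℂ (fun x y => W.tr (P.obj fun _ : Fin 1 => X) (x * y))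
      (fun x x' y => by rw [add_mul, map_add])
      (fun c x y => by rw [smul_mul_assoc, map_smul])
      (fun x y y' => by rw [mul_add, map_add])
      (fun c x y => by rw [mul_smul_comm, map_smul])
  let B : St W (P.obj fun _ : Fin 1 => X) →ₗ[ℂ] St W (P.obj fun _ : Fin 1 => X) →ₗ[ℂ] ℂ :=
    B0.domRestrict₁₂ (St W (P.obj fun _ : Fin 1 => X)) (St W (P.obj fun _ : Fin 1 => X))
  refine DetL.det_sq B (fun x hx => ?_) _ fun x y => G.tr ⟨T, hT⟩ P x.1 y.1
  refine Subtype.ext (hn x.1 (by rw [aspan_eq hW]; exact x.2) ?_)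
  intro l z hz
  exact hx ⟨z, Submodule.subset_span (alg_le_tot hW _ l hz)⟩

theorem num_iff_detV (P : Prd 1) : EQ.NumHomAll W (EQ.pw X P) ↔
    ∀ T, EQ.IsIso W X T → EQ.DetOneOn (EQ.ASpan W (EQ.pw X P)) (T P) :=
  ⟨fun h T hT => det_of_numV L hW hX P h T hT, fun h => num_of_detV L hW hX P h⟩

end det

end

end Pool.Agent.Lib.MP_361a6f_ag.FL.E.VW
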