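import Pool.Agent.Lib.MP_361a6f_ag.FL.E.DC.VW
import Pool.Agent.Lib.MP_361a6f_ag.PP.TAL

/-!
# The isometries in terms of letters
-/

open CategoryTheory AlgebraicGeometry MonoidalCategory CartesianMonoidalCategory

universe u w

set_option autoImplicit false
set_option linter.unusedSectionVars false

namespace Pool.Agent.Lib.MP_361a6f_ag.FL.E.VW

open Pool.Agent.Lib.MP_361a6f_ag.H3 Pool.Agent.Lib.MP_361a6f_ag.SQ
  Pool.Agent.Lib.MP_361a6f_ag.PP D4 VL

noncomputable section

/-! ### Combinations of algebraic operators -/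

section ops

variable {k : Type u} [Field k] {W : CohomologyData.{u, 0, w} k ℂ} {𝒱 : VarietyClass k}

/-- complex combinations of algebraic operators -/
def SpanOp (W : CohomologyData.{u, 0, w} k ℂ) (Y : Sch k) :
    Submodule ℂ (W.coh Y →ₗ[ℂ] W.coh Y) := Submodule.span ℂ {u | AlgOp W Y u}

/-- the operator of a class -/
def actC (W : CohomologyData.{u, 0, w} k ℂ) {Y : Sch k} (γ : W.coh (Y ⊗ Y)) :
    W.coh Y →ₗ[ℂ] W.coh Y :=
  W.push (snd Y Y) ∘ₗ LinearMap.mulRight ℂ γ ∘ₗ (W.pull (fst Y Y)).toLinearMap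

variable (hW : IsWeilCohomology W 𝒱)
include hW

theorem ten_lin {Y Z : Sch k} {m n : ℕ} (hY : 𝒱.mem Y m) (hZ : 𝒱.mem Z n)
    (u u' : W.coh Y →ₗ[ℂ] W.coh Y) (v v' : W.coh Z →ₗ[ℂ] W.coh Z) (c : ℂ) :
    ten hW hY hZ (u + u') v = ten hW hY hZ u v + ten hW hY hZ u' v ∧
    ten hW hY hZ u (v + v') = ten hW hY hZ u v + ten hW hY hZ u v' ∧
    ten hW hY hZ (c • u) v = c • ten hW hY hZ u v ∧
    ten hW hY hZ u (c • v) = c • ten hW hY hZ u v ∧
    ten hW hY hZ 0 v = 0 ∧ ten hW hY hZ u 0 = 0 := by
  refine ⟨?_, ?_, ?_, ?_, ?_, ?_⟩ <;> refine lin_ext hW hY hZ _ _ (fun y x => ?_)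
  · rw [LinearMap.add_apply, ten_gen, ten_gen, ten_gen, LinearMap.add_apply, map_add, add_mul]
  · rw [LinearMap.add_apply, ten_gen, ten_gen, ten_gen, LinearMap.add_apply, map_add, mul_add]
  · rw [LinearMap.smul_apply, ten_gen, ten_gen, LinearMap.smul_apply, map_smul, smul_mul_assoc]
  · rw [LinearMap.smul_apply, ten_gen, ten_gen, LinearMap.smul_apply, map_smul, mul_smul_comm]
  · rw [ten_gen, LinearMap.zero_apply, LinearMap.zero_apply, map_zero, zero_mul]
  · rw [ten_gen, LinearMap.zero_apply, LinearMap.zero_apply, map_zero, mul_zero]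

theorem spanOp_ten {Y Z : Sch k} {m n : ℕ} (hY : 𝒱.mem Y m) (hZ : 𝒱.mem Z n)
    {u : W.coh Y →ₗ[ℂ] W.coh Y} {v : W.coh Z →ₗ[ℂ] W.coh Z} (hu : u ∈ SpanOp W Y)
    (hv : v ∈ SpanOp W Z) : ten hW hY hZ u v ∈ SpanOp W (Y ⊗ Z) := by
  unfold SpanOp at hu hv
  induction hu using Submodule.span_induction with
  | mem u hu =>
    induction hv using Submodule.span_induction with
    | mem v hv => exact Submodule.subset_span (TAL.ten_alg hW hY hZ hu hv)
    | zero => rw [(ten_lin hW hY hZ u u 0 0 0).2.2.2.2.2]; exact zero_mem _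
    | add a b _ _ ha hb => rw [(ten_lin hW hY hZ u u a b 0).2.1]; exact add_mem ha hb
    | smul c a _ ha =>
      rw [(ten_lin hW hY hZ u u a a c).2.2.2.1]; exact Submodule.smul_mem _ c ha
  | zero => rw [(ten_lin hW hY hZ 0 0 v v 0).2.2.2.2.1]; exact zero_mem _
  | add a b _ _ ha hb => rw [(ten_lin hW hY hZ a b v v 0).1]; exact add_mem ha hb
  | smul c a _ ha => rw [(ten_lin hW hY hZ a a v v c).2.2.1]; exact Submodule.smul_mem _ c ha

theorem spanOp_st {Y : Sch k} {m : ℕ} (hY : 𝒱.mem Y m) {u : W.coh Y →ₗ[ℂ] W.coh Y}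
    (hu : u ∈ SpanOp W Y) {z : W.coh Y} (hz : z ∈ St W Y) : u z ∈ St W Y := by
  unfold SpanOp at hu
  induction hu using Submodule.span_induction with
  | mem u hu =>
    obtain ⟨γ, hγ, hu⟩ := hu
    rw [hu z]
    exact st_push hW (𝒱.prod hY hY) hY _
      (st_mul hW (𝒱.prod hY hY) (st_pull hW (𝒱.prod hY hY) hY _ hz) (Submodule.subset_span hγ))
  | zero => rw [LinearMap.zero_apply]; exact zero_mem _
  | add a b _ _ ha hb => rw [LinearMap.add_apply]; exact add_mem ha hb
  | smul c a _ ha => rw [LinearMap.smul_apply]; exact Submodule.smul_mem _ c ha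

omit hW in
/-- the operator of a complex combination of algebraic classes -/
theorem spanOp_act {Y : Sch k} {z : W.coh (Y ⊗ Y)} (hz : z ∈ St W (Y ⊗ Y)) :
    actC W z ∈ SpanOp W Y := by
  have add : ∀ a b : W.coh (Y ⊗ Y), actC W (a + b) =
      actC W a + actC W b := fun a b => LinearMap.ext fun x => by
    change W.push _ (W.pull _ x * (a + b)) = W.push _ (W.pull _ x * a) + W.push _ (W.pull _ x * b)
    rw [mul_add, map_add]
  have smul : ∀ (c : ℂ) (a : W.coh (Y ⊗ Y)), actC W (c • a) =
      c • actC W a := fun c a => LinearMap.ext fun x => by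
    change W.push _ (W.pull _ x * (c • a)) = c • W.push _ (W.pull _ x * a)
    rw [mul_smul_comm, map_smul]
  unfold St at hz
  induction hz using Submodule.span_induction with
  | mem z hz => exact Submodule.subset_span ⟨z, hz, fun s => rfl⟩
  | zero =>
    have e : actC W (0 : W.coh (Y ⊗ Y)) = 0 := by
      have := smul 0 0
      rwa [zero_smul, zero_smul] at this
    rw [e]; exact zero_mem _
  | add a b _ _ ha hb => rw [add]; exact add_mem ha hb
  | smul c a _ ha => rw [smul]; exact Submodule.smul_mem _ c ha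

end ops

/-! ### Operators on all powers -/

section op

variable {k : Type u} [Field k] {W : CohomologyData.{u, 0, w} k ℂ} {𝒱 : VarietyClass k}
  {X : Sch k} {d : ℕ} (L : Letters W X) (hW : IsWeilCohomology W 𝒱) (hX : 𝒱.mem X d)

/-- tensor powers of a linear map -/
def tp (T : W.coh X →ₗ[ℂ] W.coh X) : ∀ P : Prd 1, W.coh (EQ.pw X P) →ₗ[ℂ] W.coh (EQ.pw X P)
  | .leaf _ => T
  | .prod P Q => ten hW (memX hX P) (memX hX Q) (tp T P) (tp T Q)

theorem tp_ext (T : W.coh X →ₗ[ℂ] W.coh X) (P Q : Prd 1) (y : W.coh (EQ.pw X P))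
    (x : W.coh (EQ.pw X Q)) :
    tp hW hX T (.prod P Q) (W.ext y x) = W.ext (tp hW hX T P y) (tp hW hX T Q x) :=
  ten_gen hW (memX hX P) (memX hX Q) (tp hW hX T P) (tp hW hX T Q) y x

theorem tp_tensor (T : W.coh X →ₗ[ℂ] W.coh X) :
    EQ.Tensor W X W X fun P z => tp hW hX T P z :=
  ⟨fun P x y => map_add _ x y, fun P c x => map_smul _ c x, fun P Q y x => tp_ext hW hX T P Q y x⟩

include hW hX in
/-- the tensor powers are determined by the linear map -/
theorem tensor_eq {T : ∀ P : Prd 1, W.coh (EQ.pw X P) → W.coh (EQ.pw X P)}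
    (hT : EQ.Tensor W X W X T) (T0 : W.coh X →ₗ[ℂ] W.coh X)
    (h : ∀ x : W.coh X, T (.leaf 0) x = T0 x) : ∀ P z, T P z = tp hW hX T0 P z := by
  intro P
  induction P with
  | leaf a =>
    intro z
    have ha : a = 0 := Subsingleton.elim a 0
    subst ha
    exact h z
  | prod P Q hP hQ =>
    have e := lin_ext hW (memX hX P) (memX hX Q)
      ({ toFun := T (.prod P Q), map_add' := hT.add (.prod P Q), map_smul' := hT.scal (.prod P Q) } :
        W.coh (EQ.pw X (.prod P Q)) →ₗ[ℂ] W.coh (EQ.pw X (.prod P Q))) (tp hW hX T0 (.prod P Q))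
      (fun y x => by
        have h1 := hT.ext P Q y x
        rw [hP, hQ] at h1
        exact h1.trans (tp_ext hW hX T0 P Q y x).symm)
    intro z
    exact LinearMap.congr_fun e z

/-- the basis -/
def bs : Module.Basis L.ι ℂ (W.coh X) := Module.Basis.mk L.lin (by rw [L.span])

theorem bs_apply (i : L.ι) : bs L i = L.e i := Module.Basis.mk_apply _ _ i

/-- the diagonal map -/
def dia (t : L.S → ℂ) : W.coh X →ₗ[ℂ] W.coh X :=
  (bs L).constr ℂ fun i => t (L.s i) • L.e i

theorem dia_apply (t : L.S → ℂ) (i : L.ι) : dia L t (L.e i) = t (L.s i) • L.e i := by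
  rw [dia, ← bs_apply, Module.Basis.constr_basis, bs_apply]

theorem tp_vec (t : L.S → ℂ) : ∀ (P : Prd 1) (w : Wd L P),
    tp hW hX (dia L t) P (vec L P w) = (((ls L P w).map L.s).map t).prod • vec L P w := by
  intro P
  induction P with
  | leaf a =>
    intro i
    refine (dia_apply L t i).trans ?_
    change _ = ([t (L.s i)]).prod • L.e i
    rw [List.prod_singleton]
  | prod P Q hP hQ =>
    intro w
    refine (tp_ext hW hX (dia L t) P Q _ _).trans ?_
    rw [hP, hQ]
    refine (ext_smul (EQ.pw X P) (EQ.pw X Q) _ _ _ _).trans ?_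
    change _ = (((ls L P w.1 ++ ls L Q w.2).map L.s).map t).prod • _
    rw [List.map_append, List.map_append, List.prod_append]
    rfl

/-- linear maps that agree on the words are equal -/
theorem eq_of_vec (P : Prd 1) {M : Type*} [AddCommGroup M] [Module ℂ M]
    (f g : W.coh (EQ.pw X P) →ₗ[ℂ] M)
    (h : ∀ w, f (vec L P w) = g (vec L P w)) (hW : IsWeilCohomology W 𝒱) (hX : 𝒱.mem X d) :
    f = g := by
  refine LinearMap.ext_on (span_vec L hW hX P) ?_
  rintro _ ⟨w, rfl⟩
  exact h w

include hW hX in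
/-- the action of the exterior product of two classes -/
theorem act_ext (x y u : W.coh X) :
    EQ.act W (W.pull (fst X X) x * W.pull (snd X X) y : W.coh (X ⊗ X)) u = W.tr X (u * x) • y := by
  change W.push (snd X X) (W.pull (fst X X) u * (W.pull (fst X X) x * W.pull (snd X X) y)) = _
  rw [← mul_assoc, ← map_mul, push_snd_ext hW hX hX]

open Classical in
include hW hX in
/-- dual letters -/
theorem exists_dual_letter : ∃ x : L.ι → W.coh X, (∀ i j, W.tr X (L.e i * x j) =
    if i = j then 1 else 0) ∧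
    ∀ j, W.pull (fst X X) (x j) * W.pull (snd X X) (L.e j) ∈ St W (X ⊗ X) := by
  classical
  have hfin : Module.Finite ℂ (W.coh X) := hW.finite hX
  have hι : Fintype L.ι := L.fin
  let B : W.coh X →ₗ[ℂ] (L.ι → ℂ) :=
    LinearMap.pi fun i => W.tr X ∘ₗ LinearMap.mulLeft ℂ (L.e i)
  have hB : ∀ y i, B y i = W.tr X (L.e i * y) := fun y i => rfl
  have hfr : Module.finrank ℂ (W.coh X) = Module.finrank ℂ (L.ι → ℂ) := by
    rw [Module.finrank_eq_card_basis (bs L), Module.finrank_fintype_fun_eq_card]
  have hinj : Function.Injective B := by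
    rw [injective_iff_map_eq_zero]
    intro y hy
    have h1 : ∀ x : W.coh X, W.tr X (x * y) = 0 := by
      intro x
      have hx : x ∈ Submodule.span ℂ (Set.range L.e) := by rw [L.span]; trivial
      induction hx using Submodule.span_induction with
      | mem x hx =>
        obtain ⟨i, rfl⟩ := hx
        exact (hB y i).symm.trans (congrFun hy i)
      | zero => rw [zero_mul, map_zero]
      | add a b _ _ ha hb => rw [add_mul, map_add, ha, hb, add_zero]
      | smul c a _ ha => rw [smul_mul_assoc, map_smul, ha, smul_zero]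
    by_contra hy0
    obtain ⟨f, hf⟩ : ∃ f : W.coh X →ₗ[ℂ] ℂ, f y ≠ 0 := by
      by_contra hcon
      push Not at hcon
      exact hy0 ((Module.forall_dual_apply_eq_zero_iff ℂ y).1 hcon)
    have hsur : Function.Surjective (dmap W X).flip := by
      have hflip : Function.Injective (dmap W X).flip := by
        rw [← LinearMap.ker_eq_bot, LinearMap.ker_eq_bot']
        intro x hx
        refine hW.duality hX x (fun y => ?_)
        have := LinearMap.congr_fun hx y
        simpa [LinearMap.flip_apply, dmap_apply] using this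
      refine (LinearMap.injective_iff_surjective_of_finrank_eq_finrank ?_).1 hflip
      exact (Subspace.dual_finrank_eq (K := ℂ) (V := W.coh X)).symm
    obtain ⟨x, hx⟩ := hsur f
    apply hf
    rw [← hx, LinearMap.flip_apply, dmap_apply]
    exact h1 x
  have hsurj : Function.Surjective B :=
    (LinearMap.injective_iff_surjective_of_finrank_eq_finrank hfr).1 hinj
  choose y hy using fun j : L.ι => hsurj (Pi.single j 1)
  have hy' : ∀ i j, W.tr X (L.e i * y j) = if i = j then 1 else 0 := by
    intro i j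
    rw [← hB, hy, Pi.single_apply]
  refine ⟨fun j => ∑ k, if L.s k = L.τ (L.s j) then (bs L).repr (y j) k • L.e k else 0, ?_, ?_⟩
  · intro i j
    rw [Finset.mul_sum, map_sum]
    by_cases hij : L.s i = L.s j
    · rw [← hy' i j]
      conv_rhs => rw [← (bs L).sum_repr (y j)]
      rw [Finset.mul_sum, map_sum]
      refine Finset.sum_congr rfl fun k _ => ?_
      rw [bs_apply]
      by_cases hk : L.s k = L.τ (L.s j)
      · rw [if_pos hk]
      · rw [if_neg hk, mul_zero, map_zero, mul_smul_comm, map_smul,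
          L.ortho i k (by rw [hij]; exact hk), smul_zero]
    · have hij' : i ≠ j := fun h => hij (by rw [h])
      rw [if_neg hij']
      refine Finset.sum_eq_zero fun k _ => ?_
      by_cases hk : L.s k = L.τ (L.s j)
      · rw [if_pos hk, mul_smul_comm, map_smul, L.ortho i k (fun h => hij ?_), smul_zero]
        have h1 : L.τ (L.τ (L.s i)) = L.τ (L.τ (L.s j)) := by rw [← h, hk]
        rwa [L.hτ, L.hτ] at h1
      · rw [if_neg hk, mul_zero, map_zero]
  · intro j
    rw [map_sum, Finset.sum_mul]
    refine Submodule.sum_mem _ fun k _ => ?_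
    by_cases hk : L.s k = L.τ (L.s j)
    · rw [if_pos hk, map_smul, smul_mul_assoc]
      refine Submodule.smul_mem _ _ (L.pair k j ?_)
      rw [hk, L.hτ]
    · rw [if_neg hk, map_zero, zero_mul]
      exact zero_mem _

include hW hX in
theorem dia_spanOp (t : L.S → ℂ) : dia L t ∈ SpanOp W X := by
  classical
  have hι : Fintype L.ι := L.fin
  obtain ⟨x, hx, hxs⟩ := exists_dual_letter L hW hX
  have e : dia L t = ∑ j, t (L.s j) •
      actC W (W.pull (fst X X) (x j) * W.pull (snd X X) (L.e j)) := by
    refine (bs L).ext fun i => ?_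
    rw [bs_apply, dia_apply, LinearMap.sum_apply]
    have h1 : ∀ j, (t (L.s j) • actC W
        (W.pull (fst X X) (x j) * W.pull (snd X X) (L.e j))) (L.e i) =
        if i = j then t (L.s i) • L.e i else 0 := by
      intro j
      rw [LinearMap.smul_apply]
      have h2 : actC W (W.pull (fst X X) (x j) * W.pull (snd X X) (L.e j)) (L.e i) =
          W.tr X (L.e i * x j) • L.e j := act_ext hW hX (x j) (L.e j) (L.e i)
      rw [h2, hx]
      by_cases hij : i = j
      · rw [if_pos hij, if_pos hij, one_smul, hij]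
      · rw [if_neg hij, if_neg hij, zero_smul, smul_zero]
    rw [Finset.sum_congr rfl fun j _ => h1 j, Finset.sum_ite_eq, if_pos (Finset.mem_univ i)]
  rw [e]
  exact Submodule.sum_mem _ fun j _ => Submodule.smul_mem _ _ (spanOp_act (hxs j))

theorem tp_spanOp (t : L.S → ℂ) : ∀ P : Prd 1, tp hW hX (dia L t) P ∈ SpanOp W (EQ.pw X P) := by
  intro P
  induction P with
  | leaf a => exact dia_spanOp L hW hX t
  | prod P Q hP hQ => exact spanOp_ten hW (memX hX P) (memX hX Q) hP hQ

/-- the diagonal maps preserve the degree -/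
theorem tp_gr (t : L.S → ℂ) (P : Prd 1) (i : ℕ) {z : W.coh (EQ.pw X P)}
    (hz : z ∈ W.gr (EQ.pw X P) i) : tp hW hX (dia L t) P z ∈ W.gr (EQ.pw X P) i := by
  classical
  have hP := memX (𝒱 := 𝒱) hX P
  let _ : DirectSum.Decomposition (W.gr (EQ.pw X P)) := (hW.internal hP).chooseDecomposition
  have key : ∀ z : W.coh (EQ.pw X P),
      (DirectSum.decompose (W.gr (EQ.pw X P)) (tp hW hX (dia L t) P z) i : W.coh (EQ.pw X P)) =
        tp hW hX (dia L t) P (DirectSum.decompose (W.gr (EQ.pw X P)) z i : W.coh (EQ.pw X P)) := by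
    intro z
    have hz : z ∈ Submodule.span ℂ (Set.range (vec L P)) := by rw [span_vec L hW hX P]; trivial
    induction hz using Submodule.span_induction with
    | mem z hz =>
      obtain ⟨w, rfl⟩ := hz
      have h1 := vec_gr L hW hX P w
      rw [tp_vec]
      by_cases hw : dg L P w = i
      · rw [hw] at h1
        rw [DirectSum.decompose_of_mem_same _ (Submodule.smul_mem _ _ h1),
          DirectSum.decompose_of_mem_same _ h1, tp_vec]
      · rw [DirectSum.decompose_of_mem_ne _ (Submodule.smul_mem _ _ h1) hw,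
          DirectSum.decompose_of_mem_ne _ h1 hw, map_zero]
    | zero =>
      rw [map_zero, DirectSum.decompose_zero, DirectSum.zero_apply, Submodule.coe_zero, map_zero]
    | add a b _ _ ha hb =>
      rw [map_add, DirectSum.decompose_add, DirectSum.add_apply, Submodule.coe_add,
        DirectSum.decompose_add, DirectSum.add_apply, Submodule.coe_add, map_add, ha, hb]
    | smul c a _ ha =>
      rw [map_smul, DirectSum.decompose_smul, DirectSum.smul_apply, Submodule.coe_smul,
        DirectSum.decompose_smul, DirectSum.smul_apply, Submodule.coe_smul, map_smul, ha]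
  have h2 := key z
  rw [DirectSum.decompose_of_mem_same _ hz] at h2
  rw [← h2]
  exact (DirectSum.decompose (W.gr (EQ.pw X P)) (tp hW hX (dia L t) P z) i).2

/-- the diagonal maps preserve `Tr(x y)` -/
theorem tp_tr {t : L.S → ℂ} (ht : ∀ x, t x * t (L.τ x) = 1) (P : Prd 1)
    (x y : W.coh (EQ.pw X P)) : W.tr (EQ.pw X P)
      (tp hW hX (dia L t) P x * tp hW hX (dia L t) P y) = W.tr (EQ.pw X P) (x * y) := by
  have hx : x ∈ Submodule.span ℂ (Set.range (vec L P)) := by rw [span_vec L hW hX P]; trivial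
  have hy : y ∈ Submodule.span ℂ (Set.range (vec L P)) := by rw [span_vec L hW hX P]; trivial
  induction hx using Submodule.span_induction with
  | mem x hx =>
    obtain ⟨w, rfl⟩ := hx
    induction hy using Submodule.span_induction with
    | mem y hy =>
      obtain ⟨w', rfl⟩ := hy
      rw [tp_vec, tp_vec, smul_mul_assoc, mul_smul_comm, map_smul, map_smul]
      by_cases h0 : W.tr (EQ.pw X P) (vec L P w * vec L P w') = 0
      · rw [h0, smul_zero, smul_zero]
      · have h1 := tr_vec L hW hX P w w' h0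
        have h2 : ∀ l : List L.S, (l.map t).prod * ((l.map L.τ).map t).prod = 1 := by
          intro l
          induction l with
          | nil => simp
          | cons a l ih =>
            simp only [List.map_cons, List.prod_cons]
            calc t a * (l.map t).prod * (t (L.τ a) * ((l.map L.τ).map t).prod) =
                (t a * t (L.τ a)) * ((l.map t).prod * ((l.map L.τ).map t).prod) := by ring
              _ = 1 := by rw [ih, ht, one_mul]
        rw [h1, smul_eq_mul, smul_eq_mul, ← mul_assoc, h2, one_mul]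
    | zero => rw [map_zero, mul_zero, mul_zero]
    | add a b _ _ ha hb => rw [map_add, mul_add, mul_add, map_add, map_add, ha, hb]
    | smul c a _ ha => rw [map_smul, mul_smul_comm, mul_smul_comm, map_smul, map_smul, ha]
  | zero => rw [map_zero, zero_mul, zero_mul]
  | add a b _ _ ha hb => rw [map_add, add_mul, add_mul, map_add, map_add, ha, hb]
  | smul c a _ ha => rw [map_smul, smul_mul_assoc, smul_mul_assoc, map_smul, map_smul, ha]

end op

end

end Pool.Agent.Lib.MP_361a6f_ag.FL.E.VW
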