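import Pool.Agent.Lib.MP_361a6f_ag.FL.E.DC.VM

/-!
# It is enough to test the rational characters
-/

open CategoryTheory AlgebraicGeometry MonoidalCategory CartesianMonoidalCategory

universe u w

set_option autoImplicit false
set_option linter.unusedSectionVars false

namespace Pool.Agent.Lib.MP_361a6f_ag.FL.E.VW

open Pool.Agent.Lib.MP_361a6f_ag.H3 Pool.Agent.Lib.MP_361a6f_ag.SQ
  Pool.Agent.Lib.MP_361a6f_ag.PP D4 VL

noncomputable section

section conj

variable {k : Type u} [Field k] {W : CohomologyData.{u, 0, w} k ℂ} {𝒱 : VarietyClass k}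
  {X : Sch k} {σ : ℂ ≃+* ℂ} {S : ∀ P : Prd 1, W.coh (EQ.pw X P) → W.coh (EQ.pw X P)}
  (h : EQ.IsSemi W X σ S) (hW : IsWeilCohomology W 𝒱) {d : ℕ} (hX : 𝒱.mem X d)

include h hW hX in
/-- **The conjugate of an isometry by a semilinear symmetry.** -/
theorem conjI {T : ∀ P : Prd 1, W.coh (EQ.pw X P) → W.coh (EQ.pw X P)}
    (hT : EQ.IsIso W X T) : ∃ T', EQ.IsIso W X T' ∧ ∀ P x, S P (T' P x) = T P (S P x) := by
  set R : ∀ P : Prd 1, W.coh (EQ.pw X P) → W.coh (EQ.pw X P) :=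
    fun P => (Equiv.ofBijective _ (h.bij P)).symm with hR
  have sr : ∀ P x, S P (R P x) = x := fun P x =>
    (Equiv.ofBijective _ (h.bij P)).apply_symm_apply x
  have inj : ∀ P, Function.Injective (S P) := fun P => (h.bij P).1
  have inj1 : Function.Injective (GalN.s1 S : W.coh X → W.coh X) := inj (.leaf 0)
  set T' : ∀ P : Prd 1, W.coh (EQ.pw X P) → W.coh (EQ.pw X P) := fun P x => R P (T P (S P x))
    with hT'
  have st : ∀ P x, S P (T' P x) = T P (S P x) := fun P x => sr P _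
  have st1 : ∀ x : W.coh X, GalN.s1 S (T' (.leaf 0) x) = T (.leaf 0) (GalN.s1 S x : W.coh X) :=
    fun x => st (.leaf 0) x
  refine ⟨T', ⟨⟨?_, ?_, ?_⟩, ?_, ?_⟩, st⟩
  · intro P x y
    apply inj P
    rw [st, h.add, hT.tensor.add, h.add, st, st]
  · intro P c x
    apply inj P
    rw [st, h.scal, hT.tensor.scal, h.scal, st]
  · intro P Q y x
    apply inj (.prod P Q)
    have e1 : S (.prod P Q) (W.ext (T' P y) (T' Q x)) = W.ext (S P (T' P y)) (S Q (T' Q x)) :=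
      h.ext P Q _ _
    have e2 : T (.prod P Q) (W.ext (S P y) (S Q x)) = W.ext (T P (S P y)) (T Q (S Q x)) :=
      hT.tensor.ext P Q _ _
    refine Eq.trans (st (.prod P Q) _) ?_
    refine Eq.trans ?_ e1.symm
    rw [st, st, ← e2, h.ext]
  · intro l z hz x
    apply inj1
    refine (st1 _).trans ?_
    refine Eq.trans ?_ (GalN.act_S h hW hX hz (T' (.leaf 0) x)).symm
    refine (congrArg (T (.leaf 0)) (GalN.act_S h hW hX hz x)).trans ?_
    refine (hT.comm l z hz _).trans ?_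
    exact (congrArg (EQ.act W z) (st1 x)).symm
  · intro x y
    apply σ.injective
    have e : ∀ x y : W.coh X, σ (W.tr X (x * y)) = W.tr X (GalN.s1 S x * GalN.s1 S y) := by
      intro x y
      rw [← GalN.tr1 h, GalN.mul1 h]
    refine (e _ _).trans ((?_ : _ = _).trans (e x y).symm)
    rw [st1, st1]
    exact hT.form _ _

end conj

section main

variable {k : Type u} [Field k] {W : CohomologyData.{u, 0, w} k ℂ} {𝒱 : VarietyClass k}
  {X : Sch k} {d : ℕ} (L : Letters W X) (hW : IsWeilCohomology W 𝒱) (hX : 𝒱.mem X d)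
include L hW hX

/-- the character `χ` occurs in the combinations of algebraic classes -/
theorem inv_of_rational
    (H : ∀ χ : (∀ P : Prd 1, W.coh (EQ.pw X P) → W.coh (EQ.pw X P)) → ℂ, EQ.RationalI W X χ →
      Occ W (fun _ : Fin 1 => X) (fi W X) (fun i => χ i.1) →
      Occ W (fun _ : Fin 1 => X) (fi W X) fun i => (χ i.1)⁻¹)
    (χ0 : {T // EQ.IsIso W X T} → ℂ) (hχ : Occ W (fun _ : Fin 1 => X) (fi W X) χ0) :
    Occ W (fun _ : Fin 1 => X) (fi W X) fun i => (χ0 i)⁻¹ := by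
  classical
  have G := goodV L hW hX
  have mem := memX (𝒱 := 𝒱) (X := X) hX
  obtain ⟨P, j, z, hz, hz0, hT⟩ := hχ
  have hfin : Module.Finite ℂ (W.coh (P.obj fun _ : Fin 1 => X)) := hW.finite (mem P)
  have hfs := GalN.chars_finite (T := fun i => fi W X i P)
    (fun i i' w => G.comm i i' P w) (EQ.CAlg W (P.obj fun _ : Fin 1 => X) j)
  set s := hfs.toFinset with hs
  have ms : ∀ ψ, ψ ∈ s ↔ ∃ z ∈ EQ.CAlg W (P.obj fun _ : Fin 1 => X) j, z ≠ 0 ∧
      ∀ i, fi W X i P z = ψ i • z := fun ψ => hfs.mem_toFinset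
  have hocc : ∀ ψ ∈ s, Occ W (fun _ : Fin 1 => X) (fi W X) ψ := fun ψ hψ => by
    obtain ⟨z, hz, hz0, hT⟩ := (ms ψ).1 hψ
    exact ⟨P, j, z, hz, hz0, hT⟩
  have m0 : χ0 ∈ s := (ms χ0).2 ⟨z, hz, hz0, hT⟩
  have nz : ∀ ψ ∈ s, ∀ i, ψ i ≠ 0 := fun ψ hψ i => by
    obtain ⟨z, hz, hz0, hT⟩ := (ms ψ).1 hψ
    exact G.ne_zero hW mem hz0 hT i
  set Pi : {T // EQ.IsIso W X T} → ℂ := fun i => ∏ ψ ∈ s, ψ i with hPi
  have ePi : ∀ i, Pi i = χ0 i * ∏ ψ ∈ s.erase χ0, ψ i := fun i =>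
    (Finset.mul_prod_erase s (fun ψ => ψ i) m0).symm
  have oPi : Occ W (fun _ : Fin 1 => X) (fi W X) Pi := by
    have h1 := GalN.occ_prod hW mem G (hocc χ0 m0) (s.erase χ0) fun ψ hψ =>
      hocc ψ (Finset.mem_of_mem_erase hψ)
    have e : (fun i => χ0 i * ∏ ψ ∈ s.erase χ0, ψ i) = Pi := by
      funext i
      exact (ePi i).symm
    rwa [e] at h1
  let Pi' : (∀ P : Prd 1, W.coh (EQ.pw X P) → W.coh (EQ.pw X P)) → ℂ :=
    fun T => if hT : EQ.IsIso W X T then Pi ⟨T, hT⟩ else 0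
  have ePi' : ∀ i : {T // EQ.IsIso W X T}, Pi' i.1 = Pi i := fun i => dif_pos i.2
  have rat : EQ.RationalI W X Pi' := by
    intro σ S hS T T' hT hT' hST
    choose κ hκ hSκ using fun i : {T // EQ.IsIso W X T} => conjI hS hW hX i.2
    have inj : ∀ P, Function.Injective (S P) := fun P => (hS.bij P).1
    let c : ({T // EQ.IsIso W X T} → ℂ) → {T // EQ.IsIso W X T} → ℂ :=
      fun ψ i => σ (ψ ⟨κ i, hκ i⟩)
    have cmem : ∀ ψ ∈ s, c ψ ∈ s := by
      intro ψ hψ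
      obtain ⟨z, hz, hz0, hT⟩ := (ms ψ).1 hψ
      refine (ms _).2 ⟨S P z, GalN.calg hS P j hz, GalN.ne_zero hS P hz0, fun i => ?_⟩
      have h1 : κ i P z = ψ ⟨κ i, hκ i⟩ • z := hT ⟨κ i, hκ i⟩
      change i.1 P (S P z) = σ (ψ ⟨κ i, hκ i⟩) • S P z
      rw [← hSκ i P z, h1]
      exact GalN.smul hS P _ _
    have csurj : ∀ i : {T // EQ.IsIso W X T}, ∃ i', (⟨κ i', hκ i'⟩ :
        {T // EQ.IsIso W X T}) = i := by
      intro i
      obtain ⟨T1, hT1, e1⟩ := conjI (GalN.inv hS) hW hX i.2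
      refine ⟨⟨T1, hT1⟩, Subtype.ext ?_⟩
      funext P x
      apply inj P
      refine (hSκ ⟨T1, hT1⟩ P x).trans ?_
      have h2 := e1 P (S P x)
      have h3 : (Equiv.ofBijective _ (hS.bij P)).symm (S P x) = x :=
        (Equiv.ofBijective _ (hS.bij P)).symm_apply_apply x
      have h4 : (Equiv.ofBijective _ (hS.bij P)).symm (T1 P (S P x)) = i.1 P x :=
        h2.trans (congrArg (i.1 P) h3)
      exact ((Equiv.ofBijective _ (hS.bij P)).symm_apply_eq.1 h4)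
    have cinj : ∀ ψ ∈ s, ∀ ψ' ∈ s, c ψ = c ψ' → ψ = ψ' := by
      intro ψ _ ψ' _ e
      funext i
      obtain ⟨i', rfl⟩ := csurj i
      exact σ.injective (congrFun e i')
    have himg : s.image c = s :=
      Finset.eq_of_subset_of_card_le (Finset.image_subset_iff.2 cmem)
        (Finset.card_image_of_injOn fun ψ hψ ψ' hψ' e => cinj ψ hψ ψ' hψ' e).ge
    have hTκ : (⟨κ ⟨T', hT'⟩, hκ ⟨T', hT'⟩⟩ : {T // EQ.IsIso W X T}) = ⟨T, hT⟩ := by
      refine Subtype.ext ?_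
      funext P x
      apply inj P
      exact (hSκ ⟨T', hT'⟩ P x).trans (hST P x).symm
    rw [ePi' ⟨T', hT'⟩, ePi' ⟨T, hT⟩]
    have e1 : Pi ⟨T', hT'⟩ = ∏ ψ ∈ s, c ψ ⟨T', hT'⟩ := by
      change ∏ ψ ∈ s, ψ ⟨T', hT'⟩ = _
      conv_lhs => rw [← himg]
      exact Finset.prod_image fun ψ hψ ψ' hψ' e => cinj ψ hψ ψ' hψ' e
    rw [e1]
    change ∏ ψ ∈ s, σ (ψ ⟨κ ⟨T', hT'⟩, hκ ⟨T', hT'⟩⟩) = σ (∏ ψ ∈ s, ψ ⟨T, hT⟩)
    rw [hTκ, _root_.map_prod σ]
  have h1 := H Pi' rat (by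
    have e : (fun i : {T // EQ.IsIso W X T} => Pi' i.1) = Pi := funext ePi'
    rw [e]
    exact oPi)
  have h2 := GalN.occ_prod hW mem G h1 (s.erase χ0) fun ψ hψ =>
    hocc ψ (Finset.mem_of_mem_erase hψ)
  have e : (fun i : {T // EQ.IsIso W X T} => (Pi' i.1)⁻¹ * ∏ ψ ∈ s.erase χ0, ψ i) =
      fun i => (χ0 i)⁻¹ := by
    funext i
    have h3 : ∏ ψ ∈ s.erase χ0, ψ i ≠ 0 :=
      Finset.prod_ne_zero_iff.2 fun ψ hψ => nz ψ (Finset.mem_of_mem_erase hψ) i
    rw [ePi', ePi, mul_inv, mul_assoc, inv_mul_cancel₀ h3, mul_one]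
  rw [e] at h2
  exact h2

theorem occ_powV {χ : {T // EQ.IsIso W X T} → ℂ}
    (hχ : Occ W (fun _ : Fin 1 => X) (fi W X) χ) (N : ℕ) :
    Occ W (fun _ : Fin 1 => X) (fi W X) fun i => χ i ^ (N + 1) := by
  induction N with
  | zero =>
    simp only [zero_add, pow_one]
    exact hχ
  | succ N ih =>
    have h1 := GalN.occ_mul hW (memX (𝒱 := 𝒱) hX) (goodV L hW hX) ih hχ
    have e : (fun i => χ i ^ (N + 1 + 1)) = fun i => χ i ^ (N + 1) * χ i := by
      funext i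
      rw [pow_succ]
    rw [e]
    exact h1

/-- **Numerical equivalence is homological equivalence if the rational characters of the classes
fixed by all symmetries have finite order.** -/
theorem num_of_finiteV
    (H : ∀ χ, EQ.RationalI W X χ → EQ.FixedI W X χ → EQ.FiniteI W X χ) (P : Prd 1) :
    EQ.NumHomAll W (EQ.pw X P) := by
  have hinv : ∀ χ, Occ W (fun _ : Fin 1 => X) (fi W X) χ →
      Occ W (fun _ : Fin 1 => X) (fi W X) fun i => (χ i)⁻¹ := by
    refine inv_of_rational L hW hX fun χ hr ho => ?_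
    obtain ⟨N, hN, h1⟩ := H χ hr (by
      obtain ⟨P, j, x, hx, hx0, hT⟩ := ho
      refine ⟨P, x, hx0, fun S hS => ?_, fun T hT' => hT ⟨T, hT'⟩⟩
      have h2 : ∀ y ∈ EQ.CAlg W (EQ.pw X P) j, symLin hS.tensor P y = y := by
        intro y hy
        unfold EQ.CAlg at hy
        induction hy using Submodule.span_induction with
        | mem z hz => exact hS.alg P j z hz
        | zero => exact map_zero _
        | add a b _ _ ha hb => rw [map_add, ha, hb]
        | smul c a _ ha => rw [map_smul, ha]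
      exact h2 x hx)
    have h2 := occ_powV L hW hX ho (2 * N - 2)
    have e : (fun i : {T // EQ.IsIso W X T} => χ i.1 ^ (2 * N - 2 + 1)) =
        fun i => (χ i.1)⁻¹ := by
      funext i
      have h3 := h1 i.1 i.2
      have h4 : χ i.1 ^ (2 * N) = 1 := by rw [mul_comm, pow_mul, h3, one_pow]
      have h5 : 2 * N = (2 * N - 2 + 1) + 1 := by omega
      rw [h5, pow_succ] at h4
      exact eq_inv_of_mul_eq_one_left h4
    rw [e] at h2
    exact h2
  exact numAll hW (memX hX P)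
    (((goodV L hW hX).iff hW (memX (𝒱 := 𝒱) hX)).2 hinv P)

end main

end

end Pool.Agent.Lib.MP_361a6f_ag.FL.E.VW
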