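import Pool.Agent.Lib.MP_361a6f_ag.FL.E.DC.VL
import Pool.Agent.Lib.MP_361a6f_ag.FL.E.DC.StatV
import Pool.Agent.Lib.MP_361a6f_ag.FL.E.D4c
import Pool.Agent.Lib.MP_361a6f_ag.PP.Ops

/-!
# Words of classes
-/

open CategoryTheory AlgebraicGeometry MonoidalCategory CartesianMonoidalCategory

universe u w

set_option autoImplicit false
set_option linter.unusedSectionVars false

namespace Pool.Agent.Lib.MP_361a6f_ag.FL.E.VW

open Pool.Agent.Lib.MP_361a6f_ag.H3 Pool.Agent.Lib.MP_361a6f_ag.SQ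
  Pool.Agent.Lib.MP_361a6f_ag.PP D4 VL

variable {k : Type u} [Field k] {W : CohomologyData.{u, 0, w} k ℂ} {𝒱 : VarietyClass k}
  {X : Sch k} {d : ℕ}

/-- letters: a homogeneous basis of `H^*(X)` with labels `s i`; the form `Tr(x y)` pairs only the
letters with the labels `s` and `τ s`, and the exterior products of such letters are complex
combinations of algebraic classes -/
structure Letters (W : CohomologyData.{u, 0, w} k ℂ) (X : Sch k) where
  ι : Type
  fin : Fintype ι
  e : ι → W.coh X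
  deg : ι → ℕ
  S : Type
  τ : S → S
  hτ : ∀ x, τ (τ x) = x
  s : ι → S
  lin : LinearIndependent ℂ e
  span : Submodule.span ℂ (Set.range e) = ⊤
  gr : ∀ i, e i ∈ W.gr X (deg i)
  ortho : ∀ i j, s j ≠ τ (s i) → W.tr X (e i * e j) = 0
  pair : ∀ i j, s j = τ (s i) →
    W.pull (fst X X) (e i) * W.pull (snd X X) (e j) ∈ St W (X ⊗ X)
  stab : ∀ l z, z ∈ W.alg (X ⊗ X) l → ∀ i, EQ.act W z (e i) ∈
    Submodule.span ℂ {y | ∃ j, s j = s i ∧ y = e j}

variable (L : Letters W X)

/-- words on the leaves of `P` -/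
def Wd (L : Letters W X) : Prd 1 → Type
  | .leaf _ => L.ι
  | .prod P Q => Wd L P × Wd L Q

/-- the letters of a word -/
def ls : (P : Prd 1) → Wd L P → List L.ι
  | .leaf _, i => [(i : L.ι)]
  | .prod P Q, w => ls P w.1 ++ ls Q w.2

/-- the exterior product of the letters -/
noncomputable def vec : (P : Prd 1) → Wd L P → W.coh (EQ.pw X P)
  | .leaf _, i => L.e i
  | .prod P Q, w => W.ext (vec P w.1) (vec Q w.2)

/-- the degree of a word -/
def dg : (P : Prd 1) → Wd L P → ℕ
  | .leaf _, i => L.deg i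
  | .prod P Q, w => dg P w.1 + dg Q w.2

/-- the dimension of a power -/
theorem memX (hX : 𝒱.mem X d) : ∀ P : Prd 1, 𝒱.mem (EQ.pw X P) (P.dim fun _ => d)
  | .leaf _ => hX
  | .prod P Q => 𝒱.prod (memX hX P) (memX hX Q)

section span

variable (hW : IsWeilCohomology W 𝒱) (hX : 𝒱.mem X d)
include hW hX

theorem span_vec : ∀ P : Prd 1, Submodule.span ℂ (Set.range (vec L P)) = ⊤ := by
  intro P
  induction P with
  | leaf a => exact L.span
  | prod P Q hP hQ =>
    rw [eq_top_iff]
    intro z _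
    refine prod_induction hW (memX hX P) (memX hX Q) (P := fun z =>
      z ∈ Submodule.span ℂ (Set.range (vec L (.prod P Q)))) z ?_ (zero_mem _)
      (fun a b ha hb => add_mem ha hb) (fun c a ha => Submodule.smul_mem _ c ha)
    intro y x
    have hy : y ∈ Submodule.span ℂ (Set.range (vec L P)) := by rw [hP]; trivial
    have hx : x ∈ Submodule.span ℂ (Set.range (vec L Q)) := by rw [hQ]; trivial
    induction hy using Submodule.span_induction with
    | mem y hy =>
      obtain ⟨w, rfl⟩ := hy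
      induction hx using Submodule.span_induction with
      | mem x hx =>
        obtain ⟨w', rfl⟩ := hx
        exact Submodule.subset_span ⟨(w, w'), rfl⟩
      | zero => rw [map_zero, mul_zero]; exact zero_mem _
      | add a b _ _ ha hb => rw [map_add, mul_add]; exact add_mem ha hb
      | smul c a _ ha => rw [map_smul, mul_smul_comm]; exact Submodule.smul_mem _ c ha
    | zero => rw [map_zero, zero_mul]; exact zero_mem _
    | add a b _ _ ha hb => rw [map_add, add_mul]; exact add_mem ha hb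
    | smul c a _ ha => rw [map_smul, smul_mul_assoc]; exact Submodule.smul_mem _ c ha

theorem vec_gr : ∀ (P : Prd 1) (w : Wd L P), vec L P w ∈ W.gr (EQ.pw X P) (dg L P w) := by
  intro P
  induction P with
  | leaf a => exact fun i => L.gr i
  | prod P Q hP hQ =>
    intro w
    have hPQ := 𝒱.prod (memX hX P) (memX hX Q)
    exact hW.mul_gr hPQ (hW.pull_gr hPQ (memX hX P) _ (hP w.1))
      (hW.pull_gr hPQ (memX hX Q) _ (hQ w.2))

/-- exterior products of homogeneous classes -/
theorem tr_ext {Y Z : Sch k} {m n : ℕ} (hY : 𝒱.mem Y m) (hZ : 𝒱.mem Z n) {a a' : W.coh Y}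
    {b b' : W.coh Z} {p q : ℕ} (hb : b ∈ W.gr Z p) (ha' : a' ∈ W.gr Y q) :
    W.tr (Y ⊗ Z) (W.pull (fst Y Z) a * W.pull (snd Y Z) b *
      (W.pull (fst Y Z) a' * W.pull (snd Y Z) b')) =
      (-1) ^ (p * q) * (W.tr Y (a * a') * W.tr Z (b * b')) := by
  have hYZ := 𝒱.prod hY hZ
  have h1 := hW.comm_gr hYZ (hW.pull_gr hYZ hZ (snd Y Z) hb) (hW.pull_gr hYZ hY (fst Y Z) ha')
  have e : W.pull (fst Y Z) a * W.pull (snd Y Z) b *
      (W.pull (fst Y Z) a' * W.pull (snd Y Z) b') =
      (-1 : ℂ) ^ (p * q) • (W.pull (fst Y Z) (a * a') * W.pull (snd Y Z) (b * b')) := by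
    rw [map_mul, map_mul, mul_assoc, ← mul_assoc (W.pull (snd Y Z) b), h1]
    simp only [smul_mul_assoc, mul_smul_comm, mul_assoc]
  rw [e, map_smul, smul_eq_mul, hW.kunneth_tr hY hZ]

/-- the pull-back of a word is an ordered product of pull-backs of letters -/
theorem pull_vec {Y : Sch k} : ∀ (P : Prd 1) (w : Wd L P) (f : Y ⟶ EQ.pw X P),
    ∃ l : List ((Y ⟶ X) × L.ι), l.map Prod.snd = ls L P w ∧
      W.pull f (vec L P w) = (l.map fun p => W.pull p.1 (L.e p.2)).prod := by
  intro P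
  induction P with
  | leaf a =>
    intro i f
    refine ⟨[(f, i)], rfl, ?_⟩
    rw [List.map_cons, List.map_nil, List.prod_singleton]
    rfl
  | prod P Q hP hQ =>
    intro w f
    obtain ⟨l1, h1, e1⟩ := hP w.1 (f ≫ fst (EQ.pw X P) (EQ.pw X Q))
    obtain ⟨l2, h2, e2⟩ := hQ w.2 (f ≫ snd (EQ.pw X P) (EQ.pw X Q))
    refine ⟨l1 ++ l2, ?_, ?_⟩
    · rw [List.map_append, h1, h2]
      rfl
    · rw [List.map_append, List.prod_append, ← e1, ← e2, W.pull_comp, W.pull_comp, ← map_mul]
      rfl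

/-- **A balanced word is a complex combination of algebraic classes.** -/
theorem vec_st (P : Prd 1) (w : Wd L P) (hB : Bal L.τ ((ls L P w).map L.s)) :
    vec L P w ∈ St W (EQ.pw X P) := by
  have hP := memX (𝒱 := 𝒱) hX P
  obtain ⟨l, hl, e⟩ := pull_vec L hW hX P w (𝟙 (EQ.pw X P))
  rw [W.pull_id] at e
  let φ : ((EQ.pw X P ⟶ X) × L.ι) → W.coh (EQ.pw X P) × L.S :=
    fun p => (W.pull p.1 (L.e p.2), L.s p.2)
  have h1 := VL.prod_mem L.hτ (R := W.coh (EQ.pw X P)) (St W (EQ.pw X P) : Set (W.coh (EQ.pw X P)))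
    (Submodule.subset_span (alg_le_tot hW _ 0 (hW.one_alg hP)))
    (fun a ha b hb => st_mul hW hP ha hb) (fun a ha => neg_mem ha) (Set.range φ)
    (by
      rintro _ ⟨⟨g, i⟩, rfl⟩ _ ⟨⟨h, j⟩, rfl⟩ hij
      have h2 := st_pull hW hP (𝒱.prod hX hX) (lift g h) (L.pair i j hij)
      rw [map_mul, ← W.pull_comp, ← W.pull_comp, lift_fst, lift_snd] at h2
      exact h2)
    (by
      rintro _ ⟨⟨g, i⟩, rfl⟩ _ ⟨⟨h, j⟩, rfl⟩
      have h2 := hW.comm_gr hP (hW.pull_gr hP hX g (L.gr i)) (hW.pull_gr hP hX h (L.gr j))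
      rcases neg_one_pow_eq_or ℂ (L.deg i * L.deg j) with h3 | h3
      · left
        rw [h3, one_smul] at h2
        exact h2
      · right
        rw [h3, neg_one_smul] at h2
        exact h2)
    (l.map φ).length (l.map φ) rfl
    (by
      intro p hp
      obtain ⟨q, -, rfl⟩ := List.mem_map.1 hp
      exact ⟨q, rfl⟩)
    (by
      rw [List.map_map]
      have e3 : l.map (Prod.snd ∘ φ) = (l.map Prod.snd).map L.s := by
        rw [List.map_map]
        rfl
      rw [e3, hl]
      exact hB)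
  rw [List.map_map] at h1
  rw [e]
  exact h1

/-- two words are orthogonal if their letters are not dual -/
theorem tr_vec : ∀ (P : Prd 1) (w w' : Wd L P), W.tr (EQ.pw X P) (vec L P w * vec L P w') ≠ 0 →
    (ls L P w').map L.s = ((ls L P w).map L.s).map L.τ := by
  intro P
  induction P with
  | leaf a =>
    intro i j h
    by_contra hcon
    apply h
    refine L.ortho i j fun hij => hcon ?_
    change [L.s j] = [L.τ (L.s i)]
    rw [hij]
  | prod P Q hP hQ =>
    intro w w' h
    have e := tr_ext hW hX (memX hX P) (memX hX Q) (a := vec L P w.1) (b' := vec L Q w'.2)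
      (vec_gr L hW hX Q w.2) (vec_gr L hW hX P w'.1)
    have h1 : W.tr (EQ.pw X P) (vec L P w.1 * vec L P w'.1) ≠ 0 := by
      intro h0
      apply h
      refine e.trans ?_
      rw [h0, zero_mul, mul_zero]
    have h2 : W.tr (EQ.pw X Q) (vec L Q w.2 * vec L Q w'.2) ≠ 0 := by
      intro h0
      apply h
      refine e.trans ?_
      rw [h0, mul_zero, mul_zero]
    change ((ls L P w'.1 ++ ls L Q w'.2).map L.s) =
      ((ls L P w.1 ++ ls L Q w.2).map L.s).map L.τ
    rw [List.map_append, List.map_append, List.map_append, hP _ _ h1, hQ _ _ h2]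

end span

end Pool.Agent.Lib.MP_361a6f_ag.FL.E.VW
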